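import Pool.Agent.H3.LG.Defs

/-! The starting point of the transit: the point of the unstable manifold with parameter `g = (-1179 + 396 i)/10000`
(equal masses), rounded to 45 digits. -/

set_option autoImplicit false

open Pool.Agent.H99.TB

namespace Pool.Agent.H99.LG

/-- numerators (denominator `10^45`) of `u`, `w`, `u'`, `w'` -/
noncomputable def P0 : E × E :=
  ((⟨877963243220652588389119512637616601079648003 / 10 ^ 45, 47636960693527475485763913673037760849165715 / 10 ^ 45⟩,
    ⟨-407410863284380629205921814811032374051812349 / 10 ^ 45, 941010410068465712807941263212903744679663449 / 10 ^ 45⟩),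
   (⟨-103700491262640611945455582150160432531545866 / 10 ^ 45, 1035685809008245991043967021607961979379827882 / 10 ^ 45⟩,
    ⟨-789903666619264844080654690017973183423135090 / 10 ^ 45, -448919289409833188117094493630312797862522130 / 10 ^ 45⟩))

end Pool.Agent.H99.LG
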