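import Pool.Agent.H99.LG.Main3
import Pool.Agent.H3.LG.GoesAsm

/-! The transit from `P0` and the escape. -/

set_option autoImplicit false

namespace Pool.Agent.H99.LG

open Set Complex Pool.Agent.H99.TB Pool.Agent.H99.TB.Poly Pool.Agent.H3.LG

theorem zz_val {S : ℝ} {x g : List ℤ} {a b : ℤ} (ha : evI x 0 = a) (hb : evI g 0 = b) :
    zz 1 S x g 0 = ⟨a / S, b / S⟩ := by
  have h1 := ev_int x 0
  have h2 := ev_int g 0
  rw [Int.cast_zero] at h1 h2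
  rw [zz, h1, h2, ha, hb, one_mul]

theorem cx_close {a b a' b' r : ℝ} (h1 : |a - a'| ≤ r) (h2 : |b - b'| ≤ r) :
    ‖(⟨a, b⟩ : ℂ) - ⟨a', b'⟩‖ ≤ 2 * r := by
  have := norm_le_of_parts (z := (⟨a, b⟩ : ℂ) - ⟨a', b'⟩) (a := r) (b := r) (by simpa using h1) (by simpa using h2)
  linarith

theorem S_n0 : n0.S = 2 ^ 122 := rfl

theorem start3 : ‖P0.1 - n0.p 0‖ ≤ 1 / 10 ^ 33 ∧ ‖P0.2 - n0.pd 0‖ ≤ 1 / 10 ^ 33 := by
  have a1 : evI n0.ux 0 = 4668053288636050672344102409250537097 := by decide +kernel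
  have a2 : evI n0.ug 0 = 253281527151769369210392330387757866 := by decide +kernel
  have a3 : evI n0.wx 0 = -2166167701057998527846316465009752326 := by decide +kernel
  have a4 : evI n0.wg 0 = 5003269525552193998369619129864734587 := by decide +kernel
  have b1 : evI (ddh n0.hb n0.ux) 0 = 4 * -137841596162950960641800145928511195 := by decide +kernel
  have b2 : evI (ddh n0.hb n0.ug) 0 = 4 * 1376662572170909987973953244642665767 := by decide +kernel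
  have b3 : evI (ddh n0.hb n0.wx) 0 = 4 * -1049962067643481763065694319822271230 := by decide +kernel
  have b4 : evI (ddh n0.hb n0.wg) 0 = 4 * -596716087331421177835819344483872771 := by decide +kernel
  have h2 : (2 * (1 / 10 ^ 34) : ℝ) ≤ 1 / 10 ^ 33 := by norm_num
  constructor
  · rw [TD3.p, zz_val a1 a2, zz_val a3 a4, S_n0, P0, Prod.norm_def]
    refine max_le ((cx_close (r := 1 / 10 ^ 34) ?_ ?_).trans h2) ((cx_close (r := 1 / 10 ^ 34) ?_ ?_).trans h2) <;>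
    · rw [abs_le]; constructor <;> norm_num
  · rw [TD3.pd, zz_val b1 b2, zz_val b3 b4, S_n0, P0, Prod.norm_def]
    refine max_le ((cx_close (r := 1 / 10 ^ 34) ?_ ?_).trans h2) ((cx_close (r := 1 / 10 ^ 34) ?_ ?_).trans h2) <;>
    · rw [abs_le]; constructor <;> norm_num

theorem inv0 {z : E × E} (h : ‖z - P0‖ ≤ 1 / 10 ^ 28) : Inv3 n0 z := by
  obtain ⟨s1, s2⟩ := start3
  have h1 : ‖z.1 - P0.1‖ ≤ 1 / 10 ^ 28 := (norm_fst_le (z - P0)).trans h
  have h2 : ‖z.2 - P0.2‖ ≤ 1 / 10 ^ 28 := (norm_snd_le (z - P0)).trans h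
  have k : n0.kk = 195 := rfl
  have n : n0.nn = 265446788223 := rfl
  constructor
  · rw [k, n]
    have e := norm_sub_le_norm_sub_add_norm_sub z.1 P0.1 (n0.p 0)
    have e2 : ‖z.1 - n0.p 0‖ ≤ 1 / 10 ^ 28 + 1 / 10 ^ 33 := by linarith
    calc ((195 : ℕ) / 100 : ℝ) * ‖z.1 - n0.p 0‖ ≤ ((195 : ℕ) / 100 : ℝ) * (1 / 10 ^ 28 + 1 / 10 ^ 33) := by gcongr
      _ ≤ ((265446788223 : ℕ) : ℝ) / 2 ^ 130 := by norm_num
  · rw [n]
    have e := norm_sub_le_norm_sub_add_norm_sub z.2 P0.2 (n0.pd 0)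
    have e2 : ‖z.2 - n0.pd 0‖ ≤ 1 / 10 ^ 28 + 1 / 10 ^ 33 := by linarith
    refine e2.trans ?_
    norm_num

/-- the final state -/
noncomputable def uE : ℂ := ⟨-623674253434 / 2 ^ 41, 712477936027 / 2 ^ 41⟩
noncomputable def wE : ℂ := ⟨5278992110732 / 2 ^ 41, 2254431263345 / 2 ^ 41⟩
noncomputable def vE : ℂ := ⟨8 * -100262773429 / 2 ^ 41, 8 * -179125387706 / 2 ^ 41⟩
noncomputable def zE : ℂ := ⟨8 * 221845338048 / 2 ^ 41, 8 * 334696918564 / 2 ^ 41⟩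

theorem end3 {z : E × E} (h : Inv3 n211 z) : ‖z.1.1 - uE‖ ≤ 5 / 10 ^ 4 ∧ ‖z.1.2 - wE‖ ≤ 5 / 10 ^ 4 ∧
    ‖z.2.1 - vE‖ ≤ 19 / 10 ^ 4 ∧ ‖z.2.2 - zE‖ ≤ 19 / 10 ^ 4 := by
  have k : n211.kk = 421 := rfl
  have n : n211.nn = 2541798349257693720039387290050999288 := rfl
  have hS : n211.S = 2 ^ 41 := rfl
  obtain ⟨h1, h2⟩ := h
  rw [k, n] at h1
  rw [n] at h2
  have a1 : evI n211.ux 0 = -623674253434 := by decide +kernel
  have a2 : evI n211.ug 0 = 712477936027 := by decide +kernel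
  have a3 : evI n211.wx 0 = 5278992110732 := by decide +kernel
  have a4 : evI n211.wg 0 = 2254431263345 := by decide +kernel
  have b1 : evI (ddh n211.hb n211.ux) 0 = 8 * -100262773429 := by decide +kernel
  have b2 : evI (ddh n211.hb n211.ug) 0 = 8 * -179125387706 := by decide +kernel
  have b3 : evI (ddh n211.hb n211.wx) 0 = 8 * 221845338048 := by decide +kernel
  have b4 : evI (ddh n211.hb n211.wg) 0 = 8 * 334696918564 := by decide +kernel
  have p0 : n211.p 0 = (uE, wE) := by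
    rw [TD3.p, zz_val a1 a2, zz_val a3 a4, hS, uE, wE]
    norm_num
  have q0 : n211.pd 0 = (vE, zE) := by
    rw [TD3.pd, zz_val b1 b2, zz_val b3 b4, hS, vE, zE]
    norm_num
  rw [p0] at h1
  rw [q0] at h2
  have e1 : ‖z.1 - (uE, wE)‖ ≤ 5 / 10 ^ 4 := by
    have e : (((2541798349257693720039387290050999288 : ℕ) : ℝ) / 2 ^ 130) ≤ ((421 : ℕ) / 100 : ℝ) * (5 / 10 ^ 4) := by
      norm_num
    exact le_of_mul_le_mul_left (h1.trans e) (by norm_num)
  have e2 : ‖z.2 - (vE, zE)‖ ≤ 19 / 10 ^ 4 := h2.trans (by norm_num)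
  exact ⟨(norm_fst_le (z.1 - (uE, wE))).trans e1, (norm_snd_le (z.1 - (uE, wE))).trans e1,
    (norm_fst_le (z.2 - (vE, zE))).trans e2, (norm_snd_le (z.2 - (vE, zE))).trans e2⟩

noncomputable def ehat : ℂ := ⟨21 / 29, 20 / 29⟩

theorem ehat_norm : ‖ehat‖ = 1 := by
  rw [← sq_eq_sq₀ (norm_nonneg _) zero_le_one, ← Complex.normSq_eq_norm_sq, Complex.normSq_apply, ehat]
  norm_num

theorem dir {y y' : ℂ} {r : ℝ} (h : ‖y - y'‖ ≤ r) :
    ((starRingEnd ℂ) ehat * y').re - r ≤ ((starRingEnd ℂ) ehat * y).re := by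
  have e : (starRingEnd ℂ) ehat * y = (starRingEnd ℂ) ehat * y' + (starRingEnd ℂ) ehat * (y - y') := by ring
  have := Complex.abs_re_le_norm ((starRingEnd ℂ) ehat * (y - y'))
  rw [norm_mul, Complex.norm_conj, ehat_norm, one_mul] at this
  rw [e, add_re]
  linarith [neg_abs_le ((starRingEnd ℂ) ehat * (y - y')).re]

theorem norm_of_sq {z : ℂ} {r : ℝ} (hr : 0 ≤ r) (h : z.re * z.re + z.im * z.im ≤ r ^ 2) : ‖z‖ ≤ r := by
  rw [← sq_le_sq₀ (norm_nonneg _) hr, ← Complex.normSq_eq_norm_sq, Complex.normSq_apply]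
  exact h

theorem s_tr : S_TR := by
  refine ⟨1 / 10 ^ 45, by positivity, fun m hm γ hγ h0 => ?_⟩
  obtain ⟨c1, c2⟩ := main3 hm hγ (inv0 h0)
  obtain ⟨hu, hw, hv, hz⟩ := end3 c2
  set Z := γ (3211 / 256) with hZ
  have hm6 : Near3 m (1 / 10 ^ 6) := hm.mono (by norm_num)
  have half : ‖(1 / 2 : ℂ)‖ = 1 / 2 := by norm_num
  have y1 : ‖(Z.1.2 + 1 / 2 * Z.1.1) - (wE + 1 / 2 * uE)‖ ≤ 75 / 10 ^ 5 := by
    have e : (Z.1.2 + 1 / 2 * Z.1.1) - (wE + 1 / 2 * uE) = (Z.1.2 - wE) + 1 / 2 * (Z.1.1 - uE) := by ring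
    rw [e]
    refine (norm_add_le _ _).trans ?_
    rw [norm_mul, half]
    linarith
  have y2 : ‖(Z.2.2 + 1 / 2 * Z.2.1) - (zE + 1 / 2 * vE)‖ ≤ 285 / 10 ^ 5 := by
    have e : (Z.2.2 + 1 / 2 * Z.2.1) - (zE + 1 / 2 * vE) = (Z.2.2 - zE) + 1 / 2 * (Z.2.1 - vE) := by ring
    rw [e]
    refine (norm_add_le _ _).trans ?_
    rw [norm_mul, half]
    linarith
  have nuE : ‖uE‖ ≤ 4306 / 10 ^ 4 := norm_of_sq (by norm_num) (by simp only [uE]; norm_num)
  have nvE : ‖vE‖ ≤ 7468 / 10 ^ 4 := norm_of_sq (by norm_num) (by simp only [vE]; norm_num)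
  have nyE : ‖zE + 1 / 2 * vE‖ ≤ 1089 / 1000 := norm_of_sq (by norm_num) (by
    have e : zE + 1 / 2 * vE = ⟨8 * 221845338048 / 2 ^ 41 + 4 * -100262773429 / 2 ^ 41,
        8 * 334696918564 / 2 ^ 41 + 4 * -179125387706 / 2 ^ 41⟩ := by
      apply Complex.ext <;> simp [zE, vE] <;> norm_num
    rw [e]
    norm_num)
  have nu : ‖Z.1.1‖ ≤ 4311 / 10 ^ 4 := by
    have := norm_le_norm_add_norm_sub uE Z.1.1
    rw [norm_sub_rev] at this
    linarith
  have nv : ‖Z.2.1‖ ≤ 7487 / 10 ^ 4 := by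
    have := norm_le_norm_add_norm_sub vE Z.2.1
    rw [norm_sub_rev] at this
    linarith
  have hT : (3211 / 256 : ℝ) ∈ Icc (0 : ℝ) (3211 / 256) := ⟨by norm_num, le_rfl⟩
  have lu := (c1 _ hT).1
  have E := esc (T := 3211 / 256) hm6 hγ (X0 := 2453 / 1000) (V0 := 1064 / 1000) (V1 := 11 / 10) (h0 := 1266 / 1000)
    (h1 := 1) (c0 := 3018 / 10 ^ 4) (c1 := 19 / 100) (w0 := 43 / 100) (D := 667 / 1000) (q := 944 / 1000)
    (d := 1785 / 1000) (e := ehat) ehat_norm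
    (by
      have e1 : ((starRingEnd ℂ) ehat * (wE + 1 / 2 * uE)).re =
          21 / 29 * (5278992110732 / 2 ^ 41 + 1 / 2 * (-623674253434 / 2 ^ 41)) +
          20 / 29 * (2254431263345 / 2 ^ 41 + 1 / 2 * (712477936027 / 2 ^ 41)) := by
        simp [ehat, wE, uE]
        try norm_num
      refine le_trans ?_ (dir y1)
      rw [e1]
      norm_num)
    (by
      have e1 : ((starRingEnd ℂ) ehat * (zE + 1 / 2 * vE)).re =
          21 / 29 * (8 * 221845338048 / 2 ^ 41 + 1 / 2 * (8 * -100262773429 / 2 ^ 41)) +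
          20 / 29 * (8 * 334696918564 / 2 ^ 41 + 1 / 2 * (8 * -179125387706 / 2 ^ 41)) := by
        simp [ehat, zE, vE]
        try norm_num
      refine le_trans ?_ (dir y2)
      rw [e1]
      norm_num)
    (by
      have := norm_le_norm_add_norm_sub (zE + 1 / 2 * vE) (Z.2.2 + 1 / 2 * Z.2.1)
      rw [norm_sub_rev] at this
      linarith)
    (by
      have u0 : 0 < ‖Z.1.1‖ := lt_of_lt_of_le (by norm_num) lu
      have e1 : (2 / 3) / (4311 / 10 ^ 4 : ℝ) ≤ (2 / 3) / ‖Z.1.1‖ := by gcongr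
      have e2 : ‖Z.2.1‖ ^ 2 ≤ (7487 / 10 ^ 4) ^ 2 := by gcongr
      have e3 : ((7487 / 10 ^ 4) ^ 2 / 2 - (2 / 3) / (4311 / 10 ^ 4) : ℝ) ≤ -(1266 / 1000) := by norm_num
      linarith)
    (by
      have e1 : (starRingEnd ℂ) Z.1.1 * Z.2.1 = (starRingEnd ℂ) uE * vE + ((starRingEnd ℂ) (Z.1.1 - uE) * Z.2.1 +
          (starRingEnd ℂ) uE * (Z.2.1 - vE)) := by
        rw [map_sub]; ring
      have e2 : ‖(starRingEnd ℂ) (Z.1.1 - uE) * Z.2.1 + (starRingEnd ℂ) uE * (Z.2.1 - vE)‖ ≤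
          5 / 10 ^ 4 * (7487 / 10 ^ 4) + 4306 / 10 ^ 4 * (19 / 10 ^ 4) := by
        refine (norm_add_le _ _).trans ?_
        rw [norm_mul, norm_mul, Complex.norm_conj, Complex.norm_conj]
        gcongr
      have e3 := Complex.abs_im_le_norm ((starRingEnd ℂ) (Z.1.1 - uE) * Z.2.1 + (starRingEnd ℂ) uE * (Z.2.1 - vE))
      have e4 : ((starRingEnd ℂ) uE * vE).im = -623674253434 / 2 ^ 41 * (8 * -179125387706 / 2 ^ 41) -
          712477936027 / 2 ^ 41 * (8 * -100262773429 / 2 ^ 41) := by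
        simp only [uE, vE, mul_im, conj_re, conj_im]
        ring
      rw [e1, add_im, e4]
      have e5 : (3018 / 10 ^ 4 : ℝ) ≤ -623674253434 / 2 ^ 41 * (8 * -179125387706 / 2 ^ 41) -
          712477936027 / 2 ^ 41 * (8 * -100262773429 / 2 ^ 41) -
          (5 / 10 ^ 4 * (7487 / 10 ^ 4) + 4306 / 10 ^ 4 * (19 / 10 ^ 4)) := by norm_num
      linarith [neg_abs_le ((starRingEnd ℂ) (Z.1.1 - uE) * Z.2.1 + (starRingEnd ℂ) uE * (Z.2.1 - vE)).im])
    (by linarith) (by linarith) lu (by norm_num) (by norm_num) (by norm_num) (by norm_num) (by norm_num) (by norm_num)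
    (by norm_num) (by norm_num) (by norm_num) (by norm_num) (by norm_num) (by norm_num) (by norm_num) (by norm_num)
    (by norm_num)
  refine ⟨fun t ht => ?_, 3211 / 256, by norm_num, fun t ht => ?_⟩
  · rcases le_or_gt t (3211 / 256) with hc | hc
    · obtain ⟨d1, d2, d3, d4⟩ := c1 t ⟨ht, hc⟩
      have d5 : ‖(γ t).2.1‖ ≤ 31 := (norm_fst_le (γ t).2).trans d4
      have d6 : ‖(γ t).2.2‖ ≤ 31 := (norm_snd_le (γ t).2).trans d4
      refine ⟨?_, ?_, ?_, ?_, ?_⟩ <;> linarith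
    · obtain ⟨d1, d2, d3, d4, d5, -⟩ := E t hc.le
      exact ⟨d1, d2, d3, d4, d5⟩
  · obtain ⟨-, -, -, -, -, d6, d7, d8⟩ := E t ht
    exact ⟨d6, d7, d8⟩

end Pool.Agent.H99.LG
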