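import Pool.Agent.H99.LG.Cnt

/-!
Lang's inequality with one generic number: almost every number is good.
-/

set_option autoImplicit false

open scoped ENNReal
open MeasureTheory

namespace Pool.Agent.H99.LG

/-- the product of the sizes of the terms -/
noncomputable def Pr {m : ℕ} (g : Fin m → Qp × Zn) : ℝ :=
  ∏ i, (|((g i).2.1 : ℝ)| * H (g i).1.1 ^ 2)

/-- the sum of the coefficients -/
noncomputable def Sb {m : ℕ} (b₀ : Zn) (g : Fin m → Qp × Zn) : ℝ :=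
  |(b₀.1 : ℝ)| + ∑ i, |((g i).2.1 : ℝ)|

/-- the bound -/
noncomputable def del (ε c : ℝ) {m : ℕ} (b₀ : Zn) (g : Fin m → Qp × Zn) : ℝ :=
  c ^ (m + 1) * Sb b₀ g * (|(b₀.1 : ℝ)| * Pr g) ^ (-(1 + ε))

theorem one_le_term (z : Qp × Zn) : 1 ≤ |(z.2.1 : ℝ)| * H z.1.1 ^ 2 := by
  have h1 := one_le_abs z.2
  have h2 := one_le_H z.1.1
  nlinarith [mul_le_mul h1 (one_le_pow₀ (n := 2) h2) (by norm_num) (by linarith)]

theorem abs_le_term (z : Qp × Zn) : |(z.2.1 : ℝ)| ≤ |(z.2.1 : ℝ)| * H z.1.1 ^ 2 := by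
  have h1 := one_le_abs z.2
  have h2 := one_le_pow₀ (n := 2) (one_le_H z.1.1)
  nlinarith

theorem one_le_fprod {ι : Type} (s : Finset ι) (f : ι → ℝ) (hf : ∀ i ∈ s, 1 ≤ f i) :
    1 ≤ ∏ i ∈ s, f i := by
  classical
  induction s using Finset.induction_on with
  | empty => simp
  | insert a s ha ih =>
    rw [Finset.prod_insert ha]
    exact one_le_mul_of_one_le_of_one_le (hf a (Finset.mem_insert_self _ _))
      (ih fun i hi => hf i (Finset.mem_insert_of_mem hi))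

theorem one_le_Pr {m : ℕ} (g : Fin m → Qp × Zn) : 1 ≤ Pr g :=
  one_le_fprod _ _ fun i _ => one_le_term (g i)

theorem abs_le_Pr {m : ℕ} (g : Fin m → Qp × Zn) (i : Fin m) : |((g i).2.1 : ℝ)| ≤ Pr g := by
  unfold Pr
  rw [← Finset.mul_prod_erase _ _ (Finset.mem_univ i)]
  have h1 : 1 ≤ ∏ x ∈ Finset.univ.erase i, |((g x).2.1 : ℝ)| * H (g x).1.1 ^ 2 :=
    one_le_fprod _ _ fun i _ => one_le_term (g i)
  have h2 := abs_le_term (g i)
  have h3 := one_le_term (g i)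
  nlinarith

theorem Sb_le {m : ℕ} (b₀ : Zn) (g : Fin m → Qp × Zn) :
    Sb b₀ g ≤ (m + 1) * (|(b₀.1 : ℝ)| * Pr g) := by
  unfold Sb
  have h0 := one_le_abs b₀
  have hP := one_le_Pr g
  have h1 : |(b₀.1 : ℝ)| ≤ |(b₀.1 : ℝ)| * Pr g := by nlinarith
  have h2 : ∑ i, |((g i).2.1 : ℝ)| ≤ ∑ _i : Fin m, |(b₀.1 : ℝ)| * Pr g := by
    refine Finset.sum_le_sum fun i _ => ?_
    have := abs_le_Pr g i
    nlinarith
  rw [Finset.sum_const, Finset.card_univ, Fintype.card_fin, nsmul_eq_mul] at h2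
  linarith

theorem Sb_pos {m : ℕ} (b₀ : Zn) (g : Fin m → Qp × Zn) : 0 < Sb b₀ g := by
  unfold Sb
  have h0 := one_le_abs b₀
  have h1 : 0 ≤ ∑ i, |((g i).2.1 : ℝ)| := Finset.sum_nonneg fun i _ => abs_nonneg _
  linarith

theorem del_pos {ε c : ℝ} (hc : 0 < c) {m : ℕ} (b₀ : Zn) (g : Fin m → Qp × Zn) :
    0 < del ε c b₀ g := by
  unfold del
  have h0 := one_le_abs b₀
  have hP := one_le_Pr g
  have h1 := Sb_pos b₀ g
  positivity

theorem del_le_one {ε c : ℝ} (hε : 0 < ε) (hc : 0 < c) (hc1 : c ≤ 1 / 2) {m : ℕ} (b₀ : Zn)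
    (g : Fin m → Qp × Zn) : del ε c b₀ g ≤ 1 := by
  unfold del
  have h0 := one_le_abs b₀
  have hP := one_le_Pr g
  set Q := |(b₀.1 : ℝ)| * Pr g with hQ
  have hQ1 : 1 ≤ Q := one_le_mul_of_one_le_of_one_le h0 hP
  have h1 : Q ^ (-(1 + ε)) ≤ Q⁻¹ := by
    rw [← Real.rpow_neg_one]
    exact Real.rpow_le_rpow_of_exponent_le hQ1 (by linarith)
  have h2 : c ^ (m + 1) ≤ (1 / 2) ^ (m + 1) := pow_le_pow_left₀ hc.le hc1 _
  have h3 : ((m : ℝ) + 1) * (1 / 2) ^ (m + 1) ≤ 1 := by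
    have h4 : ((m : ℝ) + 1) ≤ 2 ^ (m + 1) := by
      have : m + 1 < 2 ^ (m + 1) := Nat.lt_two_pow_self
      exact_mod_cast this.le
    rw [one_div, inv_pow]
    exact mul_inv_le_one_of_le₀ h4 (by positivity)
  calc c ^ (m + 1) * Sb b₀ g * Q ^ (-(1 + ε)) ≤ (1 / 2) ^ (m + 1) * ((m + 1) * Q) * Q⁻¹ := by
        have := Sb_le b₀ g
        have h5 := Sb_pos b₀ g
        gcongr
    _ = ((m : ℝ) + 1) * (1 / 2) ^ (m + 1) * (Q * Q⁻¹) := by ring
    _ = ((m : ℝ) + 1) * (1 / 2) ^ (m + 1) := by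
        rw [mul_inv_cancel₀ (by positivity), mul_one]
    _ ≤ 1 := h3

/-- the bad set of one form -/
def E (R ε c : ℝ) {m : ℕ} (b₀ : Zn) (g : Fin m → Qp × Zn) : Set ℝ :=
  {x | |x| ≤ R ∧ |(b₀.1 : ℝ) * x + Lam g| ≤ del ε c b₀ g}

theorem vol_E {R ε c : ℝ} (hR : 0 ≤ R) (hε : 0 < ε) (hc : 0 < c) (hc1 : c ≤ 1 / 2) {m : ℕ}
    (b₀ : Zn) (g : Fin m → Qp × Zn) : volume (E R ε c b₀ g) ≤
      (if |Lam g| ≤ (R + 1) * |(b₀.1 : ℝ)| then
        ENNReal.ofReal (2 * del ε c b₀ g / |(b₀.1 : ℝ)|) else 0) := by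
  have h0 := one_le_abs b₀
  have hb : (b₀.1 : ℝ) ≠ 0 := by exact_mod_cast b₀.2
  have hd := del_pos (ε := ε) hc b₀ g
  have hd1 := del_le_one hε hc hc1 b₀ g
  split_ifs with h
  · have h1 : E R ε c b₀ g ⊆ Metric.closedBall (-(Lam g) / b₀.1) (del ε c b₀ g / |(b₀.1 : ℝ)|) := by
      rintro x ⟨-, hx⟩
      rw [Metric.mem_closedBall, Real.dist_eq, le_div_iff₀ (by linarith)]
      have e1 : |x - -(Lam g) / b₀.1| * |(b₀.1 : ℝ)| = |(b₀.1 : ℝ) * x + Lam g| := by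
        rw [← abs_mul]
        congr 1
        field_simp
        ring
      rw [e1]
      exact hx
    refine (measure_mono h1).trans ?_
    rw [Real.volume_closedBall]
    apply ENNReal.ofReal_le_ofReal
    rw [mul_div_assoc]
  · have h1 : E R ε c b₀ g = ∅ := by
      rw [Set.eq_empty_iff_forall_notMem]
      rintro x ⟨hx, hx2⟩
      apply h
      have h2 : |Lam g| ≤ |(b₀.1 : ℝ) * x + Lam g| + |(b₀.1 : ℝ) * x| := by
        have := abs_sub ((b₀.1 : ℝ) * x + Lam g) ((b₀.1 : ℝ) * x)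
        have e : (b₀.1 : ℝ) * x + Lam g - (b₀.1 : ℝ) * x = Lam g := by ring
        rw [e] at this
        exact this
      rw [abs_mul] at h2
      have h3 : |(b₀.1 : ℝ)| * |x| ≤ |(b₀.1 : ℝ)| * R := by gcongr
      nlinarith
    rw [h1]
    simp

theorem ofReal_del {ε c : ℝ} (hc : 0 < c) {m : ℕ} (b₀ : Zn) (g : Fin m → Qp × Zn) :
    ENNReal.ofReal (2 * del ε c b₀ g / |(b₀.1 : ℝ)|) =
      ENNReal.ofReal (2 * c ^ (m + 1)) * (ENNReal.ofReal (|(b₀.1 : ℝ)| ^ (-(2 + ε))) *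
        ((ENNReal.ofReal |(b₀.1 : ℝ)| + ∑ i, ENNReal.ofReal |((g i).2.1 : ℝ)|) *
          ∏ i, wt ε (g i))) := by
  have h0 := one_le_abs b₀
  have hP := one_le_Pr g
  have e1 : ∏ i, wt ε (g i) = ENNReal.ofReal (Pr g ^ (-(1 + ε))) := by
    unfold wt Pr
    rw [← ENNReal.ofReal_prod_of_nonneg (fun i _ => by
      have := one_le_term (g i)
      positivity), Real.finsetProd_rpow _ _ (fun i _ => by
      have := one_le_term (g i)
      positivity)]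
  have e2 : ENNReal.ofReal |(b₀.1 : ℝ)| + ∑ i, ENNReal.ofReal |((g i).2.1 : ℝ)| =
      ENNReal.ofReal (Sb b₀ g) := by
    unfold Sb
    rw [ENNReal.ofReal_add (abs_nonneg _) (Finset.sum_nonneg fun i _ => abs_nonneg _),
      ENNReal.ofReal_sum_of_nonneg (fun i _ => abs_nonneg _)]
  have h5 := Sb_pos b₀ g
  rw [e1, e2, ← ENNReal.ofReal_mul h5.le, ← ENNReal.ofReal_mul (by positivity),
    ← ENNReal.ofReal_mul (by positivity)]
  congr 1
  unfold del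
  rw [Real.mul_rpow (by positivity) (by positivity)]
  have e3 : |(b₀.1 : ℝ)| ^ (-(2 + ε)) = |(b₀.1 : ℝ)| ^ (-(1 + ε)) / |(b₀.1 : ℝ)| := by
    rw [div_eq_mul_inv, ← Real.rpow_neg_one, ← Real.rpow_add (by linarith)]
    congr 1
    ring
  rw [e3]
  ring

end Pool.Agent.H99.LG
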