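import Pool.Agent.H99.LG.Nodes0

/-! Kernel checks of the validated integration, part 0. -/

set_option autoImplicit false

namespace Pool.Agent.H99.LG

theorem c0 : (okD n0 && (okR n0 && (okM n0 && okJ n0 n1))) = true := by decide +kernel
theorem c1 : (okD n1 && (okR n1 && (okM n1 && okJ n1 n2))) = true := by decide +kernel
theorem c2 : (okD n2 && (okR n2 && (okM n2 && okJ n2 n3))) = true := by decide +kernel
theorem c3 : (okD n3 && (okR n3 && (okM n3 && okJ n3 n4))) = true := by decide +kernel
theorem c4 : (okD n4 && (okR n4 && (okM n4 && okJ n4 n5))) = true := by decide +kernel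
theorem c5 : (okD n5 && (okR n5 && (okM n5 && okJ n5 n6))) = true := by decide +kernel
theorem c6 : (okD n6 && (okR n6 && (okM n6 && okJ n6 n7))) = true := by decide +kernel
theorem c7 : (okD n7 && (okR n7 && (okM n7 && okJ n7 n8))) = true := by decide +kernel
theorem c8 : (okD n8 && (okR n8 && (okM n8 && okJ n8 n9))) = true := by decide +kernel
theorem c9 : (okD n9 && (okR n9 && (okM n9 && okJ n9 n10))) = true := by decide +kernel
theorem c10 : (okD n10 && (okR n10 && (okM n10 && okJ n10 n11))) = true := by decide +kernel
theorem c11 : (okD n11 && (okR n11 && (okM n11 && okJ n11 n12))) = true := by decide +kernel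
theorem c12 : (okD n12 && (okR n12 && (okM n12 && okJ n12 n13))) = true := by decide +kernel
theorem c13 : (okD n13 && (okR n13 && (okM n13 && okJ n13 n14))) = true := by decide +kernel
theorem c14 : (okD n14 && (okR n14 && (okM n14 && okJ n14 n15))) = true := by decide +kernel
theorem c15 : (okD n15 && (okR n15 && (okM n15 && okJ n15 n16))) = true := by decide +kernel
theorem c16 : (okD n16 && (okR n16 && (okM n16 && okJ n16 n17))) = true := by decide +kernel
theorem c17 : (okD n17 && (okR n17 && (okM n17 && okJ n17 n18))) = true := by decide +kernel
theorem c18 : (okD n18 && (okR n18 && (okM n18 && okJ n18 n19))) = true := by decide +kernel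
theorem c19 : (okD n19 && (okR n19 && (okM n19 && okJ n19 n20))) = true := by decide +kernel
theorem c20 : (okD n20 && (okR n20 && (okM n20 && okJ n20 n21))) = true := by decide +kernel
theorem c21 : (okD n21 && (okR n21 && (okM n21 && okJ n21 n22))) = true := by decide +kernel
theorem c22 : (okD n22 && (okR n22 && (okM n22 && okJ n22 n23))) = true := by decide +kernel
theorem c23 : (okD n23 && (okR n23 && (okM n23 && okJ n23 n24))) = true := by decide +kernel
theorem c24 : (okD n24 && (okR n24 && (okM n24 && okJ n24 n25))) = true := by decide +kernel
theorem c25 : (okD n25 && (okR n25 && (okM n25 && okJ n25 n26))) = true := by decide +kernel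
theorem c26 : (okD n26 && (okR n26 && (okM n26 && okJ n26 n27))) = true := by decide +kernel

end Pool.Agent.H99.LG
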