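import Pool.Agent.H99.LG.Nodes0
import Pool.Agent.H99.LG.Nodes1

/-! Kernel checks of the validated integration, part 1. -/

set_option autoImplicit false

namespace Pool.Agent.H99.LG

theorem c27 : (okD n27 && (okR n27 && (okM n27 && okJ n27 n28))) = true := by decide +kernel
theorem c28 : (okD n28 && (okR n28 && (okM n28 && okJ n28 n29))) = true := by decide +kernel
theorem c29 : (okD n29 && (okR n29 && (okM n29 && okJ n29 n30))) = true := by decide +kernel
theorem c30 : (okD n30 && (okR n30 && (okM n30 && okJ n30 n31))) = true := by decide +kernel
theorem c31 : (okD n31 && (okR n31 && (okM n31 && okJ n31 n32))) = true := by decide +kernel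
theorem c32 : (okD n32 && (okR n32 && (okM n32 && okJ n32 n33))) = true := by decide +kernel
theorem c33 : (okD n33 && (okR n33 && (okM n33 && okJ n33 n34))) = true := by decide +kernel
theorem c34 : (okD n34 && (okR n34 && (okM n34 && okJ n34 n35))) = true := by decide +kernel
theorem c35 : (okD n35 && (okR n35 && (okM n35 && okJ n35 n36))) = true := by decide +kernel
theorem c36 : (okD n36 && (okR n36 && (okM n36 && okJ n36 n37))) = true := by decide +kernel
theorem c37 : (okD n37 && (okR n37 && (okM n37 && okJ n37 n38))) = true := by decide +kernel
theorem c38 : (okD n38 && (okR n38 && (okM n38 && okJ n38 n39))) = true := by decide +kernel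
theorem c39 : (okD n39 && (okR n39 && (okM n39 && okJ n39 n40))) = true := by decide +kernel
theorem c40 : (okD n40 && (okR n40 && (okM n40 && okJ n40 n41))) = true := by decide +kernel
theorem c41 : (okD n41 && (okR n41 && (okM n41 && okJ n41 n42))) = true := by decide +kernel
theorem c42 : (okD n42 && (okR n42 && (okM n42 && okJ n42 n43))) = true := by decide +kernel
theorem c43 : (okD n43 && (okR n43 && (okM n43 && okJ n43 n44))) = true := by decide +kernel
theorem c44 : (okD n44 && (okR n44 && (okM n44 && okJ n44 n45))) = true := by decide +kernel
theorem c45 : (okD n45 && (okR n45 && (okM n45 && okJ n45 n46))) = true := by decide +kernel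
theorem c46 : (okD n46 && (okR n46 && (okM n46 && okJ n46 n47))) = true := by decide +kernel
theorem c47 : (okD n47 && (okR n47 && (okM n47 && okJ n47 n48))) = true := by decide +kernel
theorem c48 : (okD n48 && (okR n48 && (okM n48 && okJ n48 n49))) = true := by decide +kernel
theorem c49 : (okD n49 && (okR n49 && (okM n49 && okJ n49 n50))) = true := by decide +kernel
theorem c50 : (okD n50 && (okR n50 && (okM n50 && okJ n50 n51))) = true := by decide +kernel
theorem c51 : (okD n51 && (okR n51 && (okM n51 && okJ n51 n52))) = true := by decide +kernel
theorem c52 : (okD n52 && (okR n52 && (okM n52 && okJ n52 n53))) = true := by decide +kernel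
theorem c53 : (okD n53 && (okR n53 && (okM n53 && okJ n53 n54))) = true := by decide +kernel

end Pool.Agent.H99.LG
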