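import Pool.Agent.H99.LG.Nodes1

/-! Kernel checks of the validated integration, part 2. -/

set_option autoImplicit false

namespace Pool.Agent.H99.LG

theorem c54 : (okD n54 && (okR n54 && (okM n54 && okJ n54 n55))) = true := by decide +kernel
theorem c55 : (okD n55 && (okR n55 && (okM n55 && okJ n55 n56))) = true := by decide +kernel
theorem c56 : (okD n56 && (okR n56 && (okM n56 && okJ n56 n57))) = true := by decide +kernel
theorem c57 : (okD n57 && (okR n57 && (okM n57 && okJ n57 n58))) = true := by decide +kernel
theorem c58 : (okD n58 && (okR n58 && (okM n58 && okJ n58 n59))) = true := by decide +kernel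
theorem c59 : (okD n59 && (okR n59 && (okM n59 && okJ n59 n60))) = true := by decide +kernel
theorem c60 : (okD n60 && (okR n60 && (okM n60 && okJ n60 n61))) = true := by decide +kernel
theorem c61 : (okD n61 && (okR n61 && (okM n61 && okJ n61 n62))) = true := by decide +kernel
theorem c62 : (okD n62 && (okR n62 && (okM n62 && okJ n62 n63))) = true := by decide +kernel
theorem c63 : (okD n63 && (okR n63 && (okM n63 && okJ n63 n64))) = true := by decide +kernel
theorem c64 : (okD n64 && (okR n64 && (okM n64 && okJ n64 n65))) = true := by decide +kernel
theorem c65 : (okD n65 && (okR n65 && (okM n65 && okJ n65 n66))) = true := by decide +kernel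
theorem c66 : (okD n66 && (okR n66 && (okM n66 && okJ n66 n67))) = true := by decide +kernel
theorem c67 : (okD n67 && (okR n67 && (okM n67 && okJ n67 n68))) = true := by decide +kernel
theorem c68 : (okD n68 && (okR n68 && (okM n68 && okJ n68 n69))) = true := by decide +kernel
theorem c69 : (okD n69 && (okR n69 && (okM n69 && okJ n69 n70))) = true := by decide +kernel
theorem c70 : (okD n70 && (okR n70 && (okM n70 && okJ n70 n71))) = true := by decide +kernel
theorem c71 : (okD n71 && (okR n71 && (okM n71 && okJ n71 n72))) = true := by decide +kernel
theorem c72 : (okD n72 && (okR n72 && (okM n72 && okJ n72 n73))) = true := by decide +kernel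
theorem c73 : (okD n73 && (okR n73 && (okM n73 && okJ n73 n74))) = true := by decide +kernel
theorem c74 : (okD n74 && (okR n74 && (okM n74 && okJ n74 n75))) = true := by decide +kernel
theorem c75 : (okD n75 && (okR n75 && (okM n75 && okJ n75 n76))) = true := by decide +kernel
theorem c76 : (okD n76 && (okR n76 && (okM n76 && okJ n76 n77))) = true := by decide +kernel
theorem c77 : (okD n77 && (okR n77 && (okM n77 && okJ n77 n78))) = true := by decide +kernel
theorem c78 : (okD n78 && (okR n78 && (okM n78 && okJ n78 n79))) = true := by decide +kernel
theorem c79 : (okD n79 && (okR n79 && (okM n79 && okJ n79 n80))) = true := by decide +kernel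
theorem c80 : (okD n80 && (okR n80 && (okM n80 && okJ n80 n81))) = true := by decide +kernel

end Pool.Agent.H99.LG
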