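import Pool.Agent.H99.LG.Nodes1
import Pool.Agent.H99.LG.Nodes2

/-! Kernel checks of the validated integration, part 3. -/

set_option autoImplicit false

namespace Pool.Agent.H99.LG

theorem c81 : (okD n81 && (okR n81 && (okM n81 && okJ n81 n82))) = true := by decide +kernel
theorem c82 : (okD n82 && (okR n82 && (okM n82 && okJ n82 n83))) = true := by decide +kernel
theorem c83 : (okD n83 && (okR n83 && (okM n83 && okJ n83 n84))) = true := by decide +kernel
theorem c84 : (okD n84 && (okR n84 && (okM n84 && okJ n84 n85))) = true := by decide +kernel
theorem c85 : (okD n85 && (okR n85 && (okM n85 && okJ n85 n86))) = true := by decide +kernel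
theorem c86 : (okD n86 && (okR n86 && (okM n86 && okJ n86 n87))) = true := by decide +kernel
theorem c87 : (okD n87 && (okR n87 && (okM n87 && okJ n87 n88))) = true := by decide +kernel
theorem c88 : (okD n88 && (okR n88 && (okM n88 && okJ n88 n89))) = true := by decide +kernel
theorem c89 : (okD n89 && (okR n89 && (okM n89 && okJ n89 n90))) = true := by decide +kernel
theorem c90 : (okD n90 && (okR n90 && (okM n90 && okJ n90 n91))) = true := by decide +kernel
theorem c91 : (okD n91 && (okR n91 && (okM n91 && okJ n91 n92))) = true := by decide +kernel
theorem c92 : (okD n92 && (okR n92 && (okM n92 && okJ n92 n93))) = true := by decide +kernel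
theorem c93 : (okD n93 && (okR n93 && (okM n93 && okJ n93 n94))) = true := by decide +kernel
theorem c94 : (okD n94 && (okR n94 && (okM n94 && okJ n94 n95))) = true := by decide +kernel
theorem c95 : (okD n95 && (okR n95 && (okM n95 && okJ n95 n96))) = true := by decide +kernel
theorem c96 : (okD n96 && (okR n96 && (okM n96 && okJ n96 n97))) = true := by decide +kernel
theorem c97 : (okD n97 && (okR n97 && (okM n97 && okJ n97 n98))) = true := by decide +kernel
theorem c98 : (okD n98 && (okR n98 && (okM n98 && okJ n98 n99))) = true := by decide +kernel
theorem c99 : (okD n99 && (okR n99 && (okM n99 && okJ n99 n100))) = true := by decide +kernel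
theorem c100 : (okD n100 && (okR n100 && (okM n100 && okJ n100 n101))) = true := by decide +kernel
theorem c101 : (okD n101 && (okR n101 && (okM n101 && okJ n101 n102))) = true := by decide +kernel
theorem c102 : (okD n102 && (okR n102 && (okM n102 && okJ n102 n103))) = true := by decide +kernel
theorem c103 : (okD n103 && (okR n103 && (okM n103 && okJ n103 n104))) = true := by decide +kernel
theorem c104 : (okD n104 && (okR n104 && (okM n104 && okJ n104 n105))) = true := by decide +kernel
theorem c105 : (okD n105 && (okR n105 && (okM n105 && okJ n105 n106))) = true := by decide +kernel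
theorem c106 : (okD n106 && (okR n106 && (okM n106 && okJ n106 n107))) = true := by decide +kernel
theorem c107 : (okD n107 && (okR n107 && (okM n107 && okJ n107 n108))) = true := by decide +kernel

end Pool.Agent.H99.LG
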