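import Pool.Agent.H99.LG.Nodes2

/-! Kernel checks of the validated integration, part 4. -/

set_option autoImplicit false

namespace Pool.Agent.H99.LG

theorem c108 : (okD n108 && (okR n108 && (okM n108 && okJ n108 n109))) = true := by decide +kernel
theorem c109 : (okD n109 && (okR n109 && (okM n109 && okJ n109 n110))) = true := by decide +kernel
theorem c110 : (okD n110 && (okR n110 && (okM n110 && okJ n110 n111))) = true := by decide +kernel
theorem c111 : (okD n111 && (okR n111 && (okM n111 && okJ n111 n112))) = true := by decide +kernel
theorem c112 : (okD n112 && (okR n112 && (okM n112 && okJ n112 n113))) = true := by decide +kernel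
theorem c113 : (okD n113 && (okR n113 && (okM n113 && okJ n113 n114))) = true := by decide +kernel
theorem c114 : (okD n114 && (okR n114 && (okM n114 && okJ n114 n115))) = true := by decide +kernel
theorem c115 : (okD n115 && (okR n115 && (okM n115 && okJ n115 n116))) = true := by decide +kernel
theorem c116 : (okD n116 && (okR n116 && (okM n116 && okJ n116 n117))) = true := by decide +kernel
theorem c117 : (okD n117 && (okR n117 && (okM n117 && okJ n117 n118))) = true := by decide +kernel
theorem c118 : (okD n118 && (okR n118 && (okM n118 && okJ n118 n119))) = true := by decide +kernel
theorem c119 : (okD n119 && (okR n119 && (okM n119 && okJ n119 n120))) = true := by decide +kernel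
theorem c120 : (okD n120 && (okR n120 && (okM n120 && okJ n120 n121))) = true := by decide +kernel
theorem c121 : (okD n121 && (okR n121 && (okM n121 && okJ n121 n122))) = true := by decide +kernel
theorem c122 : (okD n122 && (okR n122 && (okM n122 && okJ n122 n123))) = true := by decide +kernel
theorem c123 : (okD n123 && (okR n123 && (okM n123 && okJ n123 n124))) = true := by decide +kernel
theorem c124 : (okD n124 && (okR n124 && (okM n124 && okJ n124 n125))) = true := by decide +kernel
theorem c125 : (okD n125 && (okR n125 && (okM n125 && okJ n125 n126))) = true := by decide +kernel
theorem c126 : (okD n126 && (okR n126 && (okM n126 && okJ n126 n127))) = true := by decide +kernel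
theorem c127 : (okD n127 && (okR n127 && (okM n127 && okJ n127 n128))) = true := by decide +kernel
theorem c128 : (okD n128 && (okR n128 && (okM n128 && okJ n128 n129))) = true := by decide +kernel
theorem c129 : (okD n129 && (okR n129 && (okM n129 && okJ n129 n130))) = true := by decide +kernel
theorem c130 : (okD n130 && (okR n130 && (okM n130 && okJ n130 n131))) = true := by decide +kernel
theorem c131 : (okD n131 && (okR n131 && (okM n131 && okJ n131 n132))) = true := by decide +kernel
theorem c132 : (okD n132 && (okR n132 && (okM n132 && okJ n132 n133))) = true := by decide +kernel
theorem c133 : (okD n133 && (okR n133 && (okM n133 && okJ n133 n134))) = true := by decide +kernel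
theorem c134 : (okD n134 && (okR n134 && (okM n134 && okJ n134 n135))) = true := by decide +kernel

end Pool.Agent.H99.LG
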