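import Pool.Agent.H99.LG.Nodes2
import Pool.Agent.H99.LG.Nodes3

/-! Kernel checks of the validated integration, part 5. -/

set_option autoImplicit false

namespace Pool.Agent.H99.LG

theorem c135 : (okD n135 && (okR n135 && (okM n135 && okJ n135 n136))) = true := by decide +kernel
theorem c136 : (okD n136 && (okR n136 && (okM n136 && okJ n136 n137))) = true := by decide +kernel
theorem c137 : (okD n137 && (okR n137 && (okM n137 && okJ n137 n138))) = true := by decide +kernel
theorem c138 : (okD n138 && (okR n138 && (okM n138 && okJ n138 n139))) = true := by decide +kernel
theorem c139 : (okD n139 && (okR n139 && (okM n139 && okJ n139 n140))) = true := by decide +kernel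
theorem c140 : (okD n140 && (okR n140 && (okM n140 && okJ n140 n141))) = true := by decide +kernel
theorem c141 : (okD n141 && (okR n141 && (okM n141 && okJ n141 n142))) = true := by decide +kernel
theorem c142 : (okD n142 && (okR n142 && (okM n142 && okJ n142 n143))) = true := by decide +kernel
theorem c143 : (okD n143 && (okR n143 && (okM n143 && okJ n143 n144))) = true := by decide +kernel
theorem c144 : (okD n144 && (okR n144 && (okM n144 && okJ n144 n145))) = true := by decide +kernel
theorem c145 : (okD n145 && (okR n145 && (okM n145 && okJ n145 n146))) = true := by decide +kernel
theorem c146 : (okD n146 && (okR n146 && (okM n146 && okJ n146 n147))) = true := by decide +kernel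
theorem c147 : (okD n147 && (okR n147 && (okM n147 && okJ n147 n148))) = true := by decide +kernel
theorem c148 : (okD n148 && (okR n148 && (okM n148 && okJ n148 n149))) = true := by decide +kernel
theorem c149 : (okD n149 && (okR n149 && (okM n149 && okJ n149 n150))) = true := by decide +kernel
theorem c150 : (okD n150 && (okR n150 && (okM n150 && okJ n150 n151))) = true := by decide +kernel
theorem c151 : (okD n151 && (okR n151 && (okM n151 && okJ n151 n152))) = true := by decide +kernel
theorem c152 : (okD n152 && (okR n152 && (okM n152 && okJ n152 n153))) = true := by decide +kernel
theorem c153 : (okD n153 && (okR n153 && (okM n153 && okJ n153 n154))) = true := by decide +kernel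
theorem c154 : (okD n154 && (okR n154 && (okM n154 && okJ n154 n155))) = true := by decide +kernel
theorem c155 : (okD n155 && (okR n155 && (okM n155 && okJ n155 n156))) = true := by decide +kernel
theorem c156 : (okD n156 && (okR n156 && (okM n156 && okJ n156 n157))) = true := by decide +kernel
theorem c157 : (okD n157 && (okR n157 && (okM n157 && okJ n157 n158))) = true := by decide +kernel
theorem c158 : (okD n158 && (okR n158 && (okM n158 && okJ n158 n159))) = true := by decide +kernel
theorem c159 : (okD n159 && (okR n159 && (okM n159 && okJ n159 n160))) = true := by decide +kernel
theorem c160 : (okD n160 && (okR n160 && (okM n160 && okJ n160 n161))) = true := by decide +kernel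
theorem c161 : (okD n161 && (okR n161 && (okM n161 && okJ n161 n162))) = true := by decide +kernel

end Pool.Agent.H99.LG
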