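import Pool.Agent.H99.LG.Nodes3

/-! Kernel checks of the validated integration, part 6. -/

set_option autoImplicit false

namespace Pool.Agent.H99.LG

theorem c162 : (okD n162 && (okR n162 && (okM n162 && okJ n162 n163))) = true := by decide +kernel
theorem c163 : (okD n163 && (okR n163 && (okM n163 && okJ n163 n164))) = true := by decide +kernel
theorem c164 : (okD n164 && (okR n164 && (okM n164 && okJ n164 n165))) = true := by decide +kernel
theorem c165 : (okD n165 && (okR n165 && (okM n165 && okJ n165 n166))) = true := by decide +kernel
theorem c166 : (okD n166 && (okR n166 && (okM n166 && okJ n166 n167))) = true := by decide +kernel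
theorem c167 : (okD n167 && (okR n167 && (okM n167 && okJ n167 n168))) = true := by decide +kernel
theorem c168 : (okD n168 && (okR n168 && (okM n168 && okJ n168 n169))) = true := by decide +kernel
theorem c169 : (okD n169 && (okR n169 && (okM n169 && okJ n169 n170))) = true := by decide +kernel
theorem c170 : (okD n170 && (okR n170 && (okM n170 && okJ n170 n171))) = true := by decide +kernel
theorem c171 : (okD n171 && (okR n171 && (okM n171 && okJ n171 n172))) = true := by decide +kernel
theorem c172 : (okD n172 && (okR n172 && (okM n172 && okJ n172 n173))) = true := by decide +kernel
theorem c173 : (okD n173 && (okR n173 && (okM n173 && okJ n173 n174))) = true := by decide +kernel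
theorem c174 : (okD n174 && (okR n174 && (okM n174 && okJ n174 n175))) = true := by decide +kernel
theorem c175 : (okD n175 && (okR n175 && (okM n175 && okJ n175 n176))) = true := by decide +kernel
theorem c176 : (okD n176 && (okR n176 && (okM n176 && okJ n176 n177))) = true := by decide +kernel
theorem c177 : (okD n177 && (okR n177 && (okM n177 && okJ n177 n178))) = true := by decide +kernel
theorem c178 : (okD n178 && (okR n178 && (okM n178 && okJ n178 n179))) = true := by decide +kernel
theorem c179 : (okD n179 && (okR n179 && (okM n179 && okJ n179 n180))) = true := by decide +kernel
theorem c180 : (okD n180 && (okR n180 && (okM n180 && okJ n180 n181))) = true := by decide +kernel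
theorem c181 : (okD n181 && (okR n181 && (okM n181 && okJ n181 n182))) = true := by decide +kernel
theorem c182 : (okD n182 && (okR n182 && (okM n182 && okJ n182 n183))) = true := by decide +kernel
theorem c183 : (okD n183 && (okR n183 && (okM n183 && okJ n183 n184))) = true := by decide +kernel
theorem c184 : (okD n184 && (okR n184 && (okM n184 && okJ n184 n185))) = true := by decide +kernel
theorem c185 : (okD n185 && (okR n185 && (okM n185 && okJ n185 n186))) = true := by decide +kernel
theorem c186 : (okD n186 && (okR n186 && (okM n186 && okJ n186 n187))) = true := by decide +kernel
theorem c187 : (okD n187 && (okR n187 && (okM n187 && okJ n187 n188))) = true := by decide +kernel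
theorem c188 : (okD n188 && (okR n188 && (okM n188 && okJ n188 n189))) = true := by decide +kernel

end Pool.Agent.H99.LG
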