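import Pool.Agent.H99.LG.Nodes3

/-! Kernel checks of the validated integration, part 7. -/

set_option autoImplicit false

namespace Pool.Agent.H99.LG

theorem c189 : (okD n189 && (okR n189 && (okM n189 && okJ n189 n190))) = true := by decide +kernel
theorem c190 : (okD n190 && (okR n190 && (okM n190 && okJ n190 n191))) = true := by decide +kernel
theorem c191 : (okD n191 && (okR n191 && (okM n191 && okJ n191 n192))) = true := by decide +kernel
theorem c192 : (okD n192 && (okR n192 && (okM n192 && okJ n192 n193))) = true := by decide +kernel
theorem c193 : (okD n193 && (okR n193 && (okM n193 && okJ n193 n194))) = true := by decide +kernel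
theorem c194 : (okD n194 && (okR n194 && (okM n194 && okJ n194 n195))) = true := by decide +kernel
theorem c195 : (okD n195 && (okR n195 && (okM n195 && okJ n195 n196))) = true := by decide +kernel
theorem c196 : (okD n196 && (okR n196 && (okM n196 && okJ n196 n197))) = true := by decide +kernel
theorem c197 : (okD n197 && (okR n197 && (okM n197 && okJ n197 n198))) = true := by decide +kernel
theorem c198 : (okD n198 && (okR n198 && (okM n198 && okJ n198 n199))) = true := by decide +kernel
theorem c199 : (okD n199 && (okR n199 && (okM n199 && okJ n199 n200))) = true := by decide +kernel
theorem c200 : (okD n200 && (okR n200 && (okM n200 && okJ n200 n201))) = true := by decide +kernel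
theorem c201 : (okD n201 && (okR n201 && (okM n201 && okJ n201 n202))) = true := by decide +kernel
theorem c202 : (okD n202 && (okR n202 && (okM n202 && okJ n202 n203))) = true := by decide +kernel
theorem c203 : (okD n203 && (okR n203 && (okM n203 && okJ n203 n204))) = true := by decide +kernel
theorem c204 : (okD n204 && (okR n204 && (okM n204 && okJ n204 n205))) = true := by decide +kernel
theorem c205 : (okD n205 && (okR n205 && (okM n205 && okJ n205 n206))) = true := by decide +kernel
theorem c206 : (okD n206 && (okR n206 && (okM n206 && okJ n206 n207))) = true := by decide +kernel
theorem c207 : (okD n207 && (okR n207 && (okM n207 && okJ n207 n208))) = true := by decide +kernel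
theorem c208 : (okD n208 && (okR n208 && (okM n208 && okJ n208 n209))) = true := by decide +kernel
theorem c209 : (okD n209 && (okR n209 && (okM n209 && okJ n209 n210))) = true := by decide +kernel
theorem c210 : (okD n210 && (okR n210 && (okM n210 && okJ n210 n211))) = true := by decide +kernel

end Pool.Agent.H99.LG
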