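import Pool.Agent.H99.LG.Fld3

/-! Checks of one step of the validated integration of the three-body problem with equal masses. -/

set_option autoImplicit false

namespace Pool.Agent.H99.LG

open Pool.Agent.H99.TB Pool.Agent.H99.TB.Poly

/-- data of one step: step size `1/2^hb`, scale `2^sb`, Kronecker base `2^xb`, defect `2^-eb`, rate `kk/100`,
radius of the tube `1/rr`, lower bounds `r/10^4` for the distances, error bound `nn/2^130` -/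
structure TD3 where
  ux : List ℤ
  ug : List ℤ
  wx : List ℤ
  wg : List ℤ
  bu : List ℤ
  bw : List ℤ
  bs : List ℤ
  hb : ℕ
  sb : ℕ
  xb : ℕ
  eb : ℕ
  kk : ℕ
  rr : ℕ
  r1 : ℕ
  r2 : ℕ
  r3 : ℕ
  nn : ℕ
  inc : ℕ

/-- derivative with respect to time, step `1/2^hb` -/
def ddh (hb : ℕ) (l : List ℤ) : List ℤ := smul (2 ^ hb) (der l)

def TD3.dat (d : TD3) : Dat where
  ux := d.ux
  ug := d.ug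
  wx := d.wx
  wg := d.wg
  bu := d.bu
  bw := d.bw
  bs := d.bs

def okD (d : TD3) : Bool :=
  okDat3 false (d.eb + 3) (d.eb + 14) 1 1 (2 ^ d.sb) (2 ^ d.xb) d.dat (ddh d.hb (ddh d.hb d.ux))
    (ddh d.hb (ddh d.hb d.ug)) (ddh d.hb (ddh d.hb d.wx)) (ddh d.hb (ddh d.hb d.wg))

def okR (d : TD3) : Bool :=
  decide (pos d.bu ≤ 16 * 2 ^ d.sb) && decide (pos d.bw ≤ 16 * 2 ^ d.sb) && decide (pos d.bs ≤ 16 * 2 ^ d.sb) &&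
  decide (pos d.bu * (d.r1 * d.rr + 10 ^ 4) * (2 ^ 30 + 1) ≤ 2 ^ d.sb * 10 ^ 4 * d.rr * 2 ^ 30) &&
  decide (pos d.bw * (d.r2 * d.rr + 10 ^ 4) * (2 ^ 30 + 1) ≤ 2 ^ d.sb * 10 ^ 4 * d.rr * 2 ^ 30) &&
  decide (pos d.bs * (d.r3 * d.rr + 2 * 10 ^ 4) * (2 ^ 30 + 1) ≤ 2 ^ d.sb * 10 ^ 4 * d.rr * 2 ^ 30) &&
  decide (10 ^ 16 * (4 * d.r2 ^ 3 * d.r3 ^ 3 + 2 * d.r1 ^ 3 * d.r3 ^ 3 + 4 * d.r1 ^ 3 * d.r2 ^ 3) * (2 ^ 30 + 1) ≤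
    3 * d.kk ^ 2 * 2 ^ 30 * d.r1 ^ 3 * d.r2 ^ 3 * d.r3 ^ 3) &&
  decide (10 ^ 16 * (4 * d.r1 ^ 3 * d.r3 ^ 3 + 2 * d.r2 ^ 3 * d.r3 ^ 3 + 4 * d.r1 ^ 3 * d.r2 ^ 3) * (2 ^ 30 + 1) ≤
    3 * d.kk ^ 2 * 2 ^ 30 * d.r1 ^ 3 * d.r2 ^ 3 * d.r3 ^ 3) &&
  decide (nrm (ddh d.hb d.ux) + nrm (ddh d.hb d.ug) ≤ 30 * 2 ^ d.sb) &&
  decide (nrm (ddh d.hb d.wx) + nrm (ddh d.hb d.wg) ≤ 30 * 2 ^ d.sb)

def okM (d : TD3) : Bool :=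
  decide (500 ≤ d.r1) && decide (500 ≤ d.r2) && decide (500 ≤ d.r3) && decide (0 < d.rr) && decide (0 < d.kk) &&
  decide (d.kk ≤ 100 * d.rr) && decide (17 ≤ d.eb) && decide (d.eb ≤ 110) && decide (d.hb ≤ 20) &&
  decide (d.kk ≤ 12800 * 2 ^ d.hb)

def jmp (sb sb' : ℕ) (l l' : List ℤ) : ℕ := (evI l 1 * 2 ^ sb' - evI l' 0 * 2 ^ sb).natAbs

/-- transition to the next step -/
def okJ (d e : TD3) : Bool :=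
  decide ((d.nn + d.inc) * (25600 * 2 ^ d.hb) ^ 256 * max d.kk e.kk ≤
    e.nn * (25600 * 2 ^ d.hb - d.kk) ^ 256 * d.kk) &&
  decide (e.nn * 100 * d.rr ≤ 2 ^ 130 * d.kk) &&
  decide (2 ^ 131 ≤ d.inc * 2 ^ (d.eb + d.hb)) &&
  decide (jmp d.sb e.sb d.ux e.ux * 2 * e.kk * 2 ^ 131 ≤ d.inc * 100 * 2 ^ (d.sb + e.sb)) &&
  decide (jmp d.sb e.sb d.ug e.ug * 2 * e.kk * 2 ^ 131 ≤ d.inc * 100 * 2 ^ (d.sb + e.sb)) &&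
  decide (jmp d.sb e.sb d.wx e.wx * 2 * e.kk * 2 ^ 131 ≤ d.inc * 100 * 2 ^ (d.sb + e.sb)) &&
  decide (jmp d.sb e.sb d.wg e.wg * 2 * e.kk * 2 ^ 131 ≤ d.inc * 100 * 2 ^ (d.sb + e.sb)) &&
  decide (jmp d.sb e.sb (ddh d.hb d.ux) (ddh e.hb e.ux) * 2 * 2 ^ 131 ≤ d.inc * 2 ^ (d.sb + e.sb)) &&
  decide (jmp d.sb e.sb (ddh d.hb d.ug) (ddh e.hb e.ug) * 2 * 2 ^ 131 ≤ d.inc * 2 ^ (d.sb + e.sb)) &&
  decide (jmp d.sb e.sb (ddh d.hb d.wx) (ddh e.hb e.wx) * 2 * 2 ^ 131 ≤ d.inc * 2 ^ (d.sb + e.sb)) &&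
  decide (jmp d.sb e.sb (ddh d.hb d.wg) (ddh e.hb e.wg) * 2 * 2 ^ 131 ≤ d.inc * 2 ^ (d.sb + e.sb))

end Pool.Agent.H99.LG
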