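import Pool.Agent.H99.LG.Sum

/-!
Lang's inequality with one generic number: measure of the bad sets.
-/

set_option autoImplicit false

open scoped ENNReal
open MeasureTheory

namespace Pool.Agent.H99.LG

/-- the weight of a term -/
noncomputable def wt (ε : ℝ) (z : Qp × Zn) : ℝ≥0∞ :=
  ENNReal.ofReal ((|(z.2.1 : ℝ)| * H z.1.1 ^ 2) ^ (-(1 + ε)))

theorem wt_eq (ε : ℝ) (z : Qp × Zn) : wt ε z =
    ENNReal.ofReal (|(z.2.1 : ℝ)| ^ (-(1 + ε))) * ENNReal.ofReal (H z.1.1 ^ (-(2 + 2 * ε))) := by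
  unfold wt
  have h1 := one_le_abs z.2
  have h2 := one_le_H z.1.1
  rw [← ENNReal.ofReal_mul (by positivity), Real.mul_rpow (by positivity) (by positivity)]
  congr 2
  rw [← Real.rpow_natCast (H z.1.1) 2, ← Real.rpow_mul (by linarith)]
  congr 1
  push_cast
  ring

theorem sumZ (ε : ℝ) (hε : 0 < ε) :
    (∑' b : Zn, ENNReal.ofReal (|(b.1 : ℝ)| ^ (-(1 + ε)))) ≠ ∞ := by
  have h1 : Summable fun n : ℤ => |(n : ℝ)| ^ (-(1 + ε)) :=
    Real.summable_abs_int_rpow (by linarith)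
  exact (h1.comp_injective (Subtype.val_injective (p := fun b : ℤ => b ≠ 0))).tsum_ofReal_ne_top

theorem sumH (ε : ℝ) (hε : 0 < ε) :
    (∑' a : Qp, ENNReal.ofReal (H a.1 ^ (-(2 + 2 * ε)))) ≠ ∞ := by
  refine ne_top_of_le_ne_top (sumQ ε hε) (ENNReal.tsum_le_tsum fun a => ?_)
  apply ENNReal.ofReal_le_ofReal
  have h2 := one_le_H a.1
  have h3 : 0 < H a.1 ^ (-(2 + 2 * ε)) := by positivity
  have h4 : (0 : ℝ) ≤ 2 / |Real.log (a.1 : ℝ)| := by positivity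
  nlinarith

theorem W_fin (ε : ℝ) (hε : 0 < ε) : (∑' z, wt ε z) ≠ ∞ := by
  simp only [wt_eq]
  rw [ENNReal.tsum_prod (f := fun (a : Qp) (b : Zn) =>
    ENNReal.ofReal (|(b.1 : ℝ)| ^ (-(1 + ε))) * ENNReal.ofReal (H a.1 ^ (-(2 + 2 * ε))))]
  simp only [ENNReal.tsum_mul_left, ENNReal.tsum_mul_right]
  exact ENNReal.mul_ne_top (sumZ ε hε) (sumH ε hε)

theorem Vb (ε : ℝ) (hε : 0 < ε) : ∃ K : ℝ≥0∞, K ≠ ∞ ∧ ∀ y M : ℝ, 1 ≤ M →
    (∑' z : Qp × Zn, (if |(z.2.1 : ℝ) * Real.log (z.1.1 : ℝ) + y| ≤ M then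
      ENNReal.ofReal |(z.2.1 : ℝ)| * wt ε z else 0)) ≤ ENNReal.ofReal M * K := by
  classical
  refine ⟨_, sumQ ε hε, fun y M hM => ?_⟩
  rw [ENNReal.tsum_prod (f := fun (a : Qp) (b : Zn) =>
    (if |(b.1 : ℝ) * Real.log (a.1 : ℝ) + y| ≤ M then
      ENNReal.ofReal |(b.1 : ℝ)| * wt ε (a, b) else 0)), ← ENNReal.tsum_mul_left]
  refine ENNReal.tsum_le_tsum fun a => ?_
  have hlog : Real.log (a.1 : ℝ) ≠ 0 := by
    have h1 := (log_ge a.1 a.2.1 a.2.2)
    have h2 := one_le_H a.1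
    have h3 : (0 : ℝ) < |Real.log (a.1 : ℝ)| := by
      refine lt_of_lt_of_le ?_ h1.1
      have h4 : (1 : ℝ) ≤ ((max a.1.num.natAbs a.1.den - min a.1.num.natAbs a.1.den : ℕ) : ℝ) := by
        exact_mod_cast h1.2
      positivity
    exact abs_pos.1 h3
  have hH := one_le_H a.1
  calc ∑' b : Zn, (if |(b.1 : ℝ) * Real.log (a.1 : ℝ) + y| ≤ M then
        ENNReal.ofReal |(b.1 : ℝ)| * wt ε (a, b) else 0)
      ≤ ∑' b : Zn, ENNReal.ofReal (H a.1 ^ (-(2 + 2 * ε))) *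
        (if |(b.1 : ℝ) * Real.log (a.1 : ℝ) + y| ≤ M then (1 : ℝ≥0∞) else 0) := by
        refine ENNReal.tsum_le_tsum fun b => ?_
        split_ifs with hb
        · rw [mul_one, wt_eq, ← mul_assoc]
          have h1 := one_le_abs b
          have h2 : ENNReal.ofReal |(b.1 : ℝ)| * ENNReal.ofReal (|(b.1 : ℝ)| ^ (-(1 + ε))) ≤ 1 := by
            rw [← ENNReal.ofReal_mul (by positivity), ← ENNReal.ofReal_one]
            apply ENNReal.ofReal_le_ofReal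
            have h3 : |(b.1 : ℝ)| * |(b.1 : ℝ)| ^ (-(1 + ε)) = |(b.1 : ℝ)| ^ (-ε) := by
              nth_rewrite 1 [← Real.rpow_one |(b.1 : ℝ)|]
              rw [← Real.rpow_add (by linarith)]
              congr 1
              ring
            rw [h3]
            exact Real.rpow_le_one_of_one_le_of_nonpos h1 (by linarith)
          calc _ ≤ 1 * ENNReal.ofReal (H a.1 ^ (-(2 + 2 * ε))) := by gcongr
            _ = _ := one_mul _
        · simp
    _ = ENNReal.ofReal (H a.1 ^ (-(2 + 2 * ε))) *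
        ∑' b : Zn, (if |(b.1 : ℝ) * Real.log (a.1 : ℝ) + y| ≤ M then (1 : ℝ≥0∞) else 0) := by
        rw [ENNReal.tsum_mul_left]
    _ ≤ ENNReal.ofReal (H a.1 ^ (-(2 + 2 * ε))) *
        ENNReal.ofReal (1 + 2 * M / |Real.log (a.1 : ℝ)|) := by
        gcongr
        exact count_int _ y M hlog (by linarith)
    _ ≤ ENNReal.ofReal M * ENNReal.ofReal (H a.1 ^ (-(2 + 2 * ε)) *
        (1 + 2 / |Real.log (a.1 : ℝ)|)) := by
        rw [← ENNReal.ofReal_mul (by positivity), ← ENNReal.ofReal_mul (by linarith)]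
        apply ENNReal.ofReal_le_ofReal
        have h3 : 0 < H a.1 ^ (-(2 + 2 * ε)) := by positivity
        have h4 : (1 : ℝ) + 2 * M / |Real.log (a.1 : ℝ)| ≤ M * (1 + 2 / |Real.log (a.1 : ℝ)|) := by
          have : M * (1 + 2 / |Real.log (a.1 : ℝ)|) = M + 2 * M / |Real.log (a.1 : ℝ)| := by ring
          rw [this]
          linarith
        calc _ ≤ H a.1 ^ (-(2 + 2 * ε)) * (M * (1 + 2 / |Real.log (a.1 : ℝ)|)) := by gcongr
          _ = _ := by ring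

/-- the linear form of a tuple -/
noncomputable def Lam {m : ℕ} (g : Fin m → Qp × Zn) : ℝ :=
  ∑ i, ((g i).2.1 : ℝ) * Real.log ((g i).1.1 : ℝ)

theorem T2 {ε : ℝ} {K : ℝ≥0∞} (hK : ∀ y M : ℝ, 1 ≤ M →
    (∑' z : Qp × Zn, (if |(z.2.1 : ℝ) * Real.log (z.1.1 : ℝ) + y| ≤ M then
      ENNReal.ofReal |(z.2.1 : ℝ)| * wt ε z else 0)) ≤ ENNReal.ofReal M * K)
    (m : ℕ) (j : Fin (m + 1)) (M : ℝ) (hM : 1 ≤ M) :
    (∑' g : Fin (m + 1) → Qp × Zn, (if |Lam g| ≤ M then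
      ENNReal.ofReal |((g j).2.1 : ℝ)| * ∏ i, wt ε (g i) else 0)) ≤
    ENNReal.ofReal M * K * (∑' z, wt ε z) ^ m := by
  classical
  rw [← (Fin.insertNthEquiv (fun _ => Qp × Zn) j).tsum_eq]
  have h1 : ∀ c : (Qp × Zn) × (Fin m → Qp × Zn),
      (if |Lam ((Fin.insertNthEquiv (fun _ => Qp × Zn) j) c)| ≤ M then
        ENNReal.ofReal |((((Fin.insertNthEquiv (fun _ => Qp × Zn) j) c) j).2.1 : ℝ)| *
          ∏ i, wt ε (((Fin.insertNthEquiv (fun _ => Qp × Zn) j) c) i) else 0) =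
      (if |(c.1.2.1 : ℝ) * Real.log (c.1.1.1 : ℝ) + Lam c.2| ≤ M then
        ENNReal.ofReal |(c.1.2.1 : ℝ)| * wt ε c.1 else 0) * ∏ i, wt ε (c.2 i) := by
    intro c
    have e1 : Lam ((Fin.insertNthEquiv (fun _ => Qp × Zn) j) c) =
        (c.1.2.1 : ℝ) * Real.log (c.1.1.1 : ℝ) + Lam c.2 := by
      unfold Lam
      rw [Fin.sum_univ_succAbove _ j]
      simp only [Fin.insertNthEquiv_apply, Fin.insertNth_apply_same,
        Fin.insertNth_apply_succAbove]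
    have e2 : ∏ i, wt ε (((Fin.insertNthEquiv (fun _ => Qp × Zn) j) c) i) =
        wt ε c.1 * ∏ i, wt ε (c.2 i) := by
      rw [Fin.prod_univ_succAbove _ j]
      simp only [Fin.insertNthEquiv_apply, Fin.insertNth_apply_same,
        Fin.insertNth_apply_succAbove]
    have e3 : ((Fin.insertNthEquiv (fun _ => Qp × Zn) j) c) j = c.1 := by
      simp only [Fin.insertNthEquiv_apply, Fin.insertNth_apply_same]
    rw [e1, e2, e3]
    split_ifs
    · ring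
    · simp
  simp only [h1]
  rw [ENNReal.tsum_prod (f := fun (z : Qp × Zn) (g : Fin m → Qp × Zn) =>
      (if |(z.2.1 : ℝ) * Real.log (z.1.1 : ℝ) + Lam g| ≤ M then
        ENNReal.ofReal |(z.2.1 : ℝ)| * wt ε z else 0) * ∏ i, wt ε (g i)), ENNReal.tsum_comm]
  simp only [ENNReal.tsum_mul_right]
  calc _ ≤ ∑' g : Fin m → Qp × Zn, (ENNReal.ofReal M * K) * ∏ i, wt ε (g i) := by
        refine ENNReal.tsum_le_tsum fun g => ?_
        gcongr
        exact hK _ M hM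
    _ = _ := by
        rw [ENNReal.tsum_mul_left, tsum_pi_prod]

end Pool.Agent.H99.LG
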