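import Pool.Agent.H99.LG.Fin

/-!
Lang's inequality with one generic number: the Hausdorff dimension of the exceptional set.
-/

set_option autoImplicit false

open scoped ENNReal NNReal
open MeasureTheory

namespace Pool.Agent.H99.LG

/-- the sum of `|b| ^ (-κ)` over the integers in an interval -/
theorem window (κ η t y M : ℝ) (hκ : 0 ≤ κ) (hη : 0 < η) (hη1 : κ ≤ 1 + η) (ht : t ≠ 0) (hM : 0 ≤ M) :
    (∑' b : Zn, (if |(b.1 : ℝ) * t + y| ≤ M then ENNReal.ofReal (|(b.1 : ℝ)| ^ (-κ)) else 0)) ≤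
      ENNReal.ofReal ((1 + 2 * M / |t|) ^ (1 - κ + η)) *
        (1 + ∑' b : Zn, ENNReal.ofReal (|(b.1 : ℝ)| ^ (-(1 + η)))) := by
  classical
  set N : ℝ := 1 + 2 * M / |t| with hN
  have hN1 : 1 ≤ N := by
    have : 0 ≤ 2 * M / |t| := by positivity
    linarith
  have hcount := count_int t y M ht hM
  have h1 : ∀ b : Zn, (if |(b.1 : ℝ) * t + y| ≤ M then ENNReal.ofReal (|(b.1 : ℝ)| ^ (-κ)) else 0) ≤
      ENNReal.ofReal (N ^ (-κ)) * (if |(b.1 : ℝ) * t + y| ≤ M then (1 : ℝ≥0∞) else 0) +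
      ENNReal.ofReal (N ^ (1 - κ + η)) * ENNReal.ofReal (|(b.1 : ℝ)| ^ (-(1 + η))) := by
    intro b
    have hb := one_le_abs b
    split_ifs with h
    · rcases le_total N |(b.1 : ℝ)| with h2 | h2
      · refine le_trans ?_ le_self_add
        rw [mul_one]
        apply ENNReal.ofReal_le_ofReal
        exact Real.rpow_le_rpow_of_nonpos (by linarith) h2 (by linarith)
      · refine le_trans ?_ le_add_self
        rw [← ENNReal.ofReal_mul (by positivity)]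
        apply ENNReal.ofReal_le_ofReal
        have h3 : |(b.1 : ℝ)| ^ (-κ) = |(b.1 : ℝ)| ^ (1 - κ + η) * |(b.1 : ℝ)| ^ (-(1 + η)) := by
          rw [← Real.rpow_add (by linarith)]
          congr 1
          ring
        rw [h3]
        have h4 : |(b.1 : ℝ)| ^ (1 - κ + η) ≤ N ^ (1 - κ + η) :=
          Real.rpow_le_rpow (by linarith) h2 (by linarith)
        gcongr
    · exact zero_le
  refine (ENNReal.tsum_le_tsum h1).trans ?_
  rw [ENNReal.tsum_add, ENNReal.tsum_mul_left, ENNReal.tsum_mul_left, mul_add, mul_one]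
  gcongr
  calc ENNReal.ofReal (N ^ (-κ)) *
        ∑' b : Zn, (if |(b.1 : ℝ) * t + y| ≤ M then (1 : ℝ≥0∞) else 0)
      ≤ ENNReal.ofReal (N ^ (-κ)) * ENNReal.ofReal N := by gcongr
    _ = ENNReal.ofReal (N ^ (1 - κ)) := by
        rw [← ENNReal.ofReal_mul (by positivity)]
        congr 1
        nth_rewrite 2 [← Real.rpow_one N]
        rw [← Real.rpow_add (by linarith)]
        congr 1
        ring
    _ ≤ _ := by
        apply ENNReal.ofReal_le_ofReal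
        exact Real.rpow_le_rpow_of_exponent_le hN1 (by linarith)

/-- `ε₀ = σ - 1`, `κ = σ - s` -/
theorem Vb2 (ε₀ s η : ℝ) (hε₀ : 0 < ε₀) (hη : 0 < η) (hs : 0 < s) (hκ1 : 1 + ε₀ - s ≤ 1)
    (hηκ : η ≤ 1 + ε₀ - s) :
    ∃ K : ℝ≥0∞, K ≠ ∞ ∧ ∀ y M : ℝ, 1 ≤ M →
    (∑' z : Qp × Zn, (if |(z.2.1 : ℝ) * Real.log (z.1.1 : ℝ) + y| ≤ M then
      ENNReal.ofReal (|(z.2.1 : ℝ)| ^ s) * wt ε₀ z else 0)) ≤
      ENNReal.ofReal (M ^ (s - ε₀ + η)) * K := by
  classical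
  set κ := 1 + ε₀ - s with hκ
  set Z := 1 + ∑' b : Zn, ENNReal.ofReal (|(b.1 : ℝ)| ^ (-(1 + η))) with hZ
  have hZf : Z ≠ ∞ := ENNReal.add_ne_top.2 ⟨by norm_num, sumZ η hη⟩
  have hκ0 : 0 ≤ κ := by linarith
  refine ⟨(∑' a : Qp, ENNReal.ofReal (H a.1 ^ (-(2 + 2 * ε₀)) *
    (1 + 2 / |Real.log (a.1 : ℝ)|))) * Z, ENNReal.mul_ne_top (sumQ ε₀ hε₀) hZf, fun y M hM => ?_⟩
  rw [ENNReal.tsum_prod (f := fun (a : Qp) (b : Zn) =>
    (if |(b.1 : ℝ) * Real.log (a.1 : ℝ) + y| ≤ M then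
      ENNReal.ofReal (|(b.1 : ℝ)| ^ s) * wt ε₀ (a, b) else 0)), ← mul_assoc,
      ← ENNReal.tsum_mul_left, ← ENNReal.tsum_mul_right]
  refine ENNReal.tsum_le_tsum fun a => ?_
  have hlog : Real.log (a.1 : ℝ) ≠ 0 := by
    have h1 := (log_ge a.1 a.2.1 a.2.2)
    have h2 := one_le_H a.1
    have h3 : (0 : ℝ) < |Real.log (a.1 : ℝ)| := by
      refine lt_of_lt_of_le ?_ h1.1
      have h4 : (1 : ℝ) ≤ ((max a.1.num.natAbs a.1.den - min a.1.num.natAbs a.1.den : ℕ) : ℝ) := by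
        exact_mod_cast h1.2
      positivity
    exact abs_pos.1 h3
  have hH := one_le_H a.1
  calc ∑' b : Zn, (if |(b.1 : ℝ) * Real.log (a.1 : ℝ) + y| ≤ M then
        ENNReal.ofReal (|(b.1 : ℝ)| ^ s) * wt ε₀ (a, b) else 0)
      = ∑' b : Zn, ENNReal.ofReal (H a.1 ^ (-(2 + 2 * ε₀))) *
        (if |(b.1 : ℝ) * Real.log (a.1 : ℝ) + y| ≤ M then
          ENNReal.ofReal (|(b.1 : ℝ)| ^ (-κ)) else 0) := by
        refine tsum_congr fun b => ?_
        split_ifs with hb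
        · have h1 := one_le_abs b
          rw [wt_eq, ← mul_assoc, ← ENNReal.ofReal_mul (by positivity), mul_comm]
          congr 2
          simp only
          rw [← Real.rpow_add (by linarith)]
          congr 1
          rw [hκ]; ring
        · simp
    _ = ENNReal.ofReal (H a.1 ^ (-(2 + 2 * ε₀))) *
        ∑' b : Zn, (if |(b.1 : ℝ) * Real.log (a.1 : ℝ) + y| ≤ M then
          ENNReal.ofReal (|(b.1 : ℝ)| ^ (-κ)) else 0) := by
        rw [ENNReal.tsum_mul_left]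
    _ ≤ ENNReal.ofReal (H a.1 ^ (-(2 + 2 * ε₀))) *
        (ENNReal.ofReal ((1 + 2 * M / |Real.log (a.1 : ℝ)|) ^ (1 - κ + η)) * Z) := by
        gcongr
        exact window κ η _ y M hκ0 hη (by linarith) hlog (by linarith)
    _ ≤ ENNReal.ofReal (H a.1 ^ (-(2 + 2 * ε₀))) *
        (ENNReal.ofReal (M ^ (s - ε₀ + η) * (1 + 2 / |Real.log (a.1 : ℝ)|)) * Z) := by
        gcongr
        have h4 : (1 : ℝ) + 2 * M / |Real.log (a.1 : ℝ)| ≤ M * (1 + 2 / |Real.log (a.1 : ℝ)|) := by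
          have : M * (1 + 2 / |Real.log (a.1 : ℝ)|) = M + 2 * M / |Real.log (a.1 : ℝ)| := by ring
          rw [this]
          linarith
        have h5 : (1 : ℝ) ≤ 1 + 2 / |Real.log (a.1 : ℝ)| := by
          have : 0 ≤ 2 / |Real.log (a.1 : ℝ)| := by positivity
          linarith
        have e1 : 1 - κ + η = s - ε₀ + η := by rw [hκ]; ring
        rw [e1]
        calc (1 + 2 * M / |Real.log (a.1 : ℝ)|) ^ (s - ε₀ + η)
            ≤ (M * (1 + 2 / |Real.log (a.1 : ℝ)|)) ^ (s - ε₀ + η) :=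
              Real.rpow_le_rpow (by positivity) h4 (by linarith)
          _ = M ^ (s - ε₀ + η) * (1 + 2 / |Real.log (a.1 : ℝ)|) ^ (s - ε₀ + η) := by
              rw [Real.mul_rpow (by linarith) (by linarith)]
          _ ≤ M ^ (s - ε₀ + η) * (1 + 2 / |Real.log (a.1 : ℝ)|) ^ (1 : ℝ) := by
              have : (1 + 2 / |Real.log (a.1 : ℝ)|) ^ (s - ε₀ + η) ≤
                  (1 + 2 / |Real.log (a.1 : ℝ)|) ^ (1 : ℝ) :=
                Real.rpow_le_rpow_of_exponent_le h5 (by linarith)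
              gcongr
          _ = _ := by rw [Real.rpow_one]
    _ = _ := by
        rw [ENNReal.ofReal_mul (by positivity), ENNReal.ofReal_mul (by positivity)]
        ring

theorem T22 {ε₀ s θ : ℝ} {K : ℝ≥0∞} (hK : ∀ y M : ℝ, 1 ≤ M →
    (∑' z : Qp × Zn, (if |(z.2.1 : ℝ) * Real.log (z.1.1 : ℝ) + y| ≤ M then
      ENNReal.ofReal (|(z.2.1 : ℝ)| ^ s) * wt ε₀ z else 0)) ≤ ENNReal.ofReal (M ^ θ) * K)
    (m : ℕ) (j : Fin (m + 1)) (M : ℝ) (hM : 1 ≤ M) :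
    (∑' g : Fin (m + 1) → Qp × Zn, (if |Lam g| ≤ M then
      ENNReal.ofReal (|((g j).2.1 : ℝ)| ^ s) * ∏ i, wt ε₀ (g i) else 0)) ≤
    ENNReal.ofReal (M ^ θ) * K * (∑' z, wt ε₀ z) ^ m := by
  classical
  rw [← (Fin.insertNthEquiv (fun _ => Qp × Zn) j).tsum_eq]
  have h1 : ∀ c : (Qp × Zn) × (Fin m → Qp × Zn),
      (if |Lam ((Fin.insertNthEquiv (fun _ => Qp × Zn) j) c)| ≤ M then
        ENNReal.ofReal (|((((Fin.insertNthEquiv (fun _ => Qp × Zn) j) c) j).2.1 : ℝ)| ^ s) *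
          ∏ i, wt ε₀ (((Fin.insertNthEquiv (fun _ => Qp × Zn) j) c) i) else 0) =
      (if |(c.1.2.1 : ℝ) * Real.log (c.1.1.1 : ℝ) + Lam c.2| ≤ M then
        ENNReal.ofReal (|(c.1.2.1 : ℝ)| ^ s) * wt ε₀ c.1 else 0) * ∏ i, wt ε₀ (c.2 i) := by
    intro c
    have e1 : Lam ((Fin.insertNthEquiv (fun _ => Qp × Zn) j) c) =
        (c.1.2.1 : ℝ) * Real.log (c.1.1.1 : ℝ) + Lam c.2 := by
      unfold Lam
      rw [Fin.sum_univ_succAbove _ j]
      simp only [Fin.insertNthEquiv_apply, Fin.insertNth_apply_same,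
        Fin.insertNth_apply_succAbove]
    have e2 : ∏ i, wt ε₀ (((Fin.insertNthEquiv (fun _ => Qp × Zn) j) c) i) =
        wt ε₀ c.1 * ∏ i, wt ε₀ (c.2 i) := by
      rw [Fin.prod_univ_succAbove _ j]
      simp only [Fin.insertNthEquiv_apply, Fin.insertNth_apply_same,
        Fin.insertNth_apply_succAbove]
    have e3 : ((Fin.insertNthEquiv (fun _ => Qp × Zn) j) c) j = c.1 := by
      simp only [Fin.insertNthEquiv_apply, Fin.insertNth_apply_same]
    rw [e1, e2, e3]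
    split_ifs
    · ring
    · simp
  simp only [h1]
  rw [ENNReal.tsum_prod (f := fun (z : Qp × Zn) (g : Fin m → Qp × Zn) =>
      (if |(z.2.1 : ℝ) * Real.log (z.1.1 : ℝ) + Lam g| ≤ M then
        ENNReal.ofReal (|(z.2.1 : ℝ)| ^ s) * wt ε₀ z else 0) * ∏ i, wt ε₀ (g i)), ENNReal.tsum_comm]
  simp only [ENNReal.tsum_mul_right]
  calc _ ≤ ∑' g : Fin m → Qp × Zn, (ENNReal.ofReal (M ^ θ) * K) * ∏ i, wt ε₀ (g i) := by
        refine ENNReal.tsum_le_tsum fun g => ?_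
        gcongr
        exact hK _ M hM
    _ = _ := by
        rw [ENNReal.tsum_mul_left, tsum_pi_prod]

end Pool.Agent.H99.LG
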