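import Pool.Agent.H99.LG.Dim

/-!
Lang's inequality with one generic number: the Hausdorff measures of the exceptional set.
-/

set_option autoImplicit false

open scoped ENNReal NNReal Topology
open MeasureTheory MeasureTheory.Measure

namespace Pool.Agent.H99.LG

theorem del_le {ε c : ℝ} (hε : 0 < ε) (hc : 0 < c) (hc1 : c ≤ 1 / 2) {m : ℕ} (b₀ : Zn)
    (g : Fin m → Qp × Zn) : del ε c b₀ g ≤ 2 * c := by
  have h1 := del_le_one hε (show (0 : ℝ) < 1 / 2 by norm_num) le_rfl b₀ g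
  have h0 := del_pos (ε := ε) (show (0 : ℝ) < 1 / 2 by norm_num) b₀ g
  have h2 : del ε c b₀ g = (2 * c) ^ (m + 1) * del ε (1 / 2) b₀ g := by
    unfold del
    have e : c ^ (m + 1) = (2 * c) ^ (m + 1) * (1 / 2) ^ (m + 1) := by
      rw [← mul_pow]
      congr 1
      ring
    rw [e]
    ring
  rw [h2]
  have h3 : (2 * c) ^ (m + 1) ≤ 2 * c :=
    pow_le_of_le_one (by linarith) (by linarith) (Nat.succ_ne_zero m)
  calc (2 * c) ^ (m + 1) * del ε (1 / 2) b₀ g ≤ (2 * c) * 1 := by gcongr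
    _ = 2 * c := mul_one _

theorem diam_E {R ε c : ℝ} (hR : 0 ≤ R) (hε : 0 < ε) (hc : 0 < c) (hc1 : c ≤ 1 / 2) {m : ℕ}
    (b₀ : Zn) (g : Fin m → Qp × Zn) : Metric.ediam (E R ε c b₀ g) ≤
      (if |Lam g| ≤ (R + 1) * |(b₀.1 : ℝ)| then
        ENNReal.ofReal (2 * del ε c b₀ g / |(b₀.1 : ℝ)|) else 0) := by
  have h0 := one_le_abs b₀
  have hd := del_pos (ε := ε) hc b₀ g
  have hd1 := del_le_one hε hc hc1 b₀ g
  split_ifs with h
  · refine Metric.ediam_le fun x hx y hy => ?_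
    rw [edist_dist]
    apply ENNReal.ofReal_le_ofReal
    rw [Real.dist_eq, le_div_iff₀ (by linarith)]
    have e1 : |x - y| * |(b₀.1 : ℝ)| = |((b₀.1 : ℝ) * x + Lam g) - ((b₀.1 : ℝ) * y + Lam g)| := by
      rw [← abs_mul]
      congr 1
      ring
    rw [e1]
    have := abs_sub ((b₀.1 : ℝ) * x + Lam g) ((b₀.1 : ℝ) * y + Lam g)
    have h3 := hx.2
    have h4 := hy.2
    linarith
  · have h1 : E R ε c b₀ g = ∅ := by
      rw [Set.eq_empty_iff_forall_notMem]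
      rintro x ⟨hx, hx2⟩
      apply h
      have h2 : |Lam g| ≤ |(b₀.1 : ℝ) * x + Lam g| + |(b₀.1 : ℝ) * x| := by
        have := abs_sub ((b₀.1 : ℝ) * x + Lam g) ((b₀.1 : ℝ) * x)
        have e : (b₀.1 : ℝ) * x + Lam g - (b₀.1 : ℝ) * x = Lam g := by ring
        rw [e] at this
        exact this
      rw [abs_mul] at h2
      have h3 : |(b₀.1 : ℝ)| * |x| ≤ |(b₀.1 : ℝ)| * R := by gcongr
      nlinarith
    rw [h1]
    simp

theorem rpow_sum_le {s : ℝ} (hs : 0 < s) (hs1 : s ≤ 1) {ι : Type} (S : Finset ι) (f : ι → ℝ≥0∞) :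
    (∑ i ∈ S, f i) ^ s ≤ ∑ i ∈ S, f i ^ s := by
  classical
  induction S using Finset.induction_on with
  | empty => simp [ENNReal.zero_rpow_of_pos hs]
  | insert a S ha ih =>
    rw [Finset.sum_insert ha, Finset.sum_insert ha]
    refine (ENNReal.rpow_add_le_add_rpow _ _ hs.le hs1).trans ?_
    gcongr

theorem wt_rpow {ε ε₀ s : ℝ} (hs : 0 < s) (hσ : (1 + ε) * s = 1 + ε₀) (z : Qp × Zn) :
    wt ε z ^ s = wt ε₀ z := by
  unfold wt
  have h := one_le_term z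
  rw [ENNReal.ofReal_rpow_of_nonneg (by positivity) hs.le, ← Real.rpow_mul (by linarith)]
  congr 2
  rw [← hσ]
  ring

theorem diam_rpow {R ε c s ε₀ : ℝ} (hR : 0 ≤ R) (hε : 0 < ε) (hc : 0 < c) (hc1 : c ≤ 1 / 2)
    (hs : 0 < s) (hs1 : s ≤ 1) (hσ : (1 + ε) * s = 1 + ε₀) {m : ℕ}
    (b₀ : Zn) (g : Fin m → Qp × Zn) : Metric.ediam (E R ε c b₀ g) ^ s ≤
      ENNReal.ofReal ((2 * c ^ (m + 1)) ^ s) * (ENNReal.ofReal (|(b₀.1 : ℝ)| ^ (-(s + 1 + ε₀))) *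
        (ENNReal.ofReal (|(b₀.1 : ℝ)| ^ s) * ∏ i, wt ε₀ (g i) + ∑ j,
          (if |Lam g| ≤ (R + 1) * |(b₀.1 : ℝ)| then
            ENNReal.ofReal (|((g j).2.1 : ℝ)| ^ s) * ∏ i, wt ε₀ (g i) else 0))) := by
  have h0 := one_le_abs b₀
  refine (ENNReal.rpow_le_rpow (diam_E hR hε hc hc1 b₀ g) hs.le).trans ?_
  by_cases h : |Lam g| ≤ (R + 1) * |(b₀.1 : ℝ)|
  · simp only [if_pos h]
    rw [ofReal_del hc b₀ g, ENNReal.mul_rpow_of_nonneg _ _ hs.le,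
      ENNReal.mul_rpow_of_nonneg _ _ hs.le, ENNReal.mul_rpow_of_nonneg _ _ hs.le,
      ENNReal.ofReal_rpow_of_nonneg (by positivity) hs.le,
      ENNReal.ofReal_rpow_of_nonneg (by positivity) hs.le, ← Real.rpow_mul (by linarith),
      ← ENNReal.prod_rpow_of_nonneg hs.le]
    simp only [wt_rpow hs hσ]
    have e1 : -(2 + ε) * s = -(s + 1 + ε₀) := by linarith
    rw [e1, ← Finset.sum_mul, ← add_mul]
    gcongr
    refine (ENNReal.rpow_add_le_add_rpow _ _ hs.le hs1).trans ?_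
    rw [ENNReal.ofReal_rpow_of_nonneg (by positivity) hs.le]
    gcongr
    refine (rpow_sum_le hs hs1 _ _).trans (le_of_eq ?_)
    refine Finset.sum_congr rfl fun i _ => ?_
    rw [ENNReal.ofReal_rpow_of_nonneg (by positivity) hs.le]
  · rw [if_neg h, ENNReal.zero_rpow_of_pos hs]
    exact zero_le

theorem sum_g2 {R ε c s ε₀ θ : ℝ} (hR : 0 ≤ R) (hε : 0 < ε) (hc : 0 < c) (hc1 : c ≤ 1 / 2)
    (hs : 0 < s) (hs1 : s ≤ 1) (hσ : (1 + ε) * s = 1 + ε₀) (hθ : θ ≤ s)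
    {K L : ℝ≥0∞}
    (hK : ∀ y M : ℝ, 1 ≤ M →
    (∑' z : Qp × Zn, (if |(z.2.1 : ℝ) * Real.log (z.1.1 : ℝ) + y| ≤ M then
      ENNReal.ofReal (|(z.2.1 : ℝ)| ^ s) * wt ε₀ z else 0)) ≤ ENNReal.ofReal (M ^ θ) * K)
    (hW : (∑' z, wt ε₀ z) ≤ L) (hKL : ENNReal.ofReal ((R + 1) ^ θ) * K ≤ L) (m : ℕ) (b₀ : Zn) :
    ∑' g : Fin m → Qp × Zn, Metric.ediam (E R ε c b₀ g) ^ s ≤
      ENNReal.ofReal ((2 * c ^ (m + 1)) ^ s) * (ENNReal.ofReal (|(b₀.1 : ℝ)| ^ (-(1 + ε₀))) *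
        ((m + 1) * L ^ m)) := by
  classical
  have h0 := one_le_abs b₀
  set M : ℝ := (R + 1) * |(b₀.1 : ℝ)| with hM
  have hM1 : 1 ≤ M := by nlinarith
  set A := ENNReal.ofReal ((2 * c ^ (m + 1)) ^ s) with hA
  set B2 := ENNReal.ofReal (|(b₀.1 : ℝ)| ^ (-(s + 1 + ε₀))) with hB2
  set B3 := ENNReal.ofReal (|(b₀.1 : ℝ)| ^ s) with hB3
  have h1 : ∀ g : Fin m → Qp × Zn, Metric.ediam (E R ε c b₀ g) ^ s ≤
      A * (B2 * (B3 * ∏ i, wt ε₀ (g i) + ∑ j, (if |Lam g| ≤ M then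
        ENNReal.ofReal (|((g j).2.1 : ℝ)| ^ s) * ∏ i, wt ε₀ (g i) else 0))) :=
    fun g => diam_rpow hR hε hc hc1 hs hs1 hσ b₀ g
  have h2 : ∀ j : Fin m, (∑' g : Fin m → Qp × Zn, (if |Lam g| ≤ M then
        ENNReal.ofReal (|((g j).2.1 : ℝ)| ^ s) * ∏ i, wt ε₀ (g i) else 0)) ≤
      B3 * L ^ m := by
    intro j
    obtain ⟨k, rfl⟩ : ∃ k, m = k + 1 := ⟨m - 1, by have := j.2; omega⟩
    refine (T22 hK k j M hM1).trans ?_
    have e1 : ENNReal.ofReal (M ^ θ) ≤ ENNReal.ofReal ((R + 1) ^ θ) * B3 := by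
      rw [hB3, ← ENNReal.ofReal_mul (by positivity)]
      apply ENNReal.ofReal_le_ofReal
      rw [hM, Real.mul_rpow (by linarith) (by linarith)]
      have : |(b₀.1 : ℝ)| ^ θ ≤ |(b₀.1 : ℝ)| ^ s := Real.rpow_le_rpow_of_exponent_le h0 hθ
      gcongr
    calc ENNReal.ofReal (M ^ θ) * K * (∑' z, wt ε₀ z) ^ k
        ≤ (ENNReal.ofReal ((R + 1) ^ θ) * B3) * K * (∑' z, wt ε₀ z) ^ k := by gcongr
      _ = B3 * ((ENNReal.ofReal ((R + 1) ^ θ) * K) * (∑' z, wt ε₀ z) ^ k) := by ring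
      _ ≤ B3 * (L * L ^ k) := by gcongr
      _ = _ := by rw [pow_succ, mul_comm L]
  have h3 : (∑' g : Fin m → Qp × Zn, ∑ j, (if |Lam g| ≤ M then
        ENNReal.ofReal (|((g j).2.1 : ℝ)| ^ s) * ∏ i, wt ε₀ (g i) else 0)) ≤
      m * (B3 * L ^ m) := by
    rw [Summable.tsum_finsetSum (fun _ _ => ENNReal.summable)]
    refine (Finset.sum_le_sum fun j _ => h2 j).trans ?_
    rw [Finset.sum_const, Finset.card_univ, Fintype.card_fin, nsmul_eq_mul]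
  have hB : B2 * B3 = ENNReal.ofReal (|(b₀.1 : ℝ)| ^ (-(1 + ε₀))) := by
    rw [hB2, hB3, ← ENNReal.ofReal_mul (by positivity)]
    congr 1
    rw [← Real.rpow_add (by linarith)]
    congr 1
    ring
  calc ∑' g : Fin m → Qp × Zn, Metric.ediam (E R ε c b₀ g) ^ s ≤ ∑' g : Fin m → Qp × Zn,
        A * (B2 * (B3 * ∏ i, wt ε₀ (g i) + ∑ j, (if |Lam g| ≤ M then
        ENNReal.ofReal (|((g j).2.1 : ℝ)| ^ s) * ∏ i, wt ε₀ (g i) else 0))) :=
        ENNReal.tsum_le_tsum h1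
    _ = A * (B2 * (B3 * (∑' z, wt ε₀ z) ^ m +
        ∑' g : Fin m → Qp × Zn, ∑ j, (if |Lam g| ≤ M then
        ENNReal.ofReal (|((g j).2.1 : ℝ)| ^ s) * ∏ i, wt ε₀ (g i) else 0))) := by
        rw [ENNReal.tsum_mul_left, ENNReal.tsum_mul_left, ENNReal.tsum_add,
          ENNReal.tsum_mul_left, tsum_pi_prod]
    _ ≤ A * (B2 * (B3 * L ^ m + m * (B3 * L ^ m))) := by gcongr
    _ = A * ((B2 * B3) * ((m + 1) * L ^ m)) := by ring
    _ = _ := by rw [hB]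

end Pool.Agent.H99.LG
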