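import Pool.Agent.H99.LG.Dim2

/-!
Lang's inequality with one generic number: the Hausdorff dimension of the exceptional set.
-/

set_option autoImplicit false

open scoped ENNReal NNReal Topology
open MeasureTheory MeasureTheory.Measure

namespace Pool.Agent.H99.LG

theorem total {R ε c s ε₀ θ l : ℝ} (hR : 0 ≤ R) (hε : 0 < ε) (hc : 0 < c) (hc1 : c ≤ 1 / 2)
    (hs : 0 < s) (hs1 : s ≤ 1) (hσ : (1 + ε) * s = 1 + ε₀) (hθ : θ ≤ s) (hl : 1 ≤ l)
    (hcl : c ^ s ≤ 1 / (4 * l))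
    {K L : ℝ≥0∞} (hLl : L = ENNReal.ofReal l)
    (hK : ∀ y M : ℝ, 1 ≤ M →
    (∑' z : Qp × Zn, (if |(z.2.1 : ℝ) * Real.log (z.1.1 : ℝ) + y| ≤ M then
      ENNReal.ofReal (|(z.2.1 : ℝ)| ^ s) * wt ε₀ z else 0)) ≤ ENNReal.ofReal (M ^ θ) * K)
    (hW : (∑' z, wt ε₀ z) ≤ L) (hKL : ENNReal.ofReal ((R + 1) ^ θ) * K ≤ L) :
    ∑' i : (Σ m : ℕ, Zn × (Fin m → Qp × Zn)), Metric.ediam (E R ε c i.2.1 i.2.2) ^ s ≤
      ENNReal.ofReal (4 * c ^ s) * ∑' b : Zn, ENNReal.ofReal (|(b.1 : ℝ)| ^ (-(1 + ε₀))) := by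
  set Z := ∑' b : Zn, ENNReal.ofReal (|(b.1 : ℝ)| ^ (-(1 + ε₀))) with hZ
  set d := c ^ s with hd
  have hd0 : 0 < d := by positivity
  rw [ENNReal.tsum_sigma']
  have h1 : ∀ m : ℕ, ∑' p : Zn × (Fin m → Qp × Zn), Metric.ediam (E R ε c p.1 p.2) ^ s ≤
      ENNReal.ofReal (2 * d * (1 / 2) ^ m) * Z := by
    intro m
    rw [ENNReal.tsum_prod (f := fun (b₀ : Zn) (g : Fin m → Qp × Zn) =>
      Metric.ediam (E R ε c b₀ g) ^ s)]
    calc ∑' b₀ : Zn, ∑' g : Fin m → Qp × Zn, Metric.ediam (E R ε c b₀ g) ^ s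
        ≤ ∑' b₀ : Zn, ENNReal.ofReal ((2 * c ^ (m + 1)) ^ s) *
          (ENNReal.ofReal (|(b₀.1 : ℝ)| ^ (-(1 + ε₀))) * ((m + 1) * L ^ m)) :=
          ENNReal.tsum_le_tsum fun b₀ => sum_g2 hR hε hc hc1 hs hs1 hσ hθ hK hW hKL m b₀
      _ = (ENNReal.ofReal ((2 * c ^ (m + 1)) ^ s) * ((m + 1) * L ^ m)) * Z := by
          rw [ENNReal.tsum_mul_left, ENNReal.tsum_mul_right]
          ring
      _ ≤ _ := by
          gcongr
          rw [hLl, ← ENNReal.ofReal_pow (by linarith)]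
          have e1 : ((m : ℝ≥0∞) + 1) = ENNReal.ofReal ((m : ℝ) + 1) := by
            rw [ENNReal.ofReal_add (by positivity) (by norm_num), ENNReal.ofReal_natCast,
              ENNReal.ofReal_one]
          rw [e1, ← ENNReal.ofReal_mul (by positivity), ← ENNReal.ofReal_mul (by positivity)]
          apply ENNReal.ofReal_le_ofReal
          have h0 : (2 * c ^ (m + 1)) ^ s ≤ 2 * d ^ (m + 1) := by
            rw [Real.mul_rpow (by norm_num) (by positivity)]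
            have e2 : (c ^ (m + 1)) ^ s = d ^ (m + 1) := by
              rw [hd, ← Real.rpow_natCast c, ← Real.rpow_mul hc.le, ← Real.rpow_natCast (c ^ s),
                ← Real.rpow_mul hc.le, mul_comm]
            rw [e2]
            have h4 : (2 : ℝ) ^ s ≤ 2 := by
              calc (2 : ℝ) ^ s ≤ 2 ^ (1 : ℝ) := Real.rpow_le_rpow_of_exponent_le (by norm_num) hs1
                _ = 2 := Real.rpow_one 2
            gcongr
          have h2 : d ^ (m + 1) ≤ d * (1 / (4 * l)) ^ m := by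
            rw [pow_succ, mul_comm]
            gcongr
          have h3 : ((m : ℝ) + 1) ≤ 2 ^ m := by
            have : m + 1 ≤ 2 ^ m := Nat.lt_two_pow_self
            exact_mod_cast this
          calc (2 * c ^ (m + 1)) ^ s * (((m : ℝ) + 1) * l ^ m)
              ≤ 2 * (d * (1 / (4 * l)) ^ m) * (2 ^ m * l ^ m) := by
                have h5 : (2 * c ^ (m + 1)) ^ s ≤ 2 * (d * (1 / (4 * l)) ^ m) := by linarith
                gcongr
            _ = 2 * d * ((1 / (4 * l)) * (2 * l)) ^ m := by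
                rw [mul_pow, mul_pow]; ring
            _ = 2 * d * (1 / 2) ^ m := by
                congr 2
                field_simp
                norm_num
  calc ∑' m : ℕ, ∑' p : Zn × (Fin m → Qp × Zn), Metric.ediam (E R ε c p.1 p.2) ^ s
      ≤ ∑' m : ℕ, ENNReal.ofReal (2 * d * (1 / 2) ^ m) * Z := ENNReal.tsum_le_tsum h1
    _ = ENNReal.ofReal (4 * d) * Z := by
        rw [ENNReal.tsum_mul_right, ← ENNReal.ofReal_tsum_of_nonneg (fun m => by positivity)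
          (summable_geometric_two.mul_left _), tsum_mul_left, tsum_geometric_two]
        congr 2
        ring

/-- the exceptional set -/
def Bad (ε : ℝ) : Set ℝ := {x : ℝ | ∀ c : ℝ, 0 < c → ∃ (m : ℕ) (b₀ : Zn) (g : Fin m → Qp × Zn),
      |(b₀.1 : ℝ) * x + Lam g| ≤ del ε c b₀ g}

theorem hausd {R ε s : ℝ} (hR : 0 ≤ R) (hε : 0 < ε) (hs : 0 < s) (hs1 : s ≤ 1)
    (hσ : 1 < (1 + ε) * s) (hs2 : ε * s ≤ 1) :
    μH[s] ({x : ℝ | |x| ≤ R} ∩ Bad ε) = 0 := by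
  set ε₀ := (1 + ε) * s - 1 with hε₀
  have hε₀0 : 0 < ε₀ := by linarith
  set η := min ε₀ (ε * s) with hη
  have hη0 : 0 < η := by positivity
  have hη1 : η ≤ ε₀ := min_le_left _ _
  have hη2 : η ≤ ε * s := min_le_right _ _
  obtain ⟨K, hKf, hK⟩ := Vb2 ε₀ s η hε₀0 hη0 hs (by rw [hε₀]; linarith) (by rw [hε₀]; linarith)
  set θ := s - ε₀ + η with hθ
  set W := ∑' z, wt ε₀ z with hWdef
  have hWf : W ≠ ∞ := W_fin ε₀ hε₀0
  set L : ℝ≥0∞ := 1 + W + ENNReal.ofReal ((R + 1) ^ θ) * K with hL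
  have hLf : L ≠ ∞ := ENNReal.add_ne_top.2 ⟨ENNReal.add_ne_top.2 ⟨by norm_num, hWf⟩,
    ENNReal.mul_ne_top ENNReal.ofReal_ne_top hKf⟩
  have hWL : W ≤ L := by
    rw [hL]
    exact le_trans le_add_self le_self_add
  have hKL : ENNReal.ofReal ((R + 1) ^ θ) * K ≤ L := le_add_self
  have h1L : 1 ≤ L := by
    rw [hL, add_assoc]
    exact le_self_add
  set l : ℝ := L.toReal with hl
  have hl1 : 1 ≤ l := by
    rw [hl]
    exact (ENNReal.toReal_le_toReal (by norm_num) hLf).2 h1L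
  have hLl : L = ENNReal.ofReal l := (ENNReal.ofReal_toReal hLf).symm
  set Z := ∑' b : Zn, ENNReal.ofReal (|(b.1 : ℝ)| ^ (-(1 + ε₀))) with hZ
  have hZf : Z ≠ ∞ := sumZ ε₀ hε₀0
  have hlim0 : Filter.Tendsto (fun c : ℝ => c ^ s) (𝓝[>] 0) (𝓝 0) := by
    have h1 : Filter.Tendsto (fun c : ℝ => c ^ s) (𝓝 0) (𝓝 ((0 : ℝ) ^ s)) :=
      (Real.continuousAt_rpow_const 0 s (Or.inr hs.le)).tendsto
    rw [Real.zero_rpow hs.ne'] at h1
    exact h1.mono_left nhdsWithin_le_nhds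
  have hev : ∀ᶠ c : ℝ in 𝓝[>] 0, 0 < c ∧ c ≤ 1 / 2 ∧ c ^ s ≤ 1 / (4 * l) := by
    have h1 : ∀ᶠ c : ℝ in 𝓝[>] 0, c ∈ Set.Ioc (0 : ℝ) (1 / 2) := Ioc_mem_nhdsGT (by norm_num)
    have h2 : ∀ᶠ c : ℝ in 𝓝[>] 0, c ^ s ≤ 1 / (4 * l) :=
      (hlim0.eventually_lt_const (show (0 : ℝ) < 1 / (4 * l) by positivity)).mono fun c hc => hc.le
    filter_upwards [h1, h2] with c hc hc2
    exact ⟨hc.1, hc.2, hc2⟩
  have key := hausdorffMeasure_le_liminf_tsum (l := 𝓝[>] (0 : ℝ))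
    (ι := fun _ => (Σ m : ℕ, Zn × (Fin m → Qp × Zn))) s ({x : ℝ | |x| ≤ R} ∩ Bad ε)
    (fun c : ℝ => ENNReal.ofReal (4 * c)) (by
      have h1 : Filter.Tendsto (fun c : ℝ => ENNReal.ofReal (4 * c)) (𝓝[>] 0)
          (𝓝 (ENNReal.ofReal (4 * 0))) :=
        ((ENNReal.continuous_ofReal.comp (continuous_const.mul continuous_id)).tendsto 0).mono_left
          nhdsWithin_le_nhds
      rwa [mul_zero, ENNReal.ofReal_zero] at h1)
    (fun c i => E R ε c i.2.1 i.2.2) (by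
      filter_upwards [hev] with c hc i
      refine (diam_E hR hε hc.1 hc.2.1 _ _).trans ?_
      split_ifs
      · apply ENNReal.ofReal_le_ofReal
        have h0 := one_le_abs i.2.1
        have h1 := del_le hε hc.1 hc.2.1 i.2.1 i.2.2
        have h2 := del_pos (ε := ε) hc.1 i.2.1 i.2.2
        rw [div_le_iff₀ (by linarith)]
        nlinarith [hc.1]
      · exact zero_le) (by
      filter_upwards [hev] with c hc
      rintro x ⟨hx, h⟩
      obtain ⟨m, b₀, g, hg⟩ := h c hc.1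
      rw [Set.mem_iUnion]
      exact ⟨⟨m, b₀, g⟩, hx, hg⟩)
  refine le_antisymm (key.trans ?_) zero_le
  have hlim : Filter.Tendsto (fun c : ℝ => ENNReal.ofReal (4 * c ^ s) * Z) (𝓝[>] 0) (𝓝 0) := by
    have h1 : Filter.Tendsto (fun c : ℝ => ENNReal.ofReal (4 * c ^ s)) (𝓝[>] 0)
        (𝓝 (ENNReal.ofReal (4 * 0))) :=
      ENNReal.tendsto_ofReal (hlim0.const_mul 4)
    rw [mul_zero, ENNReal.ofReal_zero] at h1
    have h2 := ENNReal.Tendsto.mul_const (b := Z) h1 (Or.inr hZf)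
    rwa [zero_mul] at h2
  rw [← hlim.liminf_eq]
  refine Filter.liminf_le_liminf ?_
  filter_upwards [hev] with c hc
  exact total hR hε hc.1 hc.2.1 hs hs1 (by rw [hε₀]; ring) (by rw [hθ]; linarith) hl1 hc.2.2 hLl hK
    hWL hKL

theorem dim_bad {ε : ℝ} (hε : 0 < ε) : dimH (Bad ε) ≤ ENNReal.ofReal (1 / (1 + ε)) := by
  have hsub : Bad ε ⊆ ⋃ N : ℕ, ({x : ℝ | |x| ≤ (N : ℝ)} ∩ Bad ε) := by
    intro x hx
    rw [Set.mem_iUnion]
    obtain ⟨N, hN⟩ := exists_nat_ge |x|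
    exact ⟨N, hN, hx⟩
  refine (dimH_mono hsub).trans ?_
  rw [dimH_iUnion]
  refine iSup_le fun N => ?_
  by_contra hlt
  rw [not_le] at hlt
  have h1 : ENNReal.ofReal (1 / (1 + ε)) < ENNReal.ofReal (min 1 (1 / ε)) := by
    rw [ENNReal.ofReal_lt_ofReal_iff (by positivity), lt_min_iff]
    constructor
    · rw [div_lt_one (by linarith)]
      linarith
    · exact one_div_lt_one_div_of_lt hε (by linarith)
  obtain ⟨s, hs1, hs2⟩ := ENNReal.lt_iff_exists_nnreal_btwn.1 (lt_min hlt h1)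
  rw [lt_min_iff] at hs2
  have h2 := hausdorffMeasure_of_lt_dimH hs2.1
  rw [← ENNReal.ofReal_coe_nnreal (p := s)] at hs1
  have h3 := hs2.2
  rw [← ENNReal.ofReal_coe_nnreal (p := s)] at h3
  rw [ENNReal.ofReal_lt_ofReal_iff_of_nonneg (by positivity)] at hs1
  rw [ENNReal.ofReal_lt_ofReal_iff (by positivity), lt_min_iff] at h3
  have hs0 : 0 < (s : ℝ) := lt_trans (by positivity) hs1
  have h4 : 1 < (1 + ε) * s := by
    rw [div_lt_iff₀ (by linarith)] at hs1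
    linarith
  have h5 : ε * s ≤ 1 := by
    have := h3.2
    rw [lt_div_iff₀ hε] at this
    linarith
  rw [hausd (by positivity) hε hs0 h3.1.le h4 h5] at h2
  exact absurd h2 (by norm_num)

theorem mainDim {ε : ℝ} (hε : 0 < ε) : dimH {α : ℝ | 0 < α ∧ ¬ ∃ C : ℝ, 0 < C ∧
    ∀ (n : ℕ) (a : Fin n → ℚ) (b₀ : ℤ) (b : Fin n → ℤ), (∀ j, 0 < a j) → b₀ ≠ 0 →
    C ^ (n + 1) * ((max (max b₀.natAbs 1) (Finset.univ.sup fun j => max (b j).natAbs 1) : ℕ) : ℝ) /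
      (Bz b₀ * (∏ j, Bz (b j)) * ∏ j, H (a j) ^ 2) ^ (1 + ε) <
    |(b₀ : ℝ) * Real.log α + ∑ j, (b j : ℝ) * Real.log (a j : ℝ)|} ≤
      ENNReal.ofReal (1 / (1 + ε)) := by
  refine (dimH_mono (t := Real.exp '' Bad ε) ?_).trans
    ((ContDiffOn.dimH_image_le (s := Set.univ) Real.contDiff_exp.contDiffOn convex_univ
      (Set.subset_univ _)).trans (dim_bad hε))
  rintro α ⟨hα0, hα⟩
  refine ⟨Real.log α, ?_, Real.exp_log hα0⟩
  by_contra h
  apply hα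
  unfold Bad at h
  rw [Set.mem_ofPred_eq] at h
  push Not at h
  obtain ⟨c, hc, hc2⟩ := h
  refine ⟨min c 1, by positivity, fun n a b₀ b ha hb₀ => ?_⟩
  have h6 : ∀ (m : ℕ) (b₀ : Zn) (g : Fin m → Qp × Zn),
      del ε (min c 1) b₀ g < |(b₀.1 : ℝ) * Real.log α + Lam g| := by
    intro m b₀ g
    refine lt_of_le_of_lt ?_ (hc2 m b₀ g)
    unfold del
    have h7 := Sb_pos b₀ g
    have h8 := one_le_Pr g
    have h9 := one_le_abs b₀
    have h10 : min c 1 ≤ c := min_le_left _ _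
    gcongr
  exact reduce hε (by positivity) (min_le_right _ _) h6 n a b₀ b ha hb₀

end Pool.Agent.H99.LG
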