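import Pool.Agent.H99.LG.Null

/-!
Lang's inequality with one generic number: assembly.
-/

set_option autoImplicit false

open scoped ENNReal
open MeasureTheory

namespace Pool.Agent.H99.LG

/-- the size of a coefficient -/
noncomputable def Bz (b : ℤ) : ℝ := ((max b.natAbs 1 : ℕ) : ℝ)

theorem one_le_Bz (b : ℤ) : 1 ≤ Bz b := by
  unfold Bz
  exact_mod_cast le_max_right _ _

theorem Bz_eq {b : ℤ} (hb : b ≠ 0) : Bz b = |(b : ℝ)| := by
  unfold Bz
  have h1 : max b.natAbs 1 = b.natAbs := by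
    have : 0 < b.natAbs := Int.natAbs_pos.2 hb
    omega
  rw [h1, Nat.cast_natAbs]
  push_cast
  rfl

/-- reduction to the terms which are not zero -/
theorem reduce {x ε c : ℝ} (hε : 0 < ε) (hc : 0 < c) (hc1 : c ≤ 1)
    (hg : ∀ (m : ℕ) (b₀ : Zn) (g : Fin m → Qp × Zn), del ε c b₀ g < |(b₀.1 : ℝ) * x + Lam g|)
    (n : ℕ) (a : Fin n → ℚ) (b₀ : ℤ) (b : Fin n → ℤ) (ha : ∀ j, 0 < a j) (hb₀ : b₀ ≠ 0) :
    c ^ (n + 1) * ((max (max b₀.natAbs 1) (Finset.univ.sup fun j => max (b j).natAbs 1) : ℕ) : ℝ) /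
      (Bz b₀ * (∏ j, Bz (b j)) * ∏ j, H (a j) ^ 2) ^ (1 + ε) <
    |(b₀ : ℝ) * x + ∑ j, (b j : ℝ) * Real.log (a j : ℝ)| := by
  classical
  set J : Finset (Fin n) := Finset.univ.filter fun j => a j ≠ 1 ∧ b j ≠ 0 with hJ
  have hJm : ∀ j : J, a j.1 ≠ 1 ∧ b j.1 ≠ 0 := fun j => (Finset.mem_filter.1 j.2).2
  let e : Fin J.card ≃ J := J.equivFin.symm
  let g : Fin J.card → Qp × Zn := fun i => (⟨a (e i).1, ha _, (hJm (e i)).1⟩, ⟨b (e i).1, (hJm (e i)).2⟩)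
  have key := hg J.card ⟨b₀, hb₀⟩ g
  have hLam : Lam g = ∑ j, (b j : ℝ) * Real.log (a j : ℝ) := by
    unfold Lam
    have h1 : ∑ i : Fin J.card, (b (e i).1 : ℝ) * Real.log (a (e i).1 : ℝ) =
        ∑ j : J, (b j.1 : ℝ) * Real.log (a j.1 : ℝ) :=
      Equiv.sum_comp e (fun j : J => (b j.1 : ℝ) * Real.log (a j.1 : ℝ))
    show ∑ i : Fin J.card, (b (e i).1 : ℝ) * Real.log (a (e i).1 : ℝ) = _
    rw [h1, Finset.sum_coe_sort J (fun j => (b j : ℝ) * Real.log (a j : ℝ))]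
    refine Finset.sum_subset (Finset.subset_univ _) fun j _ hj => ?_
    rw [hJ, Finset.mem_filter] at hj
    by_cases h2 : a j = 1
    · rw [h2]; simp
    · have h3 : b j = 0 := by
        by_contra h3
        exact hj ⟨Finset.mem_univ _, h2, h3⟩
      rw [h3]; simp
  rw [hLam] at key
  refine lt_of_le_of_lt ?_ key
  -- the products
  set t : Fin n → ℝ := fun j => Bz (b j) * H (a j) ^ 2 with ht
  have ht1 : ∀ j, 1 ≤ t j := fun j =>
    one_le_mul_of_one_le_of_one_le (one_le_Bz _) (one_le_pow₀ (one_le_H _))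
  have hPr : Pr g = ∏ j ∈ J, t j := by
    unfold Pr
    have h1 : ∏ i : Fin J.card, (|((b (e i).1 : ℤ) : ℝ)| * H (a (e i).1) ^ 2) =
        ∏ j : J, (|((b j.1 : ℤ) : ℝ)| * H (a j.1) ^ 2) :=
      Equiv.prod_comp e (fun j : J => |((b j.1 : ℤ) : ℝ)| * H (a j.1) ^ 2)
    show ∏ i : Fin J.card, (|((b (e i).1 : ℤ) : ℝ)| * H (a (e i).1) ^ 2) = _
    rw [h1, ← Finset.prod_coe_sort J t]
    refine Finset.prod_congr rfl fun j _ => ?_
    rw [ht]
    simp only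
    rw [Bz_eq (hJm j).2]
  set P := ∏ j ∈ J, t j with hP
  set P' := ∏ j ∈ Finset.univ \ J, t j with hP'
  have hPP : (∏ j, Bz (b j)) * ∏ j, H (a j) ^ 2 = P' * P := by
    rw [← Finset.prod_mul_distrib, hP, hP', Finset.prod_sdiff (Finset.subset_univ J)]
  have hP1 : 1 ≤ P := one_le_fprod _ _ fun j _ => ht1 j
  have hP'1 : 1 ≤ P' := one_le_fprod _ _ fun j _ => ht1 j
  have hb1 := one_le_Bz b₀
  -- the sum of the coefficients
  have hSb : Sb ⟨b₀, hb₀⟩ g = Bz b₀ + ∑ j ∈ J, Bz (b j) := by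
    unfold Sb
    rw [Bz_eq hb₀]
    congr 1
    have h1 : ∑ i : Fin J.card, |((b (e i).1 : ℤ) : ℝ)| = ∑ j : J, |((b j.1 : ℤ) : ℝ)| :=
      Equiv.sum_comp e (fun j : J => |((b j.1 : ℤ) : ℝ)|)
    show ∑ i : Fin J.card, |((b (e i).1 : ℤ) : ℝ)| = _
    rw [h1, ← Finset.sum_coe_sort J (fun j => Bz (b j))]
    refine Finset.sum_congr rfl fun j _ => ?_
    rw [Bz_eq (hJm j).2]
  set S := Sb ⟨b₀, hb₀⟩ g with hS
  have hS1 : 1 ≤ S := by
    rw [hSb]
    have : 0 ≤ ∑ j ∈ J, Bz (b j) := Finset.sum_nonneg fun j _ => by linarith [one_le_Bz (b j)]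
    linarith
  have hmax : ((max (max b₀.natAbs 1) (Finset.univ.sup fun j => max (b j).natAbs 1) : ℕ) : ℝ) ≤
      S * P' := by
    rw [Nat.cast_max]
    apply max_le
    · show Bz b₀ ≤ S * P'
      have h1 : Bz b₀ ≤ S := by
        rw [hSb]
        have : 0 ≤ ∑ j ∈ J, Bz (b j) := Finset.sum_nonneg fun j _ => by linarith [one_le_Bz (b j)]
        linarith
      nlinarith
    · rcases Nat.eq_zero_or_pos n with rfl | hn
      · have : (Finset.univ.sup fun j : Fin 0 => max (b j).natAbs 1) = 0 := by simp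
        rw [this]
        have : 0 ≤ S * P' := by positivity
        simpa using this
      · obtain ⟨j, -, hj⟩ := Finset.exists_mem_eq_sup Finset.univ
          ⟨(⟨0, hn⟩ : Fin n), Finset.mem_univ _⟩ (fun j => max (b j).natAbs 1)
        rw [hj]
        show Bz (b j) ≤ S * P'
        by_cases hjJ : j ∈ J
        · have h1 : Bz (b j) ≤ S := by
            rw [hSb]
            have h2 : Bz (b j) ≤ ∑ j ∈ J, Bz (b j) :=
              Finset.single_le_sum (f := fun j => Bz (b j))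
                (fun j _ => by linarith [one_le_Bz (b j)]) hjJ
            linarith
          nlinarith
        · have h1 : Bz (b j) ≤ P' := by
            rw [hP', ← Finset.mul_prod_erase _ _ (Finset.mem_sdiff.2 ⟨Finset.mem_univ j, hjJ⟩)]
            have h2 : 1 ≤ ∏ x ∈ (Finset.univ \ J).erase j, t x :=
              one_le_fprod _ _ fun j _ => ht1 j
            have h3 : Bz (b j) ≤ t j :=
              le_mul_of_one_le_right (by linarith [one_le_Bz (b j)]) (one_le_pow₀ (one_le_H _))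
            nlinarith [ht1 j]
          nlinarith
  unfold del
  rw [← hS, ← Bz_eq hb₀, hPr, mul_assoc (Bz b₀), hPP, div_eq_mul_inv, ← Real.rpow_neg (by positivity)]
  have hcc : c ^ (n + 1) ≤ c ^ (J.card + 1) := by
    apply pow_le_pow_of_le_one hc.le hc1
    have := Finset.card_le_univ J
    rw [Fintype.card_fin] at this
    omega
  have e1 : (Bz b₀ * (P' * P)) ^ (-(1 + ε)) = P' ^ (-(1 + ε)) * (Bz b₀ * P) ^ (-(1 + ε)) := by
    rw [← Real.mul_rpow (by positivity) (by positivity)]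
    congr 1
    ring
  have h5 : P' * P' ^ (-(1 + ε)) ≤ 1 := by
    have : P' * P' ^ (-(1 + ε)) = P' ^ (-ε) := by
      nth_rewrite 1 [← Real.rpow_one P']
      rw [← Real.rpow_add (by linarith)]
      congr 1
      ring
    rw [this]
    exact Real.rpow_le_one_of_one_le_of_nonpos hP'1 (by linarith)
  have hQ : 0 < (Bz b₀ * P) ^ (-(1 + ε)) := by positivity
  rw [e1]
  calc c ^ (n + 1) * ((max (max b₀.natAbs 1) (Finset.univ.sup fun j => max (b j).natAbs 1) : ℕ) : ℝ) *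
        (P' ^ (-(1 + ε)) * (Bz b₀ * P) ^ (-(1 + ε)))
      ≤ c ^ (J.card + 1) * (S * P') * (P' ^ (-(1 + ε)) * (Bz b₀ * P) ^ (-(1 + ε))) := by
        gcongr
    _ = c ^ (J.card + 1) * S * (Bz b₀ * P) ^ (-(1 + ε)) * (P' * P' ^ (-(1 + ε))) := by ring
    _ ≤ c ^ (J.card + 1) * S * (Bz b₀ * P) ^ (-(1 + ε)) * 1 := by gcongr
    _ = _ := by rw [mul_one]

theorem main : ∀ᵐ α : ℝ, 0 < α → ∀ ε : ℝ, 0 < ε → ∃ C : ℝ, 0 < C ∧
    ∀ (n : ℕ) (a : Fin n → ℚ) (b₀ : ℤ) (b : Fin n → ℤ), (∀ j, 0 < a j) → b₀ ≠ 0 →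
    C ^ (n + 1) * ((max (max b₀.natAbs 1) (Finset.univ.sup fun j => max (b j).natAbs 1) : ℕ) : ℝ) /
      (Bz b₀ * (∏ j, Bz (b j)) * ∏ j, H (a j) ^ 2) ^ (1 + ε) <
    |(b₀ : ℝ) * Real.log α + ∑ j, (b j : ℝ) * Real.log (a j : ℝ)| := by
  have h1 := ae_good
  set Bd : Set ℝ := {x : ℝ | ¬ ∀ k : ℕ, ∃ c : ℝ, 0 < c ∧ ∀ (m : ℕ) (b₀ : Zn)
    (g : Fin m → Qp × Zn), del (1 / ((k : ℝ) + 1)) c b₀ g < |(b₀.1 : ℝ) * x + Lam g|} with hBd
  have h2 : volume Bd = 0 := h1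
  have h3 : volume (Real.exp '' Bd) = 0 :=
    addHaar_image_eq_zero_of_differentiableOn_of_addHaar_eq_zero volume
      Real.differentiable_exp.differentiableOn h2
  have h4 : ∀ᵐ α : ℝ, α ∉ Real.exp '' Bd := measure_eq_zero_iff_ae_notMem.1 h3
  filter_upwards [h4] with α hα hα0 ε hε
  have h5 : Real.log α ∉ Bd := fun h => hα ⟨Real.log α, h, Real.exp_log hα0⟩
  rw [hBd, Set.mem_ofPred_eq, not_not] at h5
  obtain ⟨k, hk⟩ := exists_nat_one_div_lt hε
  obtain ⟨c, hc, hc2⟩ := h5 k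
  set δ : ℝ := 1 / ((k : ℝ) + 1) with hδ
  have hδ0 : 0 < δ := by positivity
  refine ⟨min c 1, by positivity, fun n a b₀ b ha hb₀ => ?_⟩
  have h6 : ∀ (m : ℕ) (b₀ : Zn) (g : Fin m → Qp × Zn),
      del δ (min c 1) b₀ g < |(b₀.1 : ℝ) * Real.log α + Lam g| := by
    intro m b₀ g
    refine lt_of_le_of_lt ?_ (hc2 m b₀ g)
    unfold del
    have h7 := Sb_pos b₀ g
    have h8 := one_le_Pr g
    have h9 := one_le_abs b₀
    have h10 : min c 1 ≤ c := min_le_left _ _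
    gcongr
  refine lt_of_le_of_lt ?_ (reduce hδ0 (by positivity) (min_le_right _ _) h6 n a b₀ b ha hb₀)
  have hb1 := one_le_Bz b₀
  have hB : 1 ≤ ∏ j, Bz (b j) := one_le_fprod _ _ fun j _ => one_le_Bz _
  have hH : 1 ≤ ∏ j, H (a j) ^ 2 := one_le_fprod _ _ fun j _ => one_le_pow₀ (one_le_H _)
  have hQ : 1 ≤ Bz b₀ * (∏ j, Bz (b j)) * ∏ j, H (a j) ^ 2 :=
    one_le_mul_of_one_le_of_one_le (one_le_mul_of_one_le_of_one_le hb1 hB) hH
  gcongr

end Pool.Agent.H99.LG
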