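import Pool.Agent.H99.TB.Fieldc

/-! The checks for three equal masses. -/

set_option autoImplicit false

namespace Pool.Agent.H99.TB

open Pool.Agent.H99.TB.Poly

/-- all equations of one piece, masses `1/3` -/
def okDat3 (o : Bool) (e1 e2 ql qd S : ℕ) (X : ℤ) (d : Dat) (Aux Aug Awx Awg : List ℤ) : Bool :=
  okPair o e2 ql qd S X d.ux d.ug d.bu && okPair o e2 ql qd S X d.wx d.wg d.bw &&
  okPair o e2 ql qd S X d.sx d.sg d.bs &&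
  okRes o e1 qd 3 S 2 1 X Aux d.ux d.bu d.wx d.bw d.sx d.bs &&
  okRes o e1 qd 3 S 2 1 X Aug d.ug d.bu d.wg d.bw d.sg d.bs &&
  okRes o e1 qd 3 S 2 1 X Awx d.wx d.bw d.ux d.bu d.sx d.bs &&
  okRes o e1 qd 3 S 2 1 X Awg d.wg d.bw d.ug d.bu d.sg d.bs

theorem okDat3_sound {o : Bool} {e1 e2 ql qd S : ℕ} {X : ℤ} {d : Dat} {Aux Aug Awx Awg : List ℤ}
    (hX : 0 < X) (hS : 0 < S) (hqd : 0 < qd) (he2 : 2 ≤ e2) {lam : ℝ} (hlam : 0 ≤ lam)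
    (hl2 : lam ^ 2 = (ql : ℝ) / qd) (h : okDat3 o e1 e2 ql qd S X d Aux Aug Awx Awg = true)
    {Bb : ℝ} {s : ℝ} (h0 : 0 ≤ s) (h1 : s ≤ 1) (hBu : (pos d.bu : ℝ) / S ≤ Bb) (hBw : (pos d.bw : ℝ) / S ≤ Bb)
    (hBs : (pos d.bs : ℝ) / S ≤ Bb) :
    (1 - 1 / 2 ^ e2) / (pos d.bu / S : ℝ) ≤ ‖zz lam S d.ux d.ug s‖ ∧
    (1 - 1 / 2 ^ e2) / (pos d.bw / S : ℝ) ≤ ‖zz lam S d.wx d.wg s‖ ∧
    (1 - 1 / 2 ^ e2) / (pos d.bs / S : ℝ) ≤ ‖zz lam S d.ux d.ug s + zz lam S d.wx d.wg s‖ ∧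
    ‖((zz lam (qd * S) Aux Aug s, zz lam (qd * S) Awx Awg s) : E) -
      rf kep (1 / 3) (1 / 3) (1 / 3) (zz lam S d.ux d.ug s, zz lam S d.wx d.wg s)‖ ≤
      wt o s * ((1 + lam) / 2 ^ e1 + 16 * Bb ^ 2 / 2 ^ e2) := by
  simp only [okDat3, Bool.and_eq_true] at h
  obtain ⟨⟨⟨⟨⟨⟨p1, p2⟩, p3⟩, r1⟩, r2⟩, r3⟩, r4⟩ := h
  have hS' : (0 : ℝ) < S := by exact_mod_cast hS
  have hw := wt_nonneg o s
  have hw1 := wt_le o h0 h1
  have hη0 : 0 ≤ wt o s / 2 ^ e2 := by positivity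
  have h4 : (4 : ℝ) ≤ 2 ^ e2 := by
    calc (4 : ℝ) = 2 ^ 2 := by norm_num
      _ ≤ 2 ^ e2 := pow_le_pow_right₀ (by norm_num) he2
  have hη1 : wt o s / 2 ^ e2 ≤ 1 / 4 := by
    rw [div_le_div_iff₀ (by positivity) (by norm_num)]
    nlinarith
  have hη2 : wt o s / 2 ^ e2 ≤ 1 / 2 ^ e2 := by gcongr
  -- one pair
  have pair : ∀ x g b : List ℤ, okPair o e2 ql qd S X x g b = true →
      (1 - 1 / 2 ^ e2) / (pos b / S : ℝ) ≤ ‖zz lam S x g s‖ ∧ ((pos b / S : ℝ) ≤ Bb →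
      ‖(((ev b s / S) ^ 3 : ℝ) : ℂ) * zz lam S x g s - kep (zz lam S x g s)‖ ≤ 8 * (wt o s / 2 ^ e2) * Bb ^ 2) := by
    intro x g b hb
    have q1 := okPair_sound hX hS hqd hb h0 h1
    have q2 : 0 < ev b s / S := div_pos (headPos_sound (okPair_head hb) h0 h1) hS'
    have q3 : ev b s / S ≤ pos b / S := by gcongr; exact ev_le_pos b h0 h1
    have q4 : |(ev b s / S) ^ 2 * ‖zz lam S x g s‖ ^ 2 - 1| ≤ wt o s / 2 ^ e2 := by
      rw [zz_norm_sq, hl2]; exact q1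
    constructor
    · refine le_trans ?_ (kep_approx q2 q3 hη0 hη1 q4).1
      have : 0 < pos b / (S : ℝ) := q2.trans_le q3
      gcongr
    · intro hbB
      exact (kep_approx q2 (q3.trans hbB) hη0 hη1 q4).2
  obtain ⟨a1, b1⟩ := pair _ _ _ p1
  obtain ⟨a2, b2⟩ := pair _ _ _ p2
  obtain ⟨a3, b3⟩ := pair _ _ _ p3
  have hsum : zz lam S d.sx d.sg s = zz lam S d.ux d.ug s + zz lam S d.wx d.wg s := zz_add _ _ _ _ _ _ _
  rw [hsum] at a3 b3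
  have b1 := b1 hBu
  have b2 := b2 hBw
  have b3 := b3 hBs
  refine ⟨a1, a2, a3, ?_⟩
  have s1 := okRes_sound hX hS hqd (by norm_num) r1 h0 h1
  have s2 := okRes_sound hX hS hqd (by norm_num) r2 h0 h1
  have s3 := okRes_sound hX hS hqd (by norm_num) r3 h0 h1
  have s4 := okRes_sound hX hS hqd (by norm_num) r4 h0 h1
  -- the two components
  have comp : ∀ (n12 nc : ℕ) (Ax Ag x1 g1 b1 x2 g2 b2 x3 g3 b3 : List ℤ),
      |ev Ax s / (qd * S) - (-(n12 / (3 : ℕ) : ℝ) * ((ev b1 s / S) ^ 3 * (ev x1 s / S)) +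
        (nc / (3 : ℕ) : ℝ) * ((ev b2 s / S) ^ 3 * (ev x2 s / S) - (ev b3 s / S) ^ 3 * (ev x3 s / S)))| ≤
        wt o s / 2 ^ e1 →
      |ev Ag s / (qd * S) - (-(n12 / (3 : ℕ) : ℝ) * ((ev b1 s / S) ^ 3 * (ev g1 s / S)) +
        (nc / (3 : ℕ) : ℝ) * ((ev b2 s / S) ^ 3 * (ev g2 s / S) - (ev b3 s / S) ^ 3 * (ev g3 s / S)))| ≤
        wt o s / 2 ^ e1 →
      ‖(((ev b1 s / S) ^ 3 : ℝ) : ℂ) * zz lam S x1 g1 s - kep (zz lam S x1 g1 s)‖ ≤ 8 * (wt o s / 2 ^ e2) * Bb ^ 2 →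
      ‖(((ev b2 s / S) ^ 3 : ℝ) : ℂ) * zz lam S x2 g2 s - kep (zz lam S x2 g2 s)‖ ≤ 8 * (wt o s / 2 ^ e2) * Bb ^ 2 →
      ‖(((ev b3 s / S) ^ 3 : ℝ) : ℂ) * zz lam S x3 g3 s - kep (zz lam S x3 g3 s)‖ ≤ 8 * (wt o s / 2 ^ e2) * Bb ^ 2 →
      (n12 : ℝ) / 3 + 2 * (nc / 3) ≤ 2 →
      ‖zz lam (qd * S) Ax Ag s - (-(((n12 : ℝ) / 3 : ℝ) : ℂ) * kep (zz lam S x1 g1 s) +
        (((nc : ℝ) / 3 : ℝ) : ℂ) * (kep (zz lam S x2 g2 s) - kep (zz lam S x3 g3 s)))‖ ≤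
        wt o s * ((1 + lam) / 2 ^ e1 + 16 * Bb ^ 2 / 2 ^ e2) := by
    intro n12 nc Ax Ag x1 g1 b1 x2 g2 b2 x3 g3 b3 c1 c2 k1 k2 k3 hn
    push_cast at c1 c2
    set α : ℝ := (n12 : ℝ) / 3 with hα
    set ν : ℝ := (nc : ℝ) / 3 with hν
    have hα0 : 0 ≤ α := by positivity
    have hν0 : 0 ≤ ν := by positivity
    set β1 := ev b1 s / S
    set β2 := ev b2 s / S
    set β3 := ev b3 s / S
    set Y : ℂ := -(α : ℂ) * (((β1 ^ 3 : ℝ) : ℂ) * zz lam S x1 g1 s) +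
      (ν : ℂ) * (((β2 ^ 3 : ℝ) : ℂ) * zz lam S x2 g2 s - ((β3 ^ 3 : ℝ) : ℂ) * zz lam S x3 g3 s) with hY
    have y1 : ‖zz lam (qd * S) Ax Ag s - Y‖ ≤ wt o s / 2 ^ e1 + lam * (wt o s / 2 ^ e1) := by
      apply norm_le_of_parts
      · have : (zz lam (qd * S) Ax Ag s - Y).re = ev Ax s / (qd * S) - (-α * (β1 ^ 3 * (ev x1 s / S)) +
            ν * (β2 ^ 3 * (ev x2 s / S) - β3 ^ 3 * (ev x3 s / S))) := by
          rw [hY]
          simp only [zz, Complex.sub_re, Complex.add_re, Complex.mul_re, Complex.neg_re, Complex.neg_im,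
            Complex.ofReal_re, Complex.ofReal_im, Complex.sub_im, Complex.mul_im]
          ring
        rw [this]; exact c1
      · have : (zz lam (qd * S) Ax Ag s - Y).im = lam * (ev Ag s / (qd * S) - (-α * (β1 ^ 3 * (ev g1 s / S)) +
            ν * (β2 ^ 3 * (ev g2 s / S) - β3 ^ 3 * (ev g3 s / S)))) := by
          rw [hY]
          simp only [zz, Complex.sub_re, Complex.add_im, Complex.mul_re, Complex.neg_re, Complex.neg_im,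
            Complex.ofReal_re, Complex.ofReal_im, Complex.sub_im, Complex.mul_im]
          ring
        rw [this, abs_mul, abs_of_nonneg hlam]
        exact mul_le_mul_of_nonneg_left c2 hlam
    have y2 : ‖Y - (-(α : ℂ) * kep (zz lam S x1 g1 s) +
        (ν : ℂ) * (kep (zz lam S x2 g2 s) - kep (zz lam S x3 g3 s)))‖ ≤
        (α + 2 * ν) * (8 * (wt o s / 2 ^ e2) * Bb ^ 2) := by
      have : Y - (-(α : ℂ) * kep (zz lam S x1 g1 s) +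
        (ν : ℂ) * (kep (zz lam S x2 g2 s) - kep (zz lam S x3 g3 s))) =
        -(α : ℂ) * (((β1 ^ 3 : ℝ) : ℂ) * zz lam S x1 g1 s - kep (zz lam S x1 g1 s)) +
        ((ν : ℂ) * (((β2 ^ 3 : ℝ) : ℂ) * zz lam S x2 g2 s - kep (zz lam S x2 g2 s)) -
        (ν : ℂ) * (((β3 ^ 3 : ℝ) : ℂ) * zz lam S x3 g3 s - kep (zz lam S x3 g3 s))) := by
        rw [hY]; ring
      rw [this]
      refine (norm_add_le _ _).trans ?_
      refine (add_le_add_right (norm_sub_le _ _) _).trans ?_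
      rw [norm_mul, norm_mul, norm_mul, norm_neg, Complex.norm_real, Complex.norm_real,
        Real.norm_of_nonneg hα0, Real.norm_of_nonneg hν0]
      have t1 := mul_le_mul_of_nonneg_left k1 hα0
      have t2 := mul_le_mul_of_nonneg_left k2 hν0
      have t3 := mul_le_mul_of_nonneg_left k3 hν0
      nlinarith
    have y3 : (α + 2 * ν) * (8 * (wt o s / 2 ^ e2) * Bb ^ 2) ≤ 2 * (8 * (wt o s / 2 ^ e2) * Bb ^ 2) := by
      gcongr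
    have y4 := norm_sub_le_norm_sub_add_norm_sub (zz lam (qd * S) Ax Ag s) Y
      (-(α : ℂ) * kep (zz lam S x1 g1 s) + (ν : ℂ) * (kep (zz lam S x2 g2 s) - kep (zz lam S x3 g3 s)))
    have y5 : wt o s * ((1 + lam) / 2 ^ e1 + 16 * Bb ^ 2 / 2 ^ e2) = (wt o s / 2 ^ e1 + lam * (wt o s / 2 ^ e1)) +
        2 * (8 * (wt o s / 2 ^ e2) * Bb ^ 2) := by ring
    rw [y5]
    linarith
  have f1 := comp 2 1 _ _ _ _ _ _ _ _ _ _ _ s1 s2 b1 b2 (by rw [hsum]; exact b3) (by norm_num)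
  have f2 := comp 2 1 _ _ _ _ _ _ _ _ _ _ _ s3 s4 b2 b1 (by rw [hsum]; exact b3) (by norm_num)
  rw [hsum] at f1 f2
  have hm12 : (1 / 3 + 1 / 3 : ℝ) = 2 / 3 := by norm_num
  rw [Prod.norm_def]
  refine max_le ?_ ?_
  · refine le_trans (le_of_eq ?_) f1
    show ‖zz lam (qd * S) Aux Aug s - (-((1 / 3 + 1 / 3 : ℝ) : ℂ) * kep (zz lam S d.ux d.ug s) +
      ((1 / 3 : ℝ) : ℂ) * (kep (zz lam S d.wx d.wg s) - kep (zz lam S d.ux d.ug s + zz lam S d.wx d.wg s)))‖ = _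
    rw [hm12]
    simp only [Nat.cast_ofNat, Nat.cast_one]
  · refine le_trans (le_of_eq ?_) f2
    show ‖zz lam (qd * S) Awx Awg s - (-((1 / 3 + 1 / 3 : ℝ) : ℂ) * kep (zz lam S d.wx d.wg s) +
      ((1 / 3 : ℝ) : ℂ) * (kep (zz lam S d.ux d.ug s) - kep (zz lam S d.ux d.ug s + zz lam S d.wx d.wg s)))‖ = _
    rw [hm12]
    simp only [Nat.cast_ofNat, Nat.cast_one]

end Pool.Agent.H99.TB
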