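import Pool.Agent.H99.LG.Snd

/-! One link of the chain of steps. -/

set_option autoImplicit false

namespace Pool.Agent.H99.LG

open Set Complex Pool.Agent.H99.TB Pool.Agent.H99.TB.Poly Pool.Agent.H3.LG

/-- closeness to the node data -/
def Inv3 (d : TD3) (z : E × E) : Prop :=
  (d.kk / 100 : ℝ) * ‖z.1 - d.p 0‖ ≤ d.nn / 2 ^ 130 ∧ ‖z.2 - d.pd 0‖ ≤ d.nn / 2 ^ 130

theorem growth3 {n inc n' k k' hb : ℕ} (hk : k ≤ 12800 * 2 ^ hb)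
    (h : (n + inc) * (25600 * 2 ^ hb) ^ 256 * max k k' ≤ n' * (25600 * 2 ^ hb - k) ^ 256 * k) :
    ((n : ℝ) + inc) * Real.exp (k / 100 * (1 / 2 ^ hb)) * max (k : ℝ) k' ≤ n' * k := by
  obtain ⟨M, hM⟩ : ∃ M : ℕ, M = 256 := ⟨_, rfl⟩
  obtain ⟨D, hD⟩ : ∃ D : ℕ, D = 25600 * 2 ^ hb := ⟨_, rfl⟩
  rw [← hD, ← hM] at h
  have hkD : 2 * k ≤ D := by rw [hD]; omega
  have hDR : (D : ℝ) = 25600 * 2 ^ hb := by rw [hD]; push_cast; ring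
  have hMR : (M : ℝ) = 256 := by rw [hM]; norm_num
  have hD0 : (0:ℝ) < D := by rw [hDR]; positivity
  set x : ℝ := k / D with hx
  have hkR : 2 * (k : ℝ) ≤ D := by exact_mod_cast hkD
  have hx1 : x ≤ 1 / 2 := by rw [hx, div_le_iff₀ hD0]; linarith
  have h1 : ((n : ℝ) + inc) * (D : ℝ) ^ M * max (k : ℝ) k' ≤ n' * ((D : ℝ) - k) ^ M * k := by
    have : ((D - k : ℕ) : ℝ) = D - k := by rw [Nat.cast_sub (by omega)]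
    rw [← this]
    have : max (k : ℝ) k' = ((max k k' : ℕ) : ℝ) := by push_cast; rfl
    rw [this]
    exact_mod_cast h
  have h2 : ((n : ℝ) + inc) * max (k : ℝ) k' ≤ n' * (1 - x) ^ M * k := by
    have e : ((D : ℝ) - (k : ℝ)) = D * (1 - x) := by rw [hx]; field_simp
    rw [e, mul_pow] at h1
    have hp : (0:ℝ) < (D : ℝ) ^ M := by positivity
    refine le_of_mul_le_mul_right ?_ hp
    calc ((n : ℝ) + inc) * max (k : ℝ) k' * (D : ℝ) ^ M = ((n : ℝ) + inc) * (D : ℝ) ^ M * max (k : ℝ) k' := by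
          rw [mul_right_comm]
      _ ≤ _ := h1
      _ = n' * (1 - x) ^ M * k * (D : ℝ) ^ M := by
          rw [mul_comm ((D : ℝ) ^ M), ← mul_assoc, mul_right_comm]
  have h3 : (1 - x) ^ M ≤ Real.exp (-x) ^ M := by
    apply pow_le_pow_left₀
    · linarith
    · exact Real.one_sub_le_exp_neg x
  have h4 : Real.exp (-x) ^ M * Real.exp (k / 100 * (1 / 2 ^ hb)) = 1 := by
    rw [← Real.exp_nat_mul, ← Real.exp_add, Real.exp_eq_one_iff, hx, hMR, hDR]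
    field_simp
    ring
  calc ((n : ℝ) + inc) * Real.exp (k / 100 * (1 / 2 ^ hb)) * max (k : ℝ) k' =
        (((n : ℝ) + inc) * max (k : ℝ) k') * Real.exp (k / 100 * (1 / 2 ^ hb)) := by rw [mul_right_comm]
    _ ≤ (n' * (1 - x) ^ M * k) * Real.exp (k / 100 * (1 / 2 ^ hb)) := by gcongr
    _ ≤ (n' * Real.exp (-x) ^ M * k) * Real.exp (k / 100 * (1 / 2 ^ hb)) := by gcongr
    _ = n' * k * (Real.exp (-x) ^ M * Real.exp (k / 100 * (1 / 2 ^ hb))) := by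
        rw [mul_assoc (n' : ℝ), mul_comm (Real.exp (-x) ^ M) (k : ℝ), ← mul_assoc, mul_assoc]
    _ = n' * k := by rw [h4, mul_one]

theorem kep_norm20 {x : ℂ} (h : 1 / 20 ≤ ‖x‖) : ‖kep x‖ ≤ 400 := by
  rw [← ker_eq h]
  refine (ker_norm (by norm_num) x).trans ?_
  norm_num

theorem mass_defect {m : Fin 3 → ℝ} (hm : Near3 m (1 / 10 ^ 45)) {x : E} (h1 : 1 / 20 ≤ ‖x.1‖)
    (h2 : 1 / 20 ≤ ‖x.2‖) (h3 : 1 / 20 ≤ ‖x.1 + x.2‖) :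
    ‖rf kep (1 / 3) (1 / 3) (1 / 3) x - rf kep (m 0) (m 1) (m 2) x‖ ≤ 1 / 10 ^ 41 := by
  have key : ∀ (a b c : ℝ) (p q r : ℂ), |a - 1 / 3| ≤ 1 / 10 ^ 45 → |b - 1 / 3| ≤ 1 / 10 ^ 45 →
      |c - 1 / 3| ≤ 1 / 10 ^ 45 → ‖p‖ ≤ 400 → ‖q‖ ≤ 400 → ‖r‖ ≤ 400 →
      ‖(-((1 / 3 + 1 / 3 : ℝ) : ℂ) * p + ((1 / 3 : ℝ) : ℂ) * (q - r)) -
        (-((a + b : ℝ) : ℂ) * p + (c : ℂ) * (q - r))‖ ≤ 1 / 10 ^ 41 := by
    intro a b c p q r ha hb hc hp hq hr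
    have e : (-((1 / 3 + 1 / 3 : ℝ) : ℂ) * p + ((1 / 3 : ℝ) : ℂ) * (q - r)) -
        (-((a + b : ℝ) : ℂ) * p + (c : ℂ) * (q - r)) =
        (((a - 1 / 3) + (b - 1 / 3) : ℝ) : ℂ) * p - ((c - 1 / 3 : ℝ) : ℂ) * (q - r) := by
      push_cast; ring
    rw [e]
    refine (norm_sub_le _ _).trans ?_
    rw [norm_mul, norm_mul, norm_real, norm_real, Real.norm_eq_abs, Real.norm_eq_abs]
    have t1 : |(a - 1 / 3) + (b - 1 / 3)| ≤ 2 / 10 ^ 45 := by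
      refine (abs_add_le _ _).trans ?_
      linarith
    have t2 : ‖q - r‖ ≤ 800 := (norm_sub_le _ _).trans (by linarith)
    calc |(a - 1 / 3) + (b - 1 / 3)| * ‖p‖ + |c - 1 / 3| * ‖q - r‖ ≤ 2 / 10 ^ 45 * 400 + 1 / 10 ^ 45 * 800 := by
          gcongr
      _ ≤ 1 / 10 ^ 41 := by norm_num
  have k1 := kep_norm20 h1
  have k2 := kep_norm20 h2
  have k3 := kep_norm20 h3
  rw [Prod.norm_def]
  exact max_le (key _ _ _ _ _ _ (hm.2 0) (hm.2 1) (hm.2 2) k1 k2 k3)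
    (key _ _ _ _ _ _ (hm.2 1) (hm.2 2) (hm.2 0) k2 k1 k3)

theorem L_bound {a b c μ ν L : ℝ} (ha : 0 ≤ a) (hb : 0 ≤ b) (hc : 0 ≤ c)
    (h : (2 / 3 * a + 1 / 3 * (b + 2 * c)) * (1 + 1 / 2 ^ 30) ≤ L) (h1 : μ ≤ 2 / 3 * (1 + 1 / 2 ^ 30))
    (h2 : ν ≤ 1 / 3 * (1 + 1 / 2 ^ 30)) : μ * a + ν * (b + 2 * c) ≤ L := by
  calc μ * a + ν * (b + 2 * c) ≤ (2 / 3 * (1 + 1 / 2 ^ 30)) * a + (1 / 3 * (1 + 1 / 2 ^ 30)) * (b + 2 * c) := by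
        gcongr
    _ = (2 / 3 * a + 1 / 3 * (b + 2 * c)) * (1 + 1 / 2 ^ 30) := by ring
    _ ≤ L := h

theorem L_check {r1 r2 r3 k : ℕ} (h1 : 0 < r1) (h2 : 0 < r2) (h3 : 0 < r3)
    (h : 10 ^ 16 * (4 * r2 ^ 3 * r3 ^ 3 + 2 * r1 ^ 3 * r3 ^ 3 + 4 * r1 ^ 3 * r2 ^ 3) * (2 ^ 30 + 1) ≤
      3 * k ^ 2 * 2 ^ 30 * r1 ^ 3 * r2 ^ 3 * r3 ^ 3) :
    (2 / 3 * (2 / (r1 / 10 ^ 4 : ℝ) ^ 3) + 1 / 3 * (2 / (r2 / 10 ^ 4 : ℝ) ^ 3 + 2 * (2 / (r3 / 10 ^ 4 : ℝ) ^ 3))) *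
      (1 + 1 / 2 ^ 30) ≤ (k / 100 : ℝ) ^ 2 := by
  have p1 : (0:ℝ) < r1 := by exact_mod_cast h1
  have p2 : (0:ℝ) < r2 := by exact_mod_cast h2
  have p3 : (0:ℝ) < r3 := by exact_mod_cast h3
  have hR : (10 ^ 16 * (4 * r2 ^ 3 * r3 ^ 3 + 2 * r1 ^ 3 * r3 ^ 3 + 4 * r1 ^ 3 * r2 ^ 3) * (2 ^ 30 + 1) : ℝ) ≤
      3 * k ^ 2 * 2 ^ 30 * r1 ^ 3 * r2 ^ 3 * r3 ^ 3 := by exact_mod_cast h
  have e : (2 / 3 * (2 / (r1 / 10 ^ 4 : ℝ) ^ 3) + 1 / 3 * (2 / (r2 / 10 ^ 4 : ℝ) ^ 3 + 2 * (2 / (r3 / 10 ^ 4 : ℝ) ^ 3))) *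
      (1 + 1 / 2 ^ 30) = (10 ^ 16 * (4 * r2 ^ 3 * r3 ^ 3 + 2 * r1 ^ 3 * r3 ^ 3 + 4 * r1 ^ 3 * r2 ^ 3) * (2 ^ 30 + 1)) /
      (3 * 10 ^ 4 * 2 ^ 30 * r1 ^ 3 * r2 ^ 3 * r3 ^ 3) := by
    field_simp
    ring
  rw [e, div_le_iff₀ (by positivity)]
  calc _ ≤ _ := hR
    _ = _ := by ring

theorem ev_int (l : List ℤ) (n : ℤ) : ev l (n : ℝ) = (evI l n : ℝ) := by
  induction l with
  | nil => simp [evI]
  | cons a l ih => simp only [ev_cons, evI, ih]; push_cast; ring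

theorem jump3 {x g x' g' : List ℤ} {sb sb' A Q : ℕ}
    (h1 : jmp sb sb' x x' * A ≤ Q * 2 ^ (sb + sb')) (h2 : jmp sb sb' g g' * A ≤ Q * 2 ^ (sb + sb')) (hA : 0 < A) :
    ‖zz 1 (2 ^ sb) x g 1 - zz 1 (2 ^ sb') x' g' 0‖ ≤ Q / A + Q / A := by
  have hAR : (0:ℝ) < A := by exact_mod_cast hA
  have key : ∀ l l' : List ℤ, jmp sb sb' l l' * A ≤ Q * 2 ^ (sb + sb') →
      |ev l 1 / 2 ^ sb - ev l' 0 / 2 ^ sb'| ≤ Q / A := by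
    intro l l' h
    have e : ev l 1 / 2 ^ sb - ev l' 0 / 2 ^ sb' =
        ((evI l 1 * 2 ^ sb' - evI l' 0 * 2 ^ sb : ℤ) : ℝ) / 2 ^ (sb + sb') := by
      have a1 := ev_int l 1
      have a2 := ev_int l' 0
      rw [Int.cast_one] at a1
      rw [Int.cast_zero] at a2
      rw [a1, a2]
      push_cast
      rw [pow_add]
      field_simp
    rw [e, abs_div, abs_of_pos (by positivity : (0:ℝ) < 2 ^ (sb + sb')), div_le_div_iff₀ (by positivity) hAR]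
    have : |((evI l 1 * 2 ^ sb' - evI l' 0 * 2 ^ sb : ℤ) : ℝ)| = (jmp sb sb' l l' : ℝ) := by
      rw [jmp, Nat.cast_natAbs, Int.cast_abs]
    rw [this]
    exact_mod_cast h
  apply norm_le_of_parts
  · have : (zz 1 (2 ^ sb) x g 1 - zz 1 (2 ^ sb') x' g' 0).re = ev x 1 / 2 ^ sb - ev x' 0 / 2 ^ sb' := by
      simp [zz]
    rw [this]; exact key _ _ h1
  · have : (zz 1 (2 ^ sb) x g 1 - zz 1 (2 ^ sb') x' g' 0).im = ev g 1 / 2 ^ sb - ev g' 0 / 2 ^ sb' := by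
      simp [zz]
    rw [this]; exact key _ _ h2

end Pool.Agent.H99.LG
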