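import Pool.Agent.H99.LG.Link

/-! One link of the chain of steps. -/

set_option autoImplicit false

namespace Pool.Agent.H99.LG

open Set Complex Pool.Agent.H99.TB Pool.Agent.H99.TB.Poly Pool.Agent.H3.LG

theorem link3 {m : Fin 3 → ℝ} (hm : Near3 m (1 / 10 ^ 45)) {γ : ℝ → E × E} (hγ : Sol m γ) {t0 : ℝ} {d e : TD3}
    (h : (okD d && (okR d && (okM d && okJ d e))) = true) (inv : Inv3 d (γ t0)) :
    (∀ t ∈ Icc t0 (t0 + 1 / 2 ^ d.hb), 1 / 20 ≤ ‖(γ t).1.1‖ ∧ 1 / 20 ≤ ‖(γ t).1.2‖ ∧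
      1 / 20 ≤ ‖(γ t).1.1 + (γ t).1.2‖ ∧ ‖(γ t).2‖ ≤ 31) ∧ Inv3 e (γ (t0 + 1 / 2 ^ d.hb)) := by
  simp only [Bool.and_eq_true] at h
  obtain ⟨hD, hR, hM, hJ⟩ := h
  have hR' := hR
  have hM' := hM
  simp only [okR, okM, okJ, Bool.and_eq_true, decide_eq_true_eq] at hR' hM' hJ
  obtain ⟨⟨⟨⟨⟨⟨⟨⟨⟨-, -⟩, -⟩, -⟩, -⟩, -⟩, a7⟩, a8⟩, -⟩, -⟩ := hR'
  obtain ⟨⟨⟨⟨⟨⟨⟨⟨⟨m1, m2⟩, m3⟩, m4⟩, m5⟩, m6⟩, m7⟩, m8⟩, m9⟩, m10⟩ := hM'
  obtain ⟨⟨⟨⟨⟨⟨⟨⟨⟨⟨j1, j2⟩, j3⟩, j4⟩, j5⟩, j6⟩, j7⟩, j8⟩, j9⟩, j10⟩, j11⟩ := hJ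
  have g1 := growth3 m10 j1
  clear j1
  have z1 : 0 < d.r1 := Nat.lt_of_lt_of_le (by norm_num) m1
  have z2 : 0 < d.r2 := Nat.lt_of_lt_of_le (by norm_num) m2
  have z3 : 0 < d.r3 := Nat.lt_of_lt_of_le (by norm_num) m3
  have LC1 := L_check z1 z2 z3 a7
  have LC2 := L_check (r1 := d.r2) (r2 := d.r1) (r3 := d.r3) (k := d.kk) z2 z1 z3 (by
        calc _ = 10 ^ 16 * (4 * d.r1 ^ 3 * d.r3 ^ 3 + 2 * d.r2 ^ 3 * d.r3 ^ 3 + 4 * d.r1 ^ 3 * d.r2 ^ 3) * (2 ^ 30 + 1) := by ring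
          _ ≤ _ := a8
          _ = _ := by ring)
  clear a7 a8
  have hkk : (0:ℝ) < d.kk := by exact_mod_cast m5
  have hrr : (0:ℝ) < d.rr := by exact_mod_cast m4
  have r1' : (500:ℝ) ≤ d.r1 := by exact_mod_cast m1
  have r2' : (500:ℝ) ≤ d.r2 := by exact_mod_cast m2
  have r3' : (500:ℝ) ≤ d.r3 := by exact_mod_cast m3
  have hq : ∀ r : ℝ, 500 ≤ r → 1 / 20 ≤ r / 10 ^ 4 := by
    intro r hr
    rw [le_div_iff₀ (by positivity)]; linarith
  have hmr : ∀ a, 1 / 3 - 1 / 10 ^ 45 ≤ m a ∧ m a ≤ 1 / 3 + 1 / 10 ^ 45 := fun a => by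
    have := abs_le.1 (hm.2 a)
    constructor <;> linarith [this.1, this.2]
  have hm0 : ∀ a, 0 ≤ m a := fun a => le_trans (by norm_num) (hmr a).1
  have h45 : (1 / 10 ^ 45 : ℝ) ≤ 1 / 3 * (1 / 2 ^ 30) := by norm_num
  have hma : ∀ a, m a ≤ 1 / 3 * (1 + 1 / 2 ^ 30) := fun a => by
    have := (hmr a).2
    linarith
  set h : ℝ := 1 / 2 ^ d.hb with hh
  have hh0 : 0 < h := by positivity
  have hh1 : h * 2 ^ d.hb = 1 := by rw [hh]; field_simp
  set κ : ℝ := d.kk / 100 with hκ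
  have hκ0 : 0 < κ := by positivity
  set c' : ℝ := 1 / 2 ^ d.eb with hc'
  have hc0 : 0 < c' := by positivity
  -- growth
  have g3 : c' * h ≤ d.inc / 2 ^ 131 := by
    have j3' : (2 ^ 131 : ℝ) ≤ d.inc * 2 ^ (d.eb + d.hb) := by exact_mod_cast j3
    rw [hc', hh, div_mul_div_comm, one_mul, ← pow_add, div_le_div_iff₀ (by positivity) (by positivity), one_mul]
    exact j3'
  set EE : ℝ := Real.exp (κ * h) with hEE
  have hEE1 : 1 ≤ EE := Real.one_le_exp (by positivity)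
  set bend : ℝ := (d.nn / 2 ^ 130 + c' * h) * EE with hbend
  have hbend0 : 0 ≤ bend := by positivity
  -- the bound at the end, with the change of the weight
  have g4 : (d.nn / 2 ^ 130 + c' * h + d.inc / 2 ^ 131) * EE * max (d.kk : ℝ) e.kk ≤ e.nn / 2 ^ 130 * d.kk := by
    have e1 : (d.nn / 2 ^ 130 + c' * h + d.inc / 2 ^ 131 : ℝ) ≤ (d.nn + d.inc) / 2 ^ 130 := by
      have : ((d.nn : ℝ) + d.inc) / 2 ^ 130 = d.nn / 2 ^ 130 + d.inc / 2 ^ 131 + d.inc / 2 ^ 131 := by ring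
      rw [this]; linarith
    calc (d.nn / 2 ^ 130 + c' * h + d.inc / 2 ^ 131) * EE * max (d.kk : ℝ) e.kk
        ≤ ((d.nn + d.inc) / 2 ^ 130) * EE * max (d.kk : ℝ) e.kk := by gcongr
      _ = (((d.nn : ℝ) + d.inc) * EE * max (d.kk : ℝ) e.kk) / 2 ^ 130 := by ring
      _ ≤ (e.nn * d.kk) / 2 ^ 130 := by gcongr
      _ = _ := by ring
  have hinc0 : (0:ℝ) ≤ d.inc / 2 ^ 131 := by positivity
  have g5 : bend + d.inc / 2 ^ 131 ≤ e.nn / 2 ^ 130 := by
    have e1 : (d.nn / 2 ^ 130 + c' * h + d.inc / 2 ^ 131) * EE * d.kk ≤ e.nn / 2 ^ 130 * d.kk := by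
      refine le_trans ?_ g4
      gcongr
      exact le_max_left _ _
    have e2 := le_of_mul_le_mul_right e1 hkk
    refine le_trans ?_ e2
    rw [hbend]
    nlinarith
  have g6 : e.kk / d.kk * bend + d.inc / 2 ^ 131 ≤ e.nn / 2 ^ 130 := by
    by_cases hc : (e.kk : ℝ) ≤ d.kk
    · have : (e.kk : ℝ) / d.kk ≤ 1 := by rw [div_le_one hkk]; exact hc
      nlinarith
    · push Not at hc
      have e1 : (d.nn / 2 ^ 130 + c' * h + d.inc / 2 ^ 131) * EE * e.kk ≤ e.nn / 2 ^ 130 * d.kk := by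
        refine le_trans ?_ g4
        gcongr
        exact le_max_right _ _
      have e2 : (d.nn / 2 ^ 130 + c' * h + d.inc / 2 ^ 131) * EE * (e.kk / d.kk) ≤ e.nn / 2 ^ 130 := by
        rw [← mul_div_assoc, div_le_iff₀ hkk]; exact e1
      refine le_trans ?_ e2
      have e3 : 1 ≤ (e.kk : ℝ) / d.kk := by rw [one_le_div hkk]; exact hc.le
      have e4 : d.inc / 2 ^ 131 ≤ d.inc / 2 ^ 131 * EE * (e.kk / d.kk : ℝ) := by
        rw [mul_assoc]
        exact le_mul_of_one_le_right hinc0 (one_le_mul_of_one_le_of_one_le hEE1 e3)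
      calc (e.kk / d.kk : ℝ) * bend + d.inc / 2 ^ 131 ≤
            (e.kk / d.kk : ℝ) * bend + d.inc / 2 ^ 131 * EE * (e.kk / d.kk : ℝ) := by linarith
        _ = _ := by rw [hbend]; ring
  have g7 : (e.nn : ℝ) / 2 ^ 130 ≤ κ * (1 / d.rr) := by
    have j2' : (e.nn : ℝ) * 100 * d.rr ≤ 2 ^ 130 * d.kk := by exact_mod_cast j2
    have : κ * (1 / d.rr) = d.kk / (100 * d.rr) := by rw [hκ]; field_simp
    rw [this, div_le_div_iff₀ (by positivity) (by positivity)]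
    calc (e.nn : ℝ) * (100 * d.rr) = e.nn * 100 * d.rr := by ring
      _ ≤ 2 ^ 130 * d.kk := j2'
      _ = d.kk * 2 ^ 130 := by ring
  have g8 : κ * (1 / d.rr) ≤ 1 := by
    have m6' : (d.kk : ℝ) ≤ 100 * d.rr := by exact_mod_cast m6
    have : κ * (1 / d.rr) = d.kk / (100 * d.rr) := by rw [hκ]; field_simp
    rw [this, div_le_one (by positivity)]; exact m6'
  have hbendR : bend ≤ κ * (1 / d.rr) := by linarith
  -- the pieces
  have loc : ∀ t ∈ Ico t0 (t0 + h), 0 ≤ (t - t0) * 2 ^ d.hb ∧ (t - t0) * 2 ^ d.hb ≤ 1 := by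
    intro t ht
    have e1 : 0 ≤ t - t0 := by linarith [ht.1]
    refine ⟨by positivity, ?_⟩
    rw [← hh1]
    have : t - t0 ≤ h := by linarith [ht.2]
    gcongr
  have locc : ∀ t ∈ Icc t0 (t0 + h), 0 ≤ (t - t0) * 2 ^ d.hb ∧ (t - t0) * 2 ^ d.hb ≤ 1 := by
    intro t ht
    have e1 : 0 ≤ t - t0 := by linarith [ht.1]
    refine ⟨by positivity, ?_⟩
    rw [← hh1]
    have : t - t0 ≤ h := by linarith [ht.2]
    gcongr
  set b : ℝ → ℝ := fun t => (d.nn / 2 ^ 130 + c' * (t - t0)) * Real.exp (κ * (t - t0)) with hb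
  set b' : ℝ → ℝ := fun t => c' * Real.exp (κ * (t - t0)) +
    (d.nn / 2 ^ 130 + c' * (t - t0)) * (Real.exp (κ * (t - t0)) * κ) with hb'
  have hbd : ∀ t, HasDerivAt b (b' t) t := by
    intro t
    have e1 : HasDerivAt (fun t : ℝ => (d.nn / 2 ^ 130 : ℝ) + c' * (t - t0)) c' t := by
      have := (((hasDerivAt_id t).sub_const t0).const_mul c').const_add (d.nn / 2 ^ 130 : ℝ)
      simpa using this
    have e2 : HasDerivAt (fun t : ℝ => Real.exp (κ * (t - t0))) (Real.exp (κ * (t - t0)) * κ) t := by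
      have := ((hasDerivAt_id t).sub_const t0).const_mul κ
      simp only [id, mul_one] at this
      exact this.exp
    exact e1.mul e2
  have hbm : ∀ t ∈ Icc t0 (t0 + h), b t ≤ bend := by
    intro t ht
    show (d.nn / 2 ^ 130 + c' * (t - t0)) * Real.exp (κ * (t - t0)) ≤ _
    have e0 : t - t0 ≤ h := by linarith [ht.2]
    have e1 : Real.exp (κ * (t - t0)) ≤ EE := Real.exp_le_exp.2 (by gcongr)
    have e2 : (0:ℝ) ≤ d.nn / 2 ^ 130 + c' * h := by positivity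
    rw [hbend]
    gcongr
  have cmp := compare (ε := 1 / 100) (B := 32) (m1 := m 0) (m2 := m 1) (m3 := m 2) (hm0 0) (hm0 1) (hm0 2) hγ
    (by norm_num) (p := fun t => d.p ((t - t0) * 2 ^ d.hb)) (pd := fun t => d.pd ((t - t0) * 2 ^ d.hb))
    (pdd := fun t => d.pdd ((t - t0) * 2 ^ d.hb)) (d.hp t0) (d.hpd t0) (α := t0) (β := t0 + h) (κ := κ) (K := κ)
    (R := 1 / d.rr) (L := κ ^ 2) (r1 := d.r1 / 10 ^ 4) (r2 := d.r2 / 10 ^ 4) (r3 := d.r3 / 10 ^ 4) (b := b) (b' := b')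
    (δ := fun _ => 1 / 2 * (1 / 2 ^ d.eb) + 1 / 10 ^ 41) hbd hκ0 (by positivity) (by positivity) (by positivity)
    (le_trans (by norm_num) (hq _ r1')) (le_trans (by norm_num) (hq _ r2')) (le_trans (by norm_num) (hq _ r3'))
    (fun t ht => (okD_sound hD hR hM (loc t ht).1 (loc t ht).2).1)
    (fun t ht => (okD_sound hD hR hM (loc t ht).1 (loc t ht).2).2.1)
    (fun t ht => (okD_sound hD hR hM (loc t ht).1 (loc t ht).2).2.2.1)
    (fun t ht => by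
      have := (okD_sound hD hR hM (loc t ht).1 (loc t ht).2).2.2.2.1
      linarith)
    (L_bound (by positivity) (by positivity) (by positivity) LC1
      (by have h1 := hma 0; have h2 := hma 1; linarith) (hma 2))
    (L_bound (by positivity) (by positivity) (by positivity) LC2
      (by have h1 := hma 1; have h2 := hma 2; linarith) (hma 0))
    le_rfl (by rw [pow_two])
    (fun t ht => by
      obtain ⟨q1, q2, q3, q4, q5⟩ := okD_sound hD hR hM (loc t ht).1 (loc t ht).2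
      have hrr' : (0:ℝ) < 1 / d.rr := by positivity
      have md := mass_defect hm (x := d.p ((t - t0) * 2 ^ d.hb)) (by have := hq _ r1'; linarith)
        (by have := hq _ r2'; linarith) (by have := hq _ r3'; linarith)
      have := norm_sub_le_norm_sub_add_norm_sub (d.pdd ((t - t0) * 2 ^ d.hb))
        (rf kep (1 / 3) (1 / 3) (1 / 3) (d.p ((t - t0) * 2 ^ d.hb))) (rf kep (m 0) (m 1) (m 2) (d.p ((t - t0) * 2 ^ d.hb)))
      linarith)
    (fun t ht => (hbm t (Ico_subset_Icc_self ht)).trans hbendR)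
    (fun t ht => by
      have e1 : 1 ≤ Real.exp (κ * (t - t0)) := Real.one_le_exp (mul_nonneg hκ0.le (by linarith [ht.1]))
      have e2 : (1 / 10 ^ 41 : ℝ) < 1 / 2 * (1 / 2 ^ d.eb) := by
        have : (1 / 2 ^ 110 : ℝ) ≤ 1 / 2 ^ d.eb := by
          apply one_div_le_one_div_of_le (by positivity)
          exact pow_le_pow_right₀ (by norm_num) m8
        have : (1 / 10 ^ 41 : ℝ) < 1 / 2 * (1 / 2 ^ 110) := by norm_num
        linarith
      have e3 : κ * b t = (d.nn / 2 ^ 130 + c' * (t - t0)) * (Real.exp (κ * (t - t0)) * κ) := by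
        rw [hb]; ring
      have e4 : c' ≤ c' * Real.exp (κ * (t - t0)) := le_mul_of_one_le_right hc0.le e1
      show κ * b t + (1 / 2 * (1 / 2 ^ d.eb) + 1 / 10 ^ 41) < c' * Real.exp (κ * (t - t0)) +
        (d.nn / 2 ^ 130 + c' * (t - t0)) * (Real.exp (κ * (t - t0)) * κ)
      rw [e3]
      have : c' = 1 / 2 * (1 / 2 ^ d.eb) + 1 / 2 * (1 / 2 ^ d.eb) := by rw [hc']; ring
      linarith)
    (by
      have : b t0 = d.nn / 2 ^ 130 := by rw [hb]; simp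
      rw [this]
      have e0 : (t0 - t0) * (2:ℝ) ^ d.hb = 0 := by ring
      simp only [e0]
      exact max_le inv.1 inv.2)
  constructor
  · intro t ht
    have c1 := (cmp t ht).trans (hbm t ht)
    have c2 := (le_max_left _ _).trans c1
    have c3 := (le_max_right _ _).trans c1
    obtain ⟨q1, q2, q3, q4, q5⟩ := okD_sound hD hR hM (locc t ht).1 (locc t ht).2
    have c4 : ‖(γ t).1 - d.p ((t - t0) * 2 ^ d.hb)‖ ≤ 1 / d.rr :=
      le_of_mul_le_mul_left (c2.trans hbendR) hκ0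
    have c5 : ‖(γ t).1.1 - (d.p ((t - t0) * 2 ^ d.hb)).1‖ ≤ 1 / d.rr :=
      (norm_fst_le ((γ t).1 - d.p ((t - t0) * 2 ^ d.hb))).trans c4
    have c6 : ‖(γ t).1.2 - (d.p ((t - t0) * 2 ^ d.hb)).2‖ ≤ 1 / d.rr :=
      (norm_snd_le ((γ t).1 - d.p ((t - t0) * 2 ^ d.hb))).trans c4
    have c7 : ‖(γ t).1.1 + (γ t).1.2 - ((d.p ((t - t0) * 2 ^ d.hb)).1 + (d.p ((t - t0) * 2 ^ d.hb)).2)‖ ≤
        2 * (1 / d.rr) := by
      have e : (γ t).1.1 + (γ t).1.2 - ((d.p ((t - t0) * 2 ^ d.hb)).1 + (d.p ((t - t0) * 2 ^ d.hb)).2) =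
          ((γ t).1.1 - (d.p ((t - t0) * 2 ^ d.hb)).1) + ((γ t).1.2 - (d.p ((t - t0) * 2 ^ d.hb)).2) := by ring
      rw [e]
      have := norm_add_le ((γ t).1.1 - (d.p ((t - t0) * 2 ^ d.hb)).1) ((γ t).1.2 - (d.p ((t - t0) * 2 ^ d.hb)).2)
      linarith
    refine ⟨(hq _ r1').trans (norm_ge_sub q1 c5), (hq _ r2').trans (norm_ge_sub q2 c6),
      (hq _ r3').trans (norm_ge_sub q3 c7), ?_⟩
    have := norm_le_norm_add_norm_sub (d.pd ((t - t0) * 2 ^ d.hb)) ((γ t).2)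
    rw [norm_sub_rev] at this
    linarith
  · have c1 := (cmp (t0 + h) ⟨by linarith, le_rfl⟩).trans (hbm (t0 + h) ⟨by linarith, le_rfl⟩)
    have e0 : (t0 + h - t0) * (2:ℝ) ^ d.hb = 1 := by rw [← hh1]; ring
    simp only [e0] at c1
    have c2 := (le_max_left _ _).trans c1
    have c3 := (le_max_right _ _).trans c1
    -- jumps
    have hJ0 : ∀ k : ℕ, 0 < k → 0 < 2 * k * 2 ^ 131 := fun k hk => by positivity
    constructor
    · by_cases hek : e.kk = 0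
      · rw [hek]
        simp only [Nat.cast_zero, zero_div, zero_mul]
        positivity
      · have hek' : 0 < e.kk := Nat.pos_of_ne_zero hek
        have hekR : (0:ℝ) < e.kk := by exact_mod_cast hek'
        have u1 := jump3 (x := d.ux) (g := d.ug) (x' := e.ux) (g' := e.ug) (sb := d.sb) (sb' := e.sb)
          (A := 2 * e.kk * 2 ^ 131) (Q := d.inc * 100) (by rw [← mul_assoc, ← mul_assoc]; exact j4)
          (by rw [← mul_assoc, ← mul_assoc]; exact j5) (hJ0 _ hek')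
        have u2 := jump3 (x := d.wx) (g := d.wg) (x' := e.wx) (g' := e.wg) (sb := d.sb) (sb' := e.sb)
          (A := 2 * e.kk * 2 ^ 131) (Q := d.inc * 100) (by rw [← mul_assoc, ← mul_assoc]; exact j6)
          (by rw [← mul_assoc, ← mul_assoc]; exact j7) (hJ0 _ hek')
        have u3 : ‖d.p 1 - e.p 0‖ ≤ ((d.inc * 100 : ℕ) : ℝ) / ((2 * e.kk * 2 ^ 131 : ℕ) : ℝ) +
            ((d.inc * 100 : ℕ) : ℝ) / ((2 * e.kk * 2 ^ 131 : ℕ) : ℝ) := by
          rw [Prod.norm_def]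
          exact max_le u1 u2
        have u4 : (e.kk / 100 : ℝ) * ‖d.p 1 - e.p 0‖ ≤ d.inc / 2 ^ 131 := by
          calc (e.kk / 100 : ℝ) * ‖d.p 1 - e.p 0‖ ≤ (e.kk / 100 : ℝ) * (((d.inc * 100 : ℕ) : ℝ) / ((2 * e.kk * 2 ^ 131 : ℕ) : ℝ) +
                ((d.inc * 100 : ℕ) : ℝ) / ((2 * e.kk * 2 ^ 131 : ℕ) : ℝ)) := by gcongr
            _ = d.inc / 2 ^ 131 := by
                push_cast
                field_simp
                ring
        have u5 := norm_sub_le_norm_sub_add_norm_sub (γ (t0 + h)).1 (d.p 1) (e.p 0)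
        have u6 : (e.kk / 100 : ℝ) * ‖(γ (t0 + h)).1 - d.p 1‖ ≤ e.kk / d.kk * bend := by
          have : (e.kk / 100 : ℝ) * ‖(γ (t0 + h)).1 - d.p 1‖ = e.kk / d.kk * (κ * ‖(γ (t0 + h)).1 - d.p 1‖) := by
            rw [hκ]; field_simp
          rw [this]
          gcongr
        calc (e.kk / 100 : ℝ) * ‖(γ (t0 + h)).1 - e.p 0‖ ≤
              (e.kk / 100 : ℝ) * (‖(γ (t0 + h)).1 - d.p 1‖ + ‖d.p 1 - e.p 0‖) := by gcongr
          _ = (e.kk / 100 : ℝ) * ‖(γ (t0 + h)).1 - d.p 1‖ + (e.kk / 100 : ℝ) * ‖d.p 1 - e.p 0‖ := by ring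
          _ ≤ e.kk / d.kk * bend + d.inc / 2 ^ 131 := by linarith
          _ ≤ _ := g6
    · have u1 := jump3 (x := ddh d.hb d.ux) (g := ddh d.hb d.ug) (x' := ddh e.hb e.ux) (g' := ddh e.hb e.ug)
          (sb := d.sb) (sb' := e.sb) (A := 2 * 2 ^ 131) (Q := d.inc) (by rw [← mul_assoc]; exact j8)
          (by rw [← mul_assoc]; exact j9) (by positivity)
      have u2 := jump3 (x := ddh d.hb d.wx) (g := ddh d.hb d.wg) (x' := ddh e.hb e.wx) (g' := ddh e.hb e.wg)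
          (sb := d.sb) (sb' := e.sb) (A := 2 * 2 ^ 131) (Q := d.inc) (by rw [← mul_assoc]; exact j10)
          (by rw [← mul_assoc]; exact j11) (by positivity)
      have u3 : ‖d.pd 1 - e.pd 0‖ ≤ (d.inc : ℝ) / ((2 * 2 ^ 131 : ℕ) : ℝ) + (d.inc : ℝ) / ((2 * 2 ^ 131 : ℕ) : ℝ) := by
        rw [Prod.norm_def]
        exact max_le u1 u2
      have u4 : (d.inc : ℝ) / ((2 * 2 ^ 131 : ℕ) : ℝ) + (d.inc : ℝ) / ((2 * 2 ^ 131 : ℕ) : ℝ) = d.inc / 2 ^ 131 := by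
        push_cast
        ring
      have u5 := norm_sub_le_norm_sub_add_norm_sub (γ (t0 + h)).2 (d.pd 1) (e.pd 0)
      linarith

end Pool.Agent.H99.LG
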