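import Pool.Agent.H99.LG.Link2
import Pool.Agent.H99.LG.C0
import Pool.Agent.H99.LG.C1
import Pool.Agent.H99.LG.C2
import Pool.Agent.H99.LG.C3
import Pool.Agent.H99.LG.C4
import Pool.Agent.H99.LG.C5
import Pool.Agent.H99.LG.C6
import Pool.Agent.H99.LG.C7

/-! The chain of all steps. -/

set_option autoImplicit false

namespace Pool.Agent.H99.LG

open Set Complex Pool.Agent.H99.TB Pool.Agent.H99.TB.Poly Pool.Agent.H3.LG

def good : List TD3 → Prop
  | [] => True
  | [_] => True
  | a :: b :: l => (okD a && (okR a && (okM a && okJ a b))) = true ∧ good (b :: l)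

def lastD : TD3 → List TD3 → TD3
  | d, [] => d
  | _, b :: l => lastD b l

/-- duration of all steps but the last -/
noncomputable def dur : TD3 → List TD3 → ℝ
  | _, [] => 0
  | d, b :: l => 1 / 2 ^ d.hb + dur b l

/-- the same in units `2^-20` -/
def durN : TD3 → List TD3 → ℕ
  | _, [] => 0
  | d, b :: l => 2 ^ (20 - d.hb) + durN b l

theorem dur_nonneg (l : List TD3) : ∀ d : TD3, 0 ≤ dur d l := by
  induction l with
  | nil => intro d; simp [dur]
  | cons b l ih => intro d; simp only [dur]; have := ih b; positivity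

theorem dur_eq (l : List TD3) : ∀ d : TD3, good (d :: l) → dur d l = durN d l / 2 ^ 20 := by
  induction l with
  | nil => intro d _; simp [dur, durN]
  | cons b l ih =>
    intro d hg
    obtain ⟨g1, g2⟩ := hg
    simp only [Bool.and_eq_true] at g1
    obtain ⟨-, -, hM, -⟩ := g1
    simp only [okM, Bool.and_eq_true, decide_eq_true_eq] at hM
    obtain ⟨⟨-, m9⟩, -⟩ := hM
    have e : (1 : ℝ) / 2 ^ d.hb = 2 ^ (20 - d.hb) / 2 ^ 20 := by
      rw [div_eq_div_iff (by positivity) (by positivity), one_mul, ← pow_add]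
      congr 1
      omega
    simp only [dur, durN]
    rw [ih b g2, e]
    push_cast
    ring

theorem run3 {m : Fin 3 → ℝ} (hm : Near3 m (1 / 10 ^ 45)) {γ : ℝ → E × E} (hγ : Sol m γ) (l : List TD3) :
    ∀ (d : TD3) (t0 : ℝ), good (d :: l) → Inv3 d (γ t0) →
      (l ≠ [] → ∀ t ∈ Icc t0 (t0 + dur d l), 1 / 20 ≤ ‖(γ t).1.1‖ ∧ 1 / 20 ≤ ‖(γ t).1.2‖ ∧
        1 / 20 ≤ ‖(γ t).1.1 + (γ t).1.2‖ ∧ ‖(γ t).2‖ ≤ 31) ∧ Inv3 (lastD d l) (γ (t0 + dur d l)) := by
  induction l with
  | nil =>
    intro d t0 _ inv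
    refine ⟨fun h => absurd rfl h, ?_⟩
    simpa [lastD, dur] using inv
  | cons b l ih =>
    intro d t0 hg inv
    obtain ⟨g1, g2⟩ := hg
    obtain ⟨a1, a2⟩ := link3 hm hγ g1 inv
    obtain ⟨b1, b2⟩ := ih b (t0 + 1 / 2 ^ d.hb) g2 a2
    have e : t0 + 1 / 2 ^ d.hb + dur b l = t0 + dur d (b :: l) := by simp only [dur]; ring
    rw [e] at b1 b2
    refine ⟨fun _ t ht => ?_, b2⟩
    by_cases hc : t ≤ t0 + 1 / 2 ^ d.hb
    · exact a1 t ⟨ht.1, hc⟩
    · push Not at hc
      have hne : l ≠ [] := by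
        rintro rfl
        have h2 := ht.2
        simp only [dur, add_zero] at h2
        linarith
      exact b1 hne t ⟨hc.le, ht.2⟩

def nodesList : List TD3 := [n1, n2, n3, n4, n5, n6, n7, n8, n9, n10, n11, n12, n13, n14, n15, n16, n17, n18, n19, n20, n21, n22, n23, n24, n25, n26, n27, n28, n29, n30, n31, n32, n33, n34, n35, n36, n37, n38, n39, n40, n41, n42, n43, n44, n45, n46, n47, n48, n49, n50, n51, n52, n53, n54, n55, n56, n57, n58, n59, n60, n61, n62, n63, n64, n65, n66, n67, n68, n69, n70, n71, n72, n73, n74, n75, n76, n77, n78, n79, n80, n81, n82, n83, n84, n85, n86, n87, n88, n89, n90, n91, n92, n93, n94, n95, n96, n97, n98, n99, n100, n101, n102, n103, n104, n105, n106, n107, n108, n109, n110, n111, n112, n113, n114, n115, n116, n117, n118, n119, n120, n121, n122, n123, n124, n125, n126, n127, n128, n129, n130, n131, n132, n133, n134, n135, n136, n137, n138, n139, n140, n141, n142, n143, n144, n145, n146, n147, n148, n149, n150, n151, n152, n153, n154, n155, n156, n157,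 n158, n159, n160, n161, n162, n163, n164, n165, n166, n167, n168, n169, n170, n171, n172, n173, n174, n175, n176, n177, n178, n179, n180, n181, n182, n183, n184, n185, n186, n187, n188, n189, n190, n191, n192, n193, n194, n195, n196, n197, n198, n199, n200, n201, n202, n203, n204, n205, n206, n207, n208, n209, n210, n211]

theorem good_all : good (n0 :: nodesList) :=
  ⟨c0, c1, c2, c3, c4, c5, c6, c7, c8, c9, c10, c11, c12, c13, c14, c15, c16, c17, c18, c19, c20, c21, c22, c23, c24, c25, c26, c27, c28, c29, c30, c31, c32, c33, c34, c35, c36, c37, c38, c39, c40, c41, c42, c43, c44, c45, c46, c47, c48, c49, c50, c51, c52, c53, c54, c55, c56, c57, c58, c59, c60, c61, c62, c63, c64, c65, c66, c67, c68, c69, c70, c71, c72, c73, c74, c75, c76, c77, c78, c79, c80, c81, c82, c83, c84, c85, c86, c87, c88, c89, c90, c91, c92, c93, c94, c95, c96, c97, c98, c99, c100, c101, c102, c103, c104, c105, c106, c107, c108, c109, c110, c111, c112, c113, c114, c115, c116, c117, c118, c119, c120, c121, c122,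 c123, c124, c125, c126, c127, c128, c129, c130, c131, c132, c133, c134, c135, c136, c137, c138, c139, c140, c141, c142, c143, c144, c145, c146, c147, c148, c149, c150, c151, c152, c153, c154, c155, c156, c157, c158, c159, c160, c161, c162, c163, c164, c165, c166, c167, c168, c169, c170, c171, c172, c173, c174, c175, c176, c177, c178, c179, c180, c181, c182, c183, c184, c185, c186, c187, c188, c189, c190, c191, c192, c193, c194, c195, c196, c197, c198, c199, c200, c201, c202, c203, c204, c205, c206, c207, c208, c209, c210, trivial⟩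

theorem durN_all : durN n0 nodesList = 13152256 := by decide +kernel

theorem dur_all : dur n0 nodesList = 3211 / 256 := by
  rw [dur_eq _ _ good_all, durN_all]
  norm_num

theorem last_all : lastD n0 nodesList = n211 := rfl

theorem main3 {m : Fin 3 → ℝ} (hm : Near3 m (1 / 10 ^ 45)) {γ : ℝ → E × E} (hγ : Sol m γ) (inv : Inv3 n0 (γ 0)) :
    (∀ t ∈ Icc (0 : ℝ) (3211 / 256), 1 / 20 ≤ ‖(γ t).1.1‖ ∧ 1 / 20 ≤ ‖(γ t).1.2‖ ∧
        1 / 20 ≤ ‖(γ t).1.1 + (γ t).1.2‖ ∧ ‖(γ t).2‖ ≤ 31) ∧ Inv3 n211 (γ (3211 / 256)) := by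
  have h := run3 hm hγ nodesList n0 0 good_all inv
  rw [dur_all, last_all, zero_add] at h
  exact ⟨h.1 (by simp [nodesList]), h.2⟩

end Pool.Agent.H99.LG
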