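import Pool.Agent.H99.LG.Bad

/-!
Lang's inequality with one generic number: the set of bad numbers is a null set.
-/

set_option autoImplicit false

open scoped ENNReal
open MeasureTheory

namespace Pool.Agent.H99.LG

theorem sum_g {R ε c : ℝ} (hR : 0 ≤ R) (hε : 0 < ε) (hc : 0 < c) (hc1 : c ≤ 1 / 2) {K L : ℝ≥0∞}
    (hK : ∀ y M : ℝ, 1 ≤ M →
    (∑' z : Qp × Zn, (if |(z.2.1 : ℝ) * Real.log (z.1.1 : ℝ) + y| ≤ M then
      ENNReal.ofReal |(z.2.1 : ℝ)| * wt ε z else 0)) ≤ ENNReal.ofReal M * K)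
    (hW : (∑' z, wt ε z) ≤ L) (hKL : ENNReal.ofReal (R + 1) * K ≤ L) (m : ℕ) (b₀ : Zn) :
    ∑' g : Fin m → Qp × Zn, volume (E R ε c b₀ g) ≤
      ENNReal.ofReal (2 * c ^ (m + 1)) * (ENNReal.ofReal (|(b₀.1 : ℝ)| ^ (-(1 + ε))) *
        ((m + 1) * L ^ m)) := by
  classical
  have h0 := one_le_abs b₀
  set M : ℝ := (R + 1) * |(b₀.1 : ℝ)| with hM
  have hM1 : 1 ≤ M := by nlinarith
  set A := ENNReal.ofReal (2 * c ^ (m + 1)) with hA
  set B2 := ENNReal.ofReal (|(b₀.1 : ℝ)| ^ (-(2 + ε))) with hB2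
  have h1 : ∀ g : Fin m → Qp × Zn, volume (E R ε c b₀ g) ≤
      A * (B2 * (ENNReal.ofReal |(b₀.1 : ℝ)| * ∏ i, wt ε (g i) + ∑ j, (if |Lam g| ≤ M then
        ENNReal.ofReal |((g j).2.1 : ℝ)| * ∏ i, wt ε (g i) else 0))) := by
    intro g
    refine (vol_E hR hε hc hc1 b₀ g).trans ?_
    by_cases h : |Lam g| ≤ M
    · rw [if_pos h, ofReal_del hc b₀ g]
      simp only [if_pos h]
      rw [← Finset.sum_mul, ← add_mul]
    · rw [if_neg h]
      exact zero_le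
  have h2 : ∀ j : Fin m, (∑' g : Fin m → Qp × Zn, (if |Lam g| ≤ M then
        ENNReal.ofReal |((g j).2.1 : ℝ)| * ∏ i, wt ε (g i) else 0)) ≤
      ENNReal.ofReal |(b₀.1 : ℝ)| * L ^ m := by
    intro j
    obtain ⟨k, rfl⟩ : ∃ k, m = k + 1 := ⟨m - 1, by have := j.2; omega⟩
    refine (T2 hK k j M hM1).trans ?_
    rw [hM, ENNReal.ofReal_mul (by linarith)]
    calc ENNReal.ofReal (R + 1) * ENNReal.ofReal |(b₀.1 : ℝ)| * K * (∑' z, wt ε z) ^ k
        = ENNReal.ofReal |(b₀.1 : ℝ)| * ((ENNReal.ofReal (R + 1) * K) * (∑' z, wt ε z) ^ k) := by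
          ring
      _ ≤ ENNReal.ofReal |(b₀.1 : ℝ)| * (L * L ^ k) := by gcongr
      _ = _ := by rw [pow_succ, mul_comm L]
  have h3 : (∑' g : Fin m → Qp × Zn, ∑ j, (if |Lam g| ≤ M then
        ENNReal.ofReal |((g j).2.1 : ℝ)| * ∏ i, wt ε (g i) else 0)) ≤
      m * (ENNReal.ofReal |(b₀.1 : ℝ)| * L ^ m) := by
    rw [Summable.tsum_finsetSum (fun _ _ => ENNReal.summable)]
    refine (Finset.sum_le_sum fun j _ => h2 j).trans ?_
    rw [Finset.sum_const, Finset.card_univ, Fintype.card_fin, nsmul_eq_mul]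
  have hB : B2 * ENNReal.ofReal |(b₀.1 : ℝ)| = ENNReal.ofReal (|(b₀.1 : ℝ)| ^ (-(1 + ε))) := by
    rw [hB2, ← ENNReal.ofReal_mul (by positivity)]
    congr 1
    nth_rewrite 2 [← Real.rpow_one |(b₀.1 : ℝ)|]
    rw [← Real.rpow_add (by linarith)]
    congr 1
    ring
  calc ∑' g : Fin m → Qp × Zn, volume (E R ε c b₀ g) ≤ ∑' g : Fin m → Qp × Zn,
        A * (B2 * (ENNReal.ofReal |(b₀.1 : ℝ)| * ∏ i, wt ε (g i) + ∑ j, (if |Lam g| ≤ M then
        ENNReal.ofReal |((g j).2.1 : ℝ)| * ∏ i, wt ε (g i) else 0))) :=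
        ENNReal.tsum_le_tsum h1
    _ = A * (B2 * (ENNReal.ofReal |(b₀.1 : ℝ)| * (∑' z, wt ε z) ^ m +
        ∑' g : Fin m → Qp × Zn, ∑ j, (if |Lam g| ≤ M then
        ENNReal.ofReal |((g j).2.1 : ℝ)| * ∏ i, wt ε (g i) else 0))) := by
        rw [ENNReal.tsum_mul_left, ENNReal.tsum_mul_left, ENNReal.tsum_add,
          ENNReal.tsum_mul_left, tsum_pi_prod]
    _ ≤ A * (B2 * (ENNReal.ofReal |(b₀.1 : ℝ)| * L ^ m +
        m * (ENNReal.ofReal |(b₀.1 : ℝ)| * L ^ m))) := by gcongr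
    _ = A * ((B2 * ENNReal.ofReal |(b₀.1 : ℝ)|) * ((m + 1) * L ^ m)) := by ring
    _ = _ := by rw [hB]

theorem null {R ε : ℝ} (hR : 0 ≤ R) (hε : 0 < ε) :
    volume {x : ℝ | |x| ≤ R ∧ ∀ c : ℝ, 0 < c → ∃ (m : ℕ) (b₀ : Zn) (g : Fin m → Qp × Zn),
      |(b₀.1 : ℝ) * x + Lam g| ≤ del ε c b₀ g} = 0 := by
  obtain ⟨K, hKf, hK⟩ := Vb ε hε
  set W := ∑' z, wt ε z with hWdef
  have hWf : W ≠ ∞ := W_fin ε hε
  set L : ℝ≥0∞ := 1 + W + ENNReal.ofReal (R + 1) * K with hL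
  have hLf : L ≠ ∞ := ENNReal.add_ne_top.2 ⟨ENNReal.add_ne_top.2 ⟨by norm_num, hWf⟩,
    ENNReal.mul_ne_top ENNReal.ofReal_ne_top hKf⟩
  have hWL : W ≤ L := by
    rw [hL]
    exact le_trans le_add_self le_self_add
  have hKL : ENNReal.ofReal (R + 1) * K ≤ L := le_add_self
  have h1L : 1 ≤ L := by
    rw [hL, add_assoc]
    exact le_self_add
  set l : ℝ := L.toReal with hl
  have hl1 : 1 ≤ l := by
    rw [hl]
    exact (ENNReal.toReal_le_toReal (by norm_num) hLf).2 h1L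
  have hLl : L = ENNReal.ofReal l := (ENNReal.ofReal_toReal hLf).symm
  set Z := ∑' b : Zn, ENNReal.ofReal (|(b.1 : ℝ)| ^ (-(1 + ε))) with hZ
  have hZf : Z ≠ ∞ := sumZ ε hε
  have key : ∀ c : ℝ, 0 < c → c ≤ 1 / (4 * l) →
      volume {x : ℝ | |x| ≤ R ∧ ∀ c : ℝ, 0 < c → ∃ (m : ℕ) (b₀ : Zn) (g : Fin m → Qp × Zn),
      |(b₀.1 : ℝ) * x + Lam g| ≤ del ε c b₀ g} ≤ ENNReal.ofReal (4 * c) * Z := by
    intro c hc hcl
    have hc1 : c ≤ 1 / 2 := by
      refine hcl.trans ?_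
      rw [div_le_div_iff₀ (by linarith) (by norm_num)]
      linarith
    have hsub : {x : ℝ | |x| ≤ R ∧ ∀ c : ℝ, 0 < c → ∃ (m : ℕ) (b₀ : Zn) (g : Fin m → Qp × Zn),
        |(b₀.1 : ℝ) * x + Lam g| ≤ del ε c b₀ g} ⊆
        ⋃ m : ℕ, ⋃ b₀ : Zn, ⋃ g : Fin m → Qp × Zn, E R ε c b₀ g := by
      rintro x ⟨hx, h⟩
      obtain ⟨m, b₀, g, hg⟩ := h c hc
      rw [Set.mem_iUnion]
      refine ⟨m, ?_⟩
      rw [Set.mem_iUnion₂]
      exact ⟨b₀, g, hx, hg⟩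
    refine (measure_mono hsub).trans ?_
    refine (measure_iUnion_le _).trans ?_
    have h1 : ∀ m : ℕ, volume (⋃ b₀ : Zn, ⋃ g : Fin m → Qp × Zn, E R ε c b₀ g) ≤
        ENNReal.ofReal (2 * c * (1 / 2) ^ m) * Z := by
      intro m
      refine (measure_iUnion_le _).trans ?_
      calc ∑' b₀ : Zn, volume (⋃ g : Fin m → Qp × Zn, E R ε c b₀ g)
          ≤ ∑' b₀ : Zn, ENNReal.ofReal (2 * c ^ (m + 1)) *
            (ENNReal.ofReal (|(b₀.1 : ℝ)| ^ (-(1 + ε))) * ((m + 1) * L ^ m)) := by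
            refine ENNReal.tsum_le_tsum fun b₀ => (measure_iUnion_le _).trans ?_
            exact sum_g hR hε hc hc1 hK hWL hKL m b₀
        _ = (ENNReal.ofReal (2 * c ^ (m + 1)) * ((m + 1) * L ^ m)) * Z := by
            rw [ENNReal.tsum_mul_left, ENNReal.tsum_mul_right]
            ring
        _ ≤ _ := by
            gcongr
            rw [hLl, ← ENNReal.ofReal_pow (by linarith)]
            have e1 : ((m : ℝ≥0∞) + 1) = ENNReal.ofReal ((m : ℝ) + 1) := by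
              rw [ENNReal.ofReal_add (by positivity) (by norm_num), ENNReal.ofReal_natCast,
                ENNReal.ofReal_one]
            rw [e1, ← ENNReal.ofReal_mul (by positivity), ← ENNReal.ofReal_mul (by positivity)]
            apply ENNReal.ofReal_le_ofReal
            have h2 : c ^ (m + 1) ≤ c * (1 / (4 * l)) ^ m := by
              rw [pow_succ, mul_comm]
              gcongr
            have h3 : ((m : ℝ) + 1) ≤ 2 ^ m := by
              have : m + 1 ≤ 2 ^ m := Nat.lt_two_pow_self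
              exact_mod_cast this
            calc 2 * c ^ (m + 1) * (((m : ℝ) + 1) * l ^ m)
                ≤ 2 * (c * (1 / (4 * l)) ^ m) * (2 ^ m * l ^ m) := by gcongr
              _ = 2 * c * ((1 / (4 * l)) * (2 * l)) ^ m := by
                  rw [mul_pow, mul_pow]; ring
              _ = 2 * c * (1 / 2) ^ m := by
                  congr 2
                  field_simp
                  norm_num
    calc ∑' m : ℕ, volume (⋃ b₀ : Zn, ⋃ g : Fin m → Qp × Zn, E R ε c b₀ g)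
        ≤ ∑' m : ℕ, ENNReal.ofReal (2 * c * (1 / 2) ^ m) * Z := ENNReal.tsum_le_tsum h1
      _ = ENNReal.ofReal (4 * c) * Z := by
          rw [ENNReal.tsum_mul_right, ← ENNReal.ofReal_tsum_of_nonneg (fun m => by positivity)
            (summable_geometric_two.mul_left _), tsum_mul_left, tsum_geometric_two]
          congr 2
          ring
  by_contra hne
  have hpos : 0 < volume {x : ℝ | |x| ≤ R ∧ ∀ c : ℝ, 0 < c → ∃ (m : ℕ) (b₀ : Zn)
      (g : Fin m → Qp × Zn), |(b₀.1 : ℝ) * x + Lam g| ≤ del ε c b₀ g} := pos_iff_ne_zero.2 hne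
  have hlim : Filter.Tendsto (fun c : ℝ => ENNReal.ofReal (4 * c) * Z)
      (nhdsWithin 0 (Set.Ioi 0)) (nhds 0) := by
    have h1 : Filter.Tendsto (fun c : ℝ => ENNReal.ofReal (4 * c)) (nhdsWithin 0 (Set.Ioi 0))
        (nhds (ENNReal.ofReal (4 * 0))) :=
      ((ENNReal.continuous_ofReal.comp (continuous_const.mul continuous_id)).tendsto 0).mono_left
        nhdsWithin_le_nhds
    rw [mul_zero, ENNReal.ofReal_zero] at h1
    have h2 := ENNReal.Tendsto.mul_const (b := Z) h1 (Or.inr hZf)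
    rwa [zero_mul] at h2
  have h3 := hlim.eventually_lt_const hpos
  have h4 : ∀ᶠ c : ℝ in nhdsWithin 0 (Set.Ioi 0), c ∈ Set.Ioc 0 (1 / (4 * l)) :=
    Ioc_mem_nhdsGT (by positivity)
  obtain ⟨c, hc1, hc2⟩ := (h3.and h4).exists
  exact absurd (key c hc2.1 hc2.2) (not_le.2 hc1)

theorem ae_good : ∀ᵐ x : ℝ, ∀ k : ℕ, ∃ c : ℝ, 0 < c ∧ ∀ (m : ℕ) (b₀ : Zn)
    (g : Fin m → Qp × Zn), del (1 / ((k : ℝ) + 1)) c b₀ g < |(b₀.1 : ℝ) * x + Lam g| := by
  rw [ae_all_iff]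
  intro k
  have h1 : ∀ N : ℕ, ∀ᵐ x : ℝ, ¬ (|x| ≤ (N : ℝ) ∧ ∀ c : ℝ, 0 < c → ∃ (m : ℕ) (b₀ : Zn)
      (g : Fin m → Qp × Zn), |(b₀.1 : ℝ) * x + Lam g| ≤ del (1 / ((k : ℝ) + 1)) c b₀ g) := by
    intro N
    have := null (R := (N : ℝ)) (ε := 1 / ((k : ℝ) + 1)) (by positivity) (by positivity)
    rw [ae_iff]
    simpa using this
  rw [← ae_all_iff] at h1
  filter_upwards [h1] with x hx
  obtain ⟨N, hN⟩ := exists_nat_ge |x|
  have h2 := hx N
  push Not at h2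
  exact h2 hN

end Pool.Agent.H99.LG
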