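import Pool.Agent.H99.LG.Chk3
import Pool.Agent.H3.LG.Defs

/-! Soundness of the checks of one step. -/

set_option autoImplicit false

namespace Pool.Agent.H99.LG

open Set Complex Pool.Agent.H99.TB Pool.Agent.H99.TB.Poly

/-- one coordinate of a piece in time, started at `t0` -/
theorem hasDerivAt_zzh (hb : ℕ) (S t0 : ℝ) (x y : List ℤ) (t : ℝ) :
    HasDerivAt (fun t : ℝ => zz 1 S x y ((t - t0) * 2 ^ hb)) (zz 1 S (ddh hb x) (ddh hb y) ((t - t0) * 2 ^ hb)) t := by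
  have e : ∀ l : List ℤ, HasDerivAt (fun t : ℝ => ev l ((t - t0) * 2 ^ hb) / S) (ev (ddh hb l) ((t - t0) * 2 ^ hb) / S) t := by
    intro l
    have h4 : HasDerivAt (fun t : ℝ => (t - t0) * 2 ^ hb) (1 * 2 ^ hb) t :=
      ((hasDerivAt_id t).sub_const t0).mul_const _
    have h := (HasDerivAt.comp t (hasDerivAt_ev l ((t - t0) * 2 ^ hb)) h4).div_const S
    have h2 : ev (der l) ((t - t0) * 2 ^ hb) * (1 * 2 ^ hb) / S = ev (ddh hb l) ((t - t0) * 2 ^ hb) / S := by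
      rw [ddh, ev_smul]; push_cast; ring
    rw [← h2]
    exact h
  have hx := (e x).ofReal_comp
  have hy := (e y).ofReal_comp.mul_const I
  have h := hx.add hy
  have z1 : ∀ (a b : List ℤ) (s : ℝ), zz 1 S a b s = ((ev a s / S : ℝ) : ℂ) + ((ev b s / S : ℝ) : ℂ) * I := by
    intro a b s
    apply Complex.ext <;> simp [zz]
  have h3 : (fun t : ℝ => zz 1 S x y ((t - t0) * 2 ^ hb)) =
      fun t : ℝ => ((ev x ((t - t0) * 2 ^ hb) / S : ℝ) : ℂ) + ((ev y ((t - t0) * 2 ^ hb) / S : ℝ) : ℂ) * I := by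
    funext t; exact z1 x y _
  rw [h3, z1]
  exact h

/-- scale -/
noncomputable def TD3.S (d : TD3) : ℝ := 2 ^ d.sb

noncomputable def TD3.p (d : TD3) (s : ℝ) : E := (zz 1 d.S d.ux d.ug s, zz 1 d.S d.wx d.wg s)
noncomputable def TD3.pd (d : TD3) (s : ℝ) : E :=
  (zz 1 d.S (ddh d.hb d.ux) (ddh d.hb d.ug) s, zz 1 d.S (ddh d.hb d.wx) (ddh d.hb d.wg) s)
noncomputable def TD3.pdd (d : TD3) (s : ℝ) : E :=
  (zz 1 d.S (ddh d.hb (ddh d.hb d.ux)) (ddh d.hb (ddh d.hb d.ug)) s,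
    zz 1 d.S (ddh d.hb (ddh d.hb d.wx)) (ddh d.hb (ddh d.hb d.wg)) s)

theorem TD3.S_pos (d : TD3) : 0 < d.S := by unfold TD3.S; positivity

theorem TD3.hp (d : TD3) (t0 t : ℝ) : HasDerivAt (fun t : ℝ => d.p ((t - t0) * 2 ^ d.hb))
    (d.pd ((t - t0) * 2 ^ d.hb)) t :=
  (hasDerivAt_zzh d.hb d.S t0 d.ux d.ug t).prodMk (hasDerivAt_zzh d.hb d.S t0 d.wx d.wg t)

theorem TD3.hpd (d : TD3) (t0 t : ℝ) : HasDerivAt (fun t : ℝ => d.pd ((t - t0) * 2 ^ d.hb))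
    (d.pdd ((t - t0) * 2 ^ d.hb)) t :=
  (hasDerivAt_zzh d.hb d.S t0 _ _ t).prodMk (hasDerivAt_zzh d.hb d.S t0 _ _ t)

/-- lower bound from a check -/
theorem rad_sound {A S r rr k e : ℕ} {z : ℂ} (hS : 0 < S) (hrr : 0 < rr) (hr : 500 ≤ r) (he : 31 ≤ e)
    (hA : (0 : ℝ) < A)
    (hc : A * (r * rr + k * 10 ^ 4) * (2 ^ 30 + 1) ≤ S * 10 ^ 4 * rr * 2 ^ 30)
    (hz : (1 - 1 / 2 ^ e) / (A / S : ℝ) ≤ ‖z‖) : (r / 10 ^ 4 : ℝ) + k * (1 / rr) ≤ ‖z‖ := by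
  have hSR : (0:ℝ) < S := by exact_mod_cast hS
  have hrrR : (0:ℝ) < rr := by exact_mod_cast hrr
  have hcR : (A : ℝ) * (r * rr + k * 10 ^ 4) * (2 ^ 30 + 1) ≤ S * 10 ^ 4 * rr * 2 ^ 30 := by exact_mod_cast hc
  refine le_trans ?_ hz
  rw [le_div_iff₀ (by positivity)]
  set ρ : ℝ := (r / 10 ^ 4 : ℝ) + k * (1 / rr) with hρ
  have h1 : ρ * (A / S) * (1 + 1 / 2 ^ 30) ≤ 1 := by
    have : ρ * (A / S) * (1 + 1 / 2 ^ 30) =
        ((A : ℝ) * (r * rr + k * 10 ^ 4) * (2 ^ 30 + 1)) / (S * 10 ^ 4 * rr * 2 ^ 30) := by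
      rw [hρ]; field_simp
    rw [this, div_le_one (by positivity)]
    exact hcR
  have h2 : (1 / 2 ^ e : ℝ) ≤ 1 / 2 ^ 31 := by
    apply one_div_le_one_div_of_le (by positivity)
    exact pow_le_pow_right₀ (by norm_num) he
  have h3 : ρ * (A / S) ≤ 1 / (1 + 1 / 2 ^ 30) := by
    rw [le_div_iff₀ (by positivity)]; exact h1
  have h4 : (1 / (1 + 1 / 2 ^ 30) : ℝ) ≤ 1 - 1 / 2 ^ 31 := by norm_num
  linarith

theorem okD_sound {d : TD3} (hD : okD d = true) (hR : okR d = true) (hM : okM d = true) {s : ℝ} (h0 : 0 ≤ s)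
    (h1 : s ≤ 1) :
    (d.r1 / 10 ^ 4 : ℝ) + 1 / d.rr ≤ ‖(d.p s).1‖ ∧ (d.r2 / 10 ^ 4 : ℝ) + 1 / d.rr ≤ ‖(d.p s).2‖ ∧
    (d.r3 / 10 ^ 4 : ℝ) + 2 * (1 / d.rr) ≤ ‖(d.p s).1 + (d.p s).2‖ ∧
    ‖d.pd s‖ ≤ 30 ∧ ‖d.pdd s - rf kep (1 / 3) (1 / 3) (1 / 3) (d.p s)‖ ≤ 1 / 2 * (1 / 2 ^ d.eb) := by
  simp only [okR, okM, Bool.and_eq_true, decide_eq_true_eq] at hR hM
  obtain ⟨⟨⟨⟨⟨⟨⟨⟨⟨a1, a2⟩, a3⟩, a4⟩, a5⟩, a6⟩, a7⟩, a8⟩, a9⟩, a10⟩ := hR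
  obtain ⟨⟨⟨⟨⟨⟨⟨⟨⟨m1, m2⟩, m3⟩, m4⟩, m5⟩, m6⟩, m7⟩, m8⟩, m9⟩, m10⟩ := hM
  have hS0 : 0 < 2 ^ d.sb := by positivity
  have hX : (0:ℤ) < 2 ^ d.xb := by positivity
  have hSR : (((2 ^ d.sb : ℕ)) : ℝ) = d.S := by unfold TD3.S; push_cast; rfl
  have hSp := d.S_pos
  have hpos : ∀ b : List ℤ, pos b ≤ 16 * 2 ^ d.sb → (pos b : ℝ) / ((2 ^ d.sb : ℕ) : ℝ) ≤ 16 := by
    intro b hb
    rw [div_le_iff₀ (by positivity)]
    exact_mod_cast hb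
  have key := okDat3_sound (lam := 1) (Bb := 16) (e2 := d.eb + 14) hX hS0 (by norm_num) (by omega) (by norm_num) (by norm_num) hD h0 h1
    (hpos _ a1) (hpos _ a2) (hpos _ a3)
  obtain ⟨k1, k2, k3, k4⟩ := key
  have heads : ∀ (x g b : List ℤ), okPair false (d.eb + 14) 1 1 (2 ^ d.sb) (2 ^ d.xb) x g b = true → (0:ℝ) < pos b := by
    intro x g b hb
    exact (headPos_sound (okPair_head hb) h0 h1).trans_le (ev_le_pos b h0 h1)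
  have hD' := hD
  simp only [okD, okDat3, Bool.and_eq_true] at hD'
  obtain ⟨⟨⟨⟨⟨⟨p1, p2⟩, p3⟩, -⟩, -⟩, -⟩, -⟩ := hD'
  have q1 := heads _ _ _ p1
  have q2 := heads _ _ _ p2
  have q3 := heads _ _ _ p3
  simp only [Nat.cast_one, one_mul, hSR] at k1 k2 k3 k4
  refine ⟨?_, ?_, ?_, ?_, ?_⟩
  · have a4' : pos d.bu * (d.r1 * d.rr + 1 * 10 ^ 4) * (2 ^ 30 + 1) ≤ 2 ^ d.sb * 10 ^ 4 * d.rr * 2 ^ 30 := by
      rw [one_mul]; exact a4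
    have := rad_sound (k := 1) (e := d.eb + 14) hS0 m4 m1 (by omega) q1 a4' (by rw [hSR]; exact k1)
    rw [Nat.cast_one, one_mul] at this
    exact this
  · have a5' : pos d.bw * (d.r2 * d.rr + 1 * 10 ^ 4) * (2 ^ 30 + 1) ≤ 2 ^ d.sb * 10 ^ 4 * d.rr * 2 ^ 30 := by
      rw [one_mul]; exact a5
    have := rad_sound (k := 1) (e := d.eb + 14) hS0 m4 m2 (by omega) q2 a5' (by rw [hSR]; exact k2)
    rw [Nat.cast_one, one_mul] at this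
    exact this
  · have := rad_sound (k := 2) (e := d.eb + 14) hS0 m4 m3 (by omega) q3 a6 (by rw [hSR]; exact k3)
    rw [Nat.cast_ofNat] at this
    exact this
  · rw [TD3.pd, Prod.norm_mk]
    have e1 : ∀ x g : List ℤ, nrm x + nrm g ≤ 30 * 2 ^ d.sb → ‖zz 1 d.S x g s‖ ≤ 30 := by
      intro x g hb
      have n1 : |ev x s / d.S| ≤ nrm x / d.S := by
        rw [abs_div, abs_of_pos hSp]
        gcongr
        exact abs_ev_le x h0 h1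
      have n2 : |1 * (ev g s / d.S)| ≤ nrm g / d.S := by
        rw [one_mul, abs_div, abs_of_pos hSp]
        gcongr
        exact abs_ev_le g h0 h1
      have n3 : ‖zz 1 d.S x g s‖ ≤ nrm x / d.S + nrm g / d.S := norm_le_of_parts n1 n2
      refine n3.trans ?_
      rw [← add_div, div_le_iff₀ hSp, ← hSR]
      exact_mod_cast hb
    exact max_le (e1 _ _ a9) (e1 _ _ a10)
  · refine k4.trans ?_
    simp only [wt, Bool.false_eq_true, if_false, one_mul]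
    have : ((1 + 1) / 2 ^ (d.eb + 3) + 16 * 16 ^ 2 / 2 ^ (d.eb + 14) : ℝ) = 1 / 2 * (1 / 2 ^ d.eb) := by
      rw [pow_add, pow_add]
      field_simp
      norm_num
    rw [this]

end Pool.Agent.H99.LG
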