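import Mathlib

/-!
Lang's inequality with one generic number: the sums.
-/

set_option autoImplicit false

open scoped ENNReal
open MeasureTheory

namespace Pool.Agent.H99.LG

/-- positive rational numbers other than `1` -/
abbrev Qp : Type := {a : ℚ // 0 < a ∧ a ≠ 1}

/-- nonzero integers -/
abbrev Zn : Type := {b : ℤ // b ≠ 0}

/-- the height -/
noncomputable def H (a : ℚ) : ℝ := ((max a.num.natAbs a.den : ℕ) : ℝ)

theorem one_le_H (a : ℚ) : 1 ≤ H a := by
  unfold H
  have : 1 ≤ max a.num.natAbs a.den := le_max_of_le_right a.den_pos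
  exact_mod_cast this

theorem one_le_abs (b : Zn) : (1 : ℝ) ≤ |(b.1 : ℝ)| := by
  have : (1 : ℤ) ≤ |b.1| := Int.one_le_abs b.2
  exact_mod_cast this

theorem tsum_pi_prod {S : Type} (f : S → ℝ≥0∞) (m : ℕ) :
    ∑' g : Fin m → S, ∏ i, f (g i) = (∑' s, f s) ^ m := by
  induction m with
  | zero =>
    rw [tsum_eq_single (fun i => i.elim0)]
    · simp
    · intro g hg
      exact absurd (Subsingleton.elim _ _) hg
  | succ m ih =>
    rw [← (Fin.insertNthEquiv (fun _ => S) 0).tsum_eq]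
    have h1 : ∀ c : S × (Fin m → S), ∏ i, f ((Fin.insertNthEquiv (fun _ => S) 0) c i) =
        f c.1 * ∏ i, f (c.2 i) := by
      intro c
      rw [Fin.prod_univ_succAbove _ 0]
      simp only [Fin.insertNthEquiv_apply, Fin.insertNth_apply_same,
        Fin.insertNth_apply_succAbove]
    simp only [h1]
    rw [ENNReal.tsum_prod (f := fun (z : S) (g : Fin m → S) => f z * ∏ i, f (g i))]
    simp only [ENNReal.tsum_mul_left, ih]
    rw [ENNReal.tsum_mul_right, pow_succ, mul_comm]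

/-- number of integers in an interval -/
theorem count_int (t y M : ℝ) (ht : t ≠ 0) (hM : 0 ≤ M) :
    (∑' b : Zn, (if |(b.1 : ℝ) * t + y| ≤ M then (1 : ℝ≥0∞) else 0)) ≤
      ENNReal.ofReal (1 + 2 * M / |t|) := by
  classical
  have h1 : (∑' b : Zn, (if |(b.1 : ℝ) * t + y| ≤ M then (1 : ℝ≥0∞) else 0)) ≤
      ∑' b : ℤ, (if |(b : ℝ) * t + y| ≤ M then (1 : ℝ≥0∞) else 0) :=
    ENNReal.tsum_comp_le_tsum_of_injective Subtype.val_injective
      (fun b : ℤ => (if |(b : ℝ) * t + y| ≤ M then (1 : ℝ≥0∞) else 0))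
  refine h1.trans ?_
  have ht' : 0 < |t| := abs_pos.2 ht
  set u : ℝ := -y / t - M / |t| with hu
  set v : ℝ := -y / t + M / |t| with hv
  have h2 : ∀ b : ℤ, |(b : ℝ) * t + y| ≤ M → b ∈ Finset.Icc ⌈u⌉ ⌊v⌋ := by
    intro b hb
    have h3 : |(b : ℝ) * t + y| = |t| * |(b : ℝ) + y / t| := by
      rw [← abs_mul]
      congr 1
      field_simp
    rw [h3] at hb
    have h4 : |(b : ℝ) + y / t| ≤ M / |t| := by
      rw [le_div_iff₀ ht']
      linarith
    rw [abs_le] at h4
    rw [Finset.mem_Icc, Int.ceil_le, Int.le_floor]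
    have h5 : -y / t = -(y / t) := by ring
    constructor
    · rw [hu, h5]; linarith [h4.1]
    · rw [hv, h5]; linarith [h4.2]
  calc ∑' b : ℤ, (if |(b : ℝ) * t + y| ≤ M then (1 : ℝ≥0∞) else 0)
      ≤ ∑' b : ℤ, (if b ∈ Finset.Icc ⌈u⌉ ⌊v⌋ then (1 : ℝ≥0∞) else 0) := by
        refine ENNReal.tsum_le_tsum fun b => ?_
        by_cases hb : |(b : ℝ) * t + y| ≤ M
        · rw [if_pos hb, if_pos (h2 b hb)]
        · rw [if_neg hb]; exact zero_le
    _ = ∑ b ∈ Finset.Icc ⌈u⌉ ⌊v⌋, (1 : ℝ≥0∞) := by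
        rw [tsum_eq_sum (s := Finset.Icc ⌈u⌉ ⌊v⌋)]
        · exact Finset.sum_congr rfl fun b hb => if_pos hb
        · intro b hb
          exact if_neg hb
    _ = ((Finset.Icc ⌈u⌉ ⌊v⌋).card : ℝ≥0∞) := by simp
    _ = ENNReal.ofReal ((Finset.Icc ⌈u⌉ ⌊v⌋).card : ℝ) := by
        rw [ENNReal.ofReal_natCast]
    _ ≤ ENNReal.ofReal (1 + 2 * M / |t|) := by
        apply ENNReal.ofReal_le_ofReal
        rw [Int.card_Icc]
        have h6 : (0 : ℝ) ≤ 1 + 2 * M / |t| := by positivity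
        rcases le_or_gt (⌊v⌋ + 1 - ⌈u⌉) 0 with h7 | h7
        · rw [Int.toNat_of_nonpos h7]
          simpa using h6
        · have h8 : (((⌊v⌋ + 1 - ⌈u⌉).toNat : ℤ) : ℝ) = ((⌊v⌋ + 1 - ⌈u⌉ : ℤ) : ℝ) := by
            rw [Int.toNat_of_nonneg h7.le]
          have h9 : (((⌊v⌋ + 1 - ⌈u⌉).toNat : ℕ) : ℝ) = ((⌊v⌋ + 1 - ⌈u⌉ : ℤ) : ℝ) := by
            rw [← h8]; norm_cast
          rw [h9]
          push_cast
          have h10 := Int.floor_le v
          have h11 := Int.le_ceil u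
          have h12 : v - u = 2 * M / |t| := by rw [hu, hv]; ring
          linarith

theorem one_lt_iff (a : ℚ) : 1 < a ↔ (a.den : ℤ) < a.num := by
  have h := Rat.num_div_den a
  have hd : (0 : ℚ) < a.den := by exact_mod_cast a.den_pos
  conv_lhs => rw [← h]
  rw [one_lt_div hd]
  exact_mod_cast Iff.rfl

/-- lower bound for the logarithm -/
theorem log_ge (a : ℚ) (ha : 0 < a) (ha1 : a ≠ 1) :
    (((max a.num.natAbs a.den - min a.num.natAbs a.den : ℕ) : ℕ) : ℝ) / H a ≤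
      |Real.log (a : ℝ)| ∧ 1 ≤ max a.num.natAbs a.den - min a.num.natAbs a.den := by
  have hn : 0 < a.num := Rat.num_pos.2 ha
  obtain ⟨p, hp⟩ : ∃ p : ℕ, a.num = p := ⟨a.num.natAbs, by omega⟩
  have hp0 : 0 < p := by omega
  set q := a.den with hq
  have hq0 : 0 < q := a.den_pos
  have haR : (a : ℝ) = (p : ℝ) / q := by
    have h := Rat.num_div_den a
    rw [hp] at h
    rw [← h]
    push_cast
    rfl
  have hpq : p ≠ q := by
    intro h
    apply ha1
    have h2 := Rat.num_div_den a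
    rw [hp, ← hq, h] at h2
    rw [← h2]
    have : (q : ℚ) ≠ 0 := by exact_mod_cast hq0.ne'
    push_cast
    exact div_self this
  have hpR : (0 : ℝ) < p := by exact_mod_cast hp0
  have hqR : (0 : ℝ) < q := by exact_mod_cast hq0
  have hna : a.num.natAbs = p := by omega
  unfold H
  rw [hna, ← hq, haR]
  refine ⟨?_, by omega⟩
  rcases lt_or_gt_of_ne hpq with h | h
  · have e1 : max p q = q := by omega
    have e2 : min p q = p := by omega
    rw [e1, e2, Nat.cast_sub h.le]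
    have h1 := Real.log_le_sub_one_of_pos (x := (p : ℝ) / q) (by positivity)
    have h2 : ((q : ℝ) - p) / q = 1 - p / q := by field_simp
    rw [h2]
    refine le_trans ?_ (neg_le_abs _)
    linarith
  · have e1 : max p q = p := by omega
    have e2 : min p q = q := by omega
    rw [e1, e2, Nat.cast_sub h.le]
    have h1 := Real.log_le_sub_one_of_pos (x := (q : ℝ) / p) (by positivity)
    have h2 : ((p : ℝ) - q) / p = 1 - q / p := by field_simp
    have h3 : Real.log ((p : ℝ) / q) = -Real.log ((q : ℝ) / p) := by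
      rw [← Real.log_inv]
      congr 1
      field_simp
    rw [h2, h3]
    refine le_trans ?_ (le_abs_self _)
    linarith

/-- the sum over the rational numbers -/
theorem sumQ (ε : ℝ) (hε : 0 < ε) :
    (∑' a : Qp, ENNReal.ofReal (H a.1 ^ (-(2 + 2 * ε)) * (1 + 2 / |Real.log (a.1 : ℝ)|))) ≠ ∞ := by
  have hs : Summable fun n : ℕ => (n : ℝ) ^ (-(1 + ε)) := by
    have := Real.summable_nat_rpow.2 (show -(1 + ε) < -1 by linarith)
    exact this
  set f : ℕ → ℝ≥0∞ := fun n => ENNReal.ofReal ((n : ℝ) ^ (-(1 + ε))) with hf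
  have hfs : ∑' n, f n ≠ ∞ := hs.tsum_ofReal_ne_top
  set G : Bool × ℕ × ℕ → ℝ≥0∞ := fun z => 3 * (f z.2.1 * f z.2.2) with hG
  have hGs : ∑' z, G z ≠ ∞ := by
    have h1 : ∑' z, G z = ∑' _ : Bool, ∑' p : ℕ × ℕ, 3 * (f p.1 * f p.2) :=
      ENNReal.tsum_prod (f := fun (_ : Bool) (p : ℕ × ℕ) => 3 * (f p.1 * f p.2))
    have h2 : ∑' p : ℕ × ℕ, 3 * (f p.1 * f p.2) = 3 * ((∑' n, f n) * ∑' n, f n) := by
      rw [ENNReal.tsum_prod (f := fun i j => 3 * (f i * f j))]
      simp only [ENNReal.tsum_mul_left, ENNReal.tsum_mul_right]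
    rw [h1, h2, tsum_bool]
    refine ENNReal.add_ne_top.2 ⟨?_, ?_⟩ <;>
      exact ENNReal.mul_ne_top (by norm_num) (ENNReal.mul_ne_top hfs hfs)
  let F : Qp → Bool × ℕ × ℕ := fun a => (decide (1 < a.1), max a.1.num.natAbs a.1.den,
    (max a.1.num.natAbs a.1.den) - (min a.1.num.natAbs a.1.den))
  have hFi : Function.Injective F := by
    rintro ⟨a, ha, ha1⟩ ⟨a', ha', ha1'⟩ h
    simp only [F, Prod.mk.injEq, decide_eq_decide] at h
    obtain ⟨h1, h2, h3⟩ := h
    have hn : 0 < a.num := Rat.num_pos.2 ha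
    have hn' : 0 < a'.num := Rat.num_pos.2 ha'
    have hlt : 1 < a ↔ a.den < a.num.natAbs := by
      rw [one_lt_iff]
      omega
    have hlt' : 1 < a' ↔ a'.den < a'.num.natAbs := by
      rw [one_lt_iff]
      omega
    rw [hlt, hlt'] at h1
    apply Subtype.ext
    apply Rat.ext
    · simp only
      omega
    · simp only
      omega
  refine ne_top_of_le_ne_top hGs (le_trans ?_ (ENNReal.tsum_comp_le_tsum_of_injective hFi G))
  refine ENNReal.tsum_le_tsum fun a => ?_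
  obtain ⟨a, ha, ha1⟩ := a
  simp only [hG, F, hf]
  rw [← ENNReal.ofReal_mul (by positivity), show (3 : ℝ≥0∞) = ENNReal.ofReal 3 by norm_num,
    ← ENNReal.ofReal_mul (by norm_num)]
  apply ENNReal.ofReal_le_ofReal
  obtain ⟨h1, h2⟩ := log_ge a ha ha1
  set d : ℕ := max a.num.natAbs a.den - min a.num.natAbs a.den with hd
  have hHd : ((max a.num.natAbs a.den : ℕ) : ℝ) = H a := rfl
  rw [hHd]
  have hH1 := one_le_H a
  have hd1 : (1 : ℝ) ≤ d := by exact_mod_cast h2
  have hdH : (d : ℝ) ≤ H a := by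
    unfold H
    exact_mod_cast Nat.sub_le _ _
  have hlog : 0 < |Real.log (a : ℝ)| := lt_of_lt_of_le (by positivity) h1
  have h3 : 1 + 2 / |Real.log (a : ℝ)| ≤ 3 * (H a / d) := by
    have h4 : 2 / |Real.log (a : ℝ)| ≤ 2 * (H a / d) := by
      rw [div_le_iff₀ hlog]
      calc (2 : ℝ) = 2 * (H a / d) * (d / H a) := by field_simp
        _ ≤ 2 * (H a / d) * |Real.log (a : ℝ)| := by gcongr
    have h5 : 1 ≤ H a / d := by
      rw [le_div_iff₀ (by linarith)]
      linarith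
    linarith
  calc H a ^ (-(2 + 2 * ε)) * (1 + 2 / |Real.log (a : ℝ)|)
      ≤ H a ^ (-(2 + 2 * ε)) * (3 * (H a / d)) := by gcongr
    _ = 3 * (H a ^ (-(1 + ε)) * (H a ^ (-ε) * (d : ℝ)⁻¹)) := by
        have e1 : H a ^ (-(2 + 2 * ε)) = H a ^ (-(1 + ε)) * (H a ^ (-ε) * (H a)⁻¹) := by
          rw [← Real.rpow_neg_one (H a), ← Real.rpow_add (by linarith), ← Real.rpow_add (by linarith)]
          congr 1
          ring
        rw [e1]
        field_simp
    _ ≤ 3 * (H a ^ (-(1 + ε)) * ((d : ℝ) ^ (-ε) * (d : ℝ)⁻¹)) := by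
        have h6 : H a ^ (-ε) ≤ (d : ℝ) ^ (-ε) :=
          Real.rpow_le_rpow_of_nonpos (by linarith) hdH (by linarith)
        gcongr
    _ = 3 * (H a ^ (-(1 + ε)) * (d : ℝ) ^ (-(1 + ε))) := by
        congr 2
        rw [← Real.rpow_neg_one (d : ℝ), ← Real.rpow_add (by linarith)]
        congr 1
        ring

end Pool.Agent.H99.LG
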